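import Pool.Agent.Helper96_MWQ.Out
import Pool.Agent.Helper57_MWX.Q5
import Pool.Agent.Helper61_MWT.Wo
import Pool.Agent.Helper61_MWD.DispQ

/-!
# `ItQ n` for all periods (MP_23468a_al)
-/

set_option autoImplicit false

namespace Pool.Agent.Helper96_MWQ

open Pool.Agent.Helper14_MV Pool.Agent.Helper2_MV Pool.Agent.Helper96_MWV
  Pool.Agent.Helper61_MWD

theorem q5_of {n : ℕ} {β : FIC} (hw : LRW n β) (h0 : MWZ.R0 (RR β)) : Q5 n β where
  r := by
    have e : ∀ j, MWX.V j j 0 0 = (P j 0 ++ ([1] ++ P j 0)) ++ 2 :: [1] := by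
      intro j
      unfold MWX.V
      simp
    have h := MWX.h1n (MWX.ll_of hw)
    rw [e, e] at h
    exact h
  l := MWX.h1dn (MWX.ll_of hw)
  c2 := MWX.q_c2 hw h0
  b0 := MWX.q_b0 hw

/-- **`I1`, `It` over `R0` and `L` for all periods.** -/
theorem itq (n : ℕ) : ItQ n := fun _ hw h =>
  i1t hw (q5_of hw h.1) (fun w a hc => Helper61_MWT.hv_of hw.pos hw.per h.2 a w hc)

end Pool.Agent.Helper96_MWQ
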