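import Pool.Agent.Helper96_MWV.Runs2

/-!
# Thin runs with one light letter over `x²t ≈ tx²`, without residue crossing (MP_23468a_al)

`B1`: `p x z x q ≈ p x^(n+1) z x^(n+1) q` if `z` occurs in `p` or in `q`.  If squares are central then
`B1` gives `p x A z B x q ≈ p x^(n+1) A z B x^(n+1) q` for words `A`, `B` in powers `a^(n+1)`.
-/

set_option autoImplicit false

namespace Pool.Agent.Helper96_MWQ

open Pool.Agent.Helper14_MV Pool.Agent.Helper2_MV Pool.Agent.Helper96_MWV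

variable {n : ℕ} {β : FIC}

/-- the base identity, all contexts -/
def B1 (n : ℕ) (β : FIC) : Prop := ∀ (p q : List ℕ) (x z : ℕ), z ∈ p ∨ z ∈ q →
  RR β (p ++ (P 1 x ++ ([z] ++ (P 1 x ++ q)))) (p ++ (P (n + 1) x ++ ([z] ++ (P (n + 1) x ++ q))))

theorem frs (l : List ℕ) : ∃ m, m ∉ l := fresh l

/-- `z` becomes `w` -/
def zw (z : ℕ) (w : List ℕ) : ℕ → List ℕ := fun a => if a = z then w else [a]

theorem zw_id (z : ℕ) (w l : List ℕ) (h : z ∉ l) : l.flatMap (zw z w) = l := by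
  induction l with
  | nil => rfl
  | cons a l ih =>
    rw [List.mem_cons, not_or] at h
    have e : zw z w a = [a] := by
      unfold zw
      rw [if_neg (fun h' => h.1 h'.symm)]
    rw [List.flatMap_cons, e, ih h.2]
    rfl

theorem zw_z (z : ℕ) (w : List ℕ) : zw z w z = w := by
  unfold zw
  rw [if_pos rfl]

theorem b1_r (h : B1 n β) (p q1 q2 w : List ℕ) (x : ℕ) :
    RR β (p ++ (P 1 x ++ (w ++ (P 1 x ++ (q1 ++ (w ++ q2))))))
      (p ++ (P (n + 1) x ++ (w ++ (P (n + 1) x ++ (q1 ++ (w ++ q2)))))) := by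
  obtain ⟨z, hz⟩ := frs (x :: (p ++ (q1 ++ q2)))
  simp only [List.mem_cons, List.mem_append, not_or] at hz
  obtain ⟨zx, zp, zq1, zq2⟩ := hz
  have h1 := (h p (q1 ++ ([z] ++ q2)) x z (Or.inr (by simp))).sub (zw z w)
  have eP : ∀ k, (P k x).flatMap (zw z w) = P k x := fun k =>
    zw_id z w _ (fun h => zx (List.eq_of_mem_replicate h))
  have e1 : ([z] : List ℕ).flatMap (zw z w) = w := by
    rw [List.flatMap_cons, List.flatMap_nil, List.append_nil, zw_z]
  simp only [List.flatMap_append] at h1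
  rw [zw_id z w p zp, zw_id z w q1 zq1, zw_id z w q2 zq2, eP, eP, e1] at h1
  exact h1

theorem b1_l (h : B1 n β) (p1 p2 q w : List ℕ) (x : ℕ) :
    RR β (p1 ++ (w ++ (p2 ++ (P 1 x ++ (w ++ (P 1 x ++ q))))))
      (p1 ++ (w ++ (p2 ++ (P (n + 1) x ++ (w ++ (P (n + 1) x ++ q)))))) := by
  obtain ⟨z, hz⟩ := frs (x :: (p1 ++ (p2 ++ q)))
  simp only [List.mem_cons, List.mem_append, not_or] at hz
  obtain ⟨zx, zp1, zp2, zq⟩ := hz
  have h1 := (h (p1 ++ ([z] ++ p2)) q x z (Or.inl (by simp))).sub (zw z w)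
  have eP : ∀ k, (P k x).flatMap (zw z w) = P k x := fun k =>
    zw_id z w _ (fun h => zx (List.eq_of_mem_replicate h))
  have e1 : ([z] : List ℕ).flatMap (zw z w) = w := by
    rw [List.flatMap_cons, List.flatMap_nil, List.append_nil, zw_z]
  simp only [List.flatMap_append] at h1
  rw [zw_id z w p1 zp1, zw_id z w p2 zp2, zw_id z w q zq, eP, eP, e1] at h1
  simp only [List.append_assoc] at h1
  exact h1

/-- squares are central -/
theorem cen2 (hq : RR β [0, 0, 2] [2, 0, 0]) (u v : List ℕ) : Co β (u ++ u) v := by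
  have h := hq.sub (fun i => if i = 0 then u else v)
  have e1 : ([0, 0, 2] : List ℕ).flatMap (fun i => if i = 0 then u else v) = u ++ u ++ v := by
    simp
  have e2 : ([2, 0, 0] : List ℕ).flatMap (fun i => if i = 0 then u else v) = v ++ (u ++ u) := by
    simp
  rw [e1, e2] at h
  exact h

theorem pwd_add (a b : ℕ) (u : List ℕ) : pwd (a + b) u = pwd a u ++ pwd b u := by
  induction a with
  | zero => rw [Nat.zero_add]; rfl
  | succ a ih =>
    have e : a + 1 + b = a + b + 1 := by omega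
    rw [e]
    change u ++ pwd (a + b) u = (u ++ pwd a u) ++ pwd b u
    rw [ih, List.append_assoc]

theorem cen (hq : RR β [0, 0, 2] [2, 0, 0]) (k : ℕ) (u v : List ℕ) : Co β (pwd (2 * k) u) v := by
  have e : 2 * k = k + k := by omega
  rw [e, pwd_add]
  exact cen2 hq (pwd k u) v

/-- `A A^(2n) ≈ A` for `A = ∏ a^(n+1)` -/
theorem pwd_hp2 (ap : RR β [0, 0] (List.replicate (n + 2) 0)) (hn : 1 ≤ n) (hC : CM n β)
    (w : List ℕ) : RR β (pwd (2 * n + 1) (hp n w)) (hp n w) := by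
  induction w with
  | nil =>
    change RR β (pwd (2 * n + 1) []) []
    have e : ∀ k, pwd k [] = [] := by
      intro k
      induction k with
      | zero => rfl
      | succ k ih => change [] ++ pwd k [] = []; rw [ih]; rfl
    rw [e]
    exact RR.refl _
  | cons a w ih =>
    change RR β (pwd (2 * n + 1) (P (n + 1) a ++ hp n w)) (P (n + 1) a ++ hp n w)
    have h1 := pwd_app (hp_co hC a w) (2 * n + 1)
    rw [pwd_P] at h1
    have h2 : RR β (P (n + 1) a) (P ((2 * n + 1) * (n + 1)) a) := by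
      have h := pwk ap a (n + 1) (2 * (n + 1)) (by omega)
      have e : n + 1 + 2 * (n + 1) * n = (2 * n + 1) * (n + 1) := by ring
      rw [e] at h
      exact h
    exact tr h1 (h2.symm.append ih)

/-- insertion of `A^(2n)` right of `A` -/
theorem in_r (hq : RR β [0, 0, 2] [2, 0, 0]) (ap : RR β [0, 0] (List.replicate (n + 2) 0))
    (hn : 1 ≤ n) (hC : CM n β) (w X Y Z : List ℕ) :
    RR β (X ++ (hp n w ++ (Y ++ Z))) (X ++ (hp n w ++ (Y ++ (pwd (2 * n) (hp n w) ++ Z)))) := by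
  have h1 := cx X (Y ++ Z) (pwd_hp2 ap hn hC w).symm
  have e : pwd (2 * n + 1) (hp n w) = hp n w ++ pwd (2 * n) (hp n w) := rfl
  rw [e] at h1
  have h2 := cx (X ++ hp n w) Z (cen hq n (hp n w) Y)
  simp only [List.append_assoc] at h1 h2
  exact tr h1 h2

/-- insertion of `A^(2n)` left of `A` -/
theorem in_l (hq : RR β [0, 0, 2] [2, 0, 0]) (ap : RR β [0, 0] (List.replicate (n + 2) 0))
    (hn : 1 ≤ n) (hC : CM n β) (w X Y Z : List ℕ) :
    RR β (X ++ (Y ++ (hp n w ++ Z))) (X ++ (pwd (2 * n) (hp n w) ++ (Y ++ (hp n w ++ Z)))) := by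
  have h1 := cx (X ++ Y) Z (pwd_hp2 ap hn hC w).symm
  have e : pwd (2 * n + 1) (hp n w) = hp n w ++ pwd (2 * n) (hp n w) := rfl
  rw [e] at h1
  have h2 := cx (X ++ Y) Z (cen hq n (hp n w) (hp n w)).symm
  have h3 := cx X (hp n w ++ Z) (cen hq n (hp n w) Y).symm
  simp only [List.append_assoc] at h1 h2 h3
  exact tr h1 (tr h2 h3)

theorem pw_r (k : ℕ) (u : List ℕ) : pwd (k + 1) u = pwd k u ++ u := by
  rw [pwd_add]
  have e : pwd 1 u = u := by
    change u ++ [] = u
    rw [List.append_nil]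
  rw [e]

/-- **One light letter.** -/
theorem sq_th (hq : RR β [0, 0, 2] [2, 0, 0]) (ap : RR β [0, 0] (List.replicate (n + 2) 0))
    (hn : 1 ≤ n) (hC : CM n β) (h : B1 n β) (p q A B : List ℕ) (x z : ℕ) (hz : z ∈ p ∨ z ∈ q) :
    RR β (p ++ (P 1 x ++ ((hp n A ++ z :: hp n B) ++ (P 1 x ++ q))))
      (p ++ (P (n + 1) x ++ ((hp n A ++ z :: hp n B) ++ (P (n + 1) x ++ q)))) := by
  obtain ⟨k, hk⟩ : ∃ k, 2 * n = k + 1 := ⟨2 * n - 1, by omega⟩
  rcases hz with hz | hz
  · obtain ⟨p1, p2, rfl⟩ := List.append_of_mem hz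
    have key : ∀ j, RR β ((p1 ++ z :: p2) ++ (P j x ++ ((hp n A ++ z :: hp n B) ++ (P j x ++ q))))
        ((p1 ++ pwd k (hp n A)) ++ ((hp n A ++ z :: hp n B) ++ ((pwd k (hp n B) ++ p2) ++
          (P j x ++ ((hp n A ++ z :: hp n B) ++ (P j x ++ q)))))) := by
      intro j
      have a1 := in_l hq ap hn hC A p1 (z :: (p2 ++ P j x)) (z :: (hp n B ++ (P j x ++ q)))
      have a2 := in_l hq ap hn hC B (p1 ++ (pwd (2 * n) (hp n A) ++ [z]))
        (p2 ++ (P j x ++ (hp n A ++ [z]))) (P j x ++ q)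
      have e1 : pwd (2 * n) (hp n A) = pwd k (hp n A) ++ hp n A := by rw [hk, pw_r]
      have e2 : pwd (2 * n) (hp n B) = hp n B ++ pwd k (hp n B) := by rw [hk]; rfl
      rw [e1] at a1 a2
      rw [e2] at a2
      simp only [List.append_assoc, List.cons_append, List.nil_append] at a1 a2 ⊢
      exact tr a1 a2
    exact tr (key 1) (tr (b1_l h _ _ _ _ _) (key (n + 1)).symm)
  · obtain ⟨q1, q2, rfl⟩ := List.append_of_mem hz
    have key : ∀ j, RR β (p ++ (P j x ++ ((hp n A ++ z :: hp n B) ++ (P j x ++ (q1 ++ z :: q2)))))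
        (p ++ (P j x ++ ((hp n A ++ z :: hp n B) ++ (P j x ++ ((q1 ++ pwd k (hp n A)) ++
          ((hp n A ++ z :: hp n B) ++ (pwd k (hp n B) ++ q2))))))) := by
      intro j
      have a1 := in_r hq ap hn hC A (p ++ P j x) (z :: (hp n B ++ (P j x ++ q1))) (z :: q2)
      have a2 := in_r hq ap hn hC B (p ++ (P j x ++ (hp n A ++ [z])))
        (P j x ++ (q1 ++ (pwd (2 * n) (hp n A) ++ [z]))) q2
      have e1 : pwd (2 * n) (hp n A) = pwd k (hp n A) ++ hp n A := by rw [hk, pw_r]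
      have e2 : pwd (2 * n) (hp n B) = hp n B ++ pwd k (hp n B) := by rw [hk]; rfl
      rw [e1] at a1 a2
      rw [e2] at a2
      simp only [List.append_assoc, List.cons_append, List.nil_append] at a1 a2 ⊢
      exact tr a1 a2
    exact tr (key 1) (tr (b1_r h _ _ _ _ _) (key (n + 1)).symm)

end Pool.Agent.Helper96_MWQ
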