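import Pool.Agent.Helper96_MWQ.Stmts

/-!
# Row CVA of block MWTQ: the image of the main block of the pattern is in block `0`
-/

set_option autoImplicit false

namespace Pool.Agent.MWTQ.H19

open Pool.Agent.Helper14_MV Pool.Agent.Helper2_MV Pool.Agent.MVD Pool.Agent.MWTQ

theorem count_flatMap_ge (f : ℕ → List ℕ) (c a : ℕ) : ∀ l : List ℕ,
    l.count c * (f c).count a ≤ (l.flatMap f).count a
  | [] => by simp
  | b :: l => by
    have ih := count_flatMap_ge f c a l
    rw [List.flatMap_cons, List.count_append]
    by_cases hb : b = c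
    · subst hb
      rw [List.count_cons_self, Nat.add_mul]
      omega
    · rw [List.count_cons_of_ne hb]
      omega

/-- a separator occurs at most once -/
theorem count_sep {B : ℕ → List ℕ} (hB : ∀ r, SFr (B r)) (q : ℕ) : ∀ R : List ℕ,
    (Bw R B).count (3 * q + 2) = R.count q
  | [] => rfl
  | r :: R => by
    have e1 : Bw (r :: R) B = B r ++ [3 * r + 2] ++ Bw R B := rfl
    have e2 : (B r).count (3 * q + 2) = 0 := by
      rw [List.count_eq_zero]
      intro h
      exact hB r _ h (by omega)
    rw [e1, List.count_append, List.count_append, e2, count_sep hB q R]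
    by_cases h : r = q
    · subst h
      rw [List.count_singleton_self, List.count_cons_self]
      omega
    · rw [List.count_cons_of_ne h]
      have e3 : [3 * r + 2].count (3 * q + 2) = 0 := by
        rw [List.count_eq_zero, List.mem_singleton]
        omega
      omega

theorem cva (h1 : PerStmt) (h2 : LwcStmt) : CvaStmt := by
  intro n m R c E B t a b M N φ e hC hn ha hb hR hT heq hE he
  obtain ⟨-, -, p3, -⟩ := h1 m R hR
  obtain ⟨l1, l2, l3, l4, -, -, -⟩ := h2 n m a b c hC hn ha hb
  -- letters of the main block are multiple in the pattern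
  have hB : Ww R c a b = Bw (R7 R) (fun r => if r = 0 then Lw a b c else pl0 r) := rfl
  obtain ⟨R1, R2, hRR⟩ := List.append_of_mem hT.z
  have hnd := hT.nd
  have hsplit : Ww R c a b = Bw R1 (fun r => if r = 0 then Lw a b c else pl0 r) ++
      (Lw a b c ++ (2 :: Bw R2 (fun r => if r = 0 then Lw a b c else pl0 r))) := by
    rw [hB, hRR]
    unfold Bw
    rw [List.flatMap_append, List.flatMap_cons]
    simp only [↓reduceIte, List.append_assoc, List.cons_append, List.nil_append, Nat.mul_zero,
      Nat.zero_add]
  have htwo : ∀ s ∈ Lw a b c, 2 ≤ (Ww R c a b).count s := by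
    intro s hs
    rcases Nat.lt_or_ge (s % 3) 1 with h0 | h0
    · have := l4 s hs (by omega)
      rw [hsplit, List.count_append, List.count_append]
      omega
    · have hs1 : s % 3 = 1 := by
        have := l3 s hs
        omega
      obtain ⟨d, hd, rfl⟩ := l2 s hs hs1
      have e1 := l1 d hd
      have e2 : d + 1 ∈ R7 R := p3 d hd
      have hd0 : d + 1 ≠ 0 := by omega
      have e3 : ∀ R' : List ℕ, d + 1 ∈ R' →
          1 ≤ (Bw R' (fun r => if r = 0 then Lw a b c else pl0 r)).count (3 * d + 1) := by
        intro R' hR'
        rw [Nat.one_le_iff_ne_zero, ← Nat.pos_iff_ne_zero, List.count_pos_iff]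
        unfold Bw
        rw [List.mem_flatMap]
        refine ⟨d + 1, hR', List.mem_append_left _ ?_⟩
        show 3 * d + 1 ∈ (if d + 1 = 0 then Lw a b c else pl0 (d + 1))
        rw [if_neg hd0]
        unfold pl0
        rw [Nat.add_sub_cancel]
        exact List.mem_singleton.mpr rfl
      rw [hRR] at e2
      rw [hsplit, List.count_append, List.count_append, List.count_cons]
      rcases List.mem_append.mp e2 with h | h
      · have := e3 R1 h
        omega
      · rcases List.mem_cons.mp h with h | h
        · exact absurd h hd0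
        · have := e3 R2 h
          omega
  have hsf : ∀ s ∈ Lw a b c, SFr (φ s) := by
    intro s hs z hz hz2
    have hzq : z = 3 * (z / 3) + 2 := by omega
    have e1 := count_flatMap_ge φ s z (Ww R c a b)
    have e2 := htwo s hs
    have e3 : 1 ≤ (φ s).count z := List.count_pos_iff.mpr hz
    have e4 : 2 * 1 ≤ (Ww R c a b).count s * (φ s).count z := Nat.mul_le_mul e2 e3
    have e5 : (M ++ ((Ww R c a b).flatMap φ ++ N)).count z = (Bw (R7 R) B ++ t).count z := by
      rw [heq]
    rw [List.count_append, List.count_append, List.count_append] at e5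
    have e6 : t.count z = 0 := by
      rw [List.count_eq_zero]
      intro h
      exact hT.se _ h hz2
    have e7 : (Bw (R7 R) B).count z ≤ 1 := by
      rw [hzq, count_sep hT.sf]
      exact List.nodup_iff_count_le_one.mp hnd _
    omega
  refine ⟨?_, hsf⟩
  have hF : SFr ((Lw a b c).flatMap φ) := by
    intro z hz
    obtain ⟨s, hs, hzs⟩ := List.mem_flatMap.mp hz
    exact hsf s hs z hzs
  have hF0 : (Lw a b c).flatMap φ ≠ [] := by
    intro h
    rw [h] at he
    exact absurd he List.not_mem_nil
  have heq' : Bw (R7 R) B ++ t =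
      (M ++ (Bw R1 (fun r => if r = 0 then Lw a b c else pl0 r)).flatMap φ) ++
        ((Lw a b c).flatMap φ ++
          ((2 :: Bw R2 (fun r => if r = 0 then Lw a b c else pl0 r)).flatMap φ ++ N)) := by
    rw [← heq, hsplit, List.flatMap_append, List.flatMap_append]
    simp only [List.append_assoc]
  rcases Pool.Agent.MWE.H10.fce (R7 R) B t _ _ _ (fun r _ => hT.sf r) hF hF0 heq' with
    ⟨R1', r, R2', a', c', hr1, hr2, -, -⟩ | ⟨a', c', ht, -, -⟩
  · have hr0 : r = 0 := by
      by_contra hr0
      apply hT.tb e hE r (by rw [hr1]; exact List.mem_append_right _ List.mem_cons_self) hr0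
      rw [hr2]
      exact List.mem_append_right _ (List.mem_append_left _ he)
    subst hr0
    exact ⟨a', c', hr2⟩
  · exfalso
    apply hT.te e hE
    rw [ht]
    exact List.mem_append_right _ (List.mem_append_left _ he)

end Pool.Agent.MWTQ.H19
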