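import Pool.Agent.Helper96_MWQ.H23_STB

/-!
MWTQ, row STY: a step with `y` keeps `Ky`.
-/

set_option autoImplicit false

namespace Pool.Agent.MWTQ.H23

open Pool.Agent.Helper14_MV Pool.Agent.Helper2_MV Pool.Agent.MVD Pool.Agent.MWTQ

/-- **STY**. -/
theorem sty (tgw : TgwStmt) (kpj : KpjStmt) (cvy : CvyStmt) (swx : SwxStmt) (nsl : NslStmt)
    (pwx : PwxStmt) : StyStmt := by
  intro n β m R c a a' M N φ hS ha ha' hKy
  have hn : 1 ≤ n := hS.wo.hn
  have ha1 : 1 ≤ a := by rcases ha with h | h <;> omega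
  obtain ⟨B, t, hw, hT, hlast⟩ := tgw n β m R c (M ++ ((Ww R c 1 a).flatMap φ ++ N))
    (fun e => e = 0 ∨ e = 3) hS (Or.inr hKy) (fun e he => he.elim Or.inl (fun h =>
      Or.inr (Or.inl h))) ((kpj n β R c _).2 hKy)
  obtain ⟨-, ⟨A, C, D, hA, hC, hD, hWw⟩⟩ := swx n m R c 1 hS.pR hS.cn
  have hne : ∀ e, (e = 0 ∨ e = 3) → e ∉ φ 6 := by
    rcases ha with h | h
    · subst h
      exact cvy n m R c (fun e => e = 0 ∨ e = 3) B t M N φ hS.cn hn hS.m1 hS.pR hT hw
        (fun e => Iff.rfl)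
    · intro e he hcon
      have he3 : e % 3 = 0 := by rcases he with h | h <;> omega
      have c1 := cntP φ e 6 hcon a
      have c2 : 2 * a ≤ (M ++ ((Ww R c 1 a).flatMap φ ++ N)).count e := by
        rw [hWw a]
        simp only [List.flatMap_append, List.count_append]
        omega
      rw [hw, List.count_append, List.count_eq_zero.2 (hT.te e he)] at c2
      have c3 := cntB B e he3 (R7 R) hT.nd (hT.tb e he)
      have c4 := hT.tw e he
      omega
  have hns := (nsl n m R c (fun e => e = 0 ∨ e = 3) B t 1 a M N φ hS.cn hn (by omega) ha1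
    hS.pR hT hw).2
  have hloc : ∀ s ∈ φ 6, s = 6 ∨ (s % 3 = 0 ∧ 42 ≤ s) := by
    intro s hs
    have hsw : s ∈ Bw (R7 R) B ++ t := by
      rw [← hw, hWw a]
      apply List.mem_append_right
      apply List.mem_append_left
      refine List.mem_flatMap.2 ⟨6, ?_, hs⟩
      apply List.mem_append_right
      apply List.mem_append_left
      have : a = (a - 1) + 1 := by omega
      rw [this]
      exact SFr_P _ _
    rcases hlast s hsw (hns s hs) with h | h | h | h
    · exact absurd (h ▸ hs) (hne 0 (Or.inl rfl))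
    · exact absurd (h ▸ hs) (hne 3 (Or.inr rfl))
    · exact Or.inl h
    · exact Or.inr ⟨hns s hs, h⟩
  exact β.trans hKy ((pwx n β m R c a a' 1 M N φ hS.wo hS.pR hS.cn ha ha').2 6 hloc)

end Pool.Agent.MWTQ.H23
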