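import Pool.Agent.Helper96_MWQ.Stmts

/-!
# MWTQ, row PJB: the projection of a word given by blocks
-/

set_option autoImplicit false

namespace Pool.Agent.MWTQ.H27

open Pool.Agent.Helper14_MV Pool.Agent.Helper2_MV Pool.Agent.MVD Pool.Agent.MWTQ

theorem pj_sep (e f : ℕ) (κ : ℕ → ℕ) (r : ℕ) : pj e f κ (3 * r + 2) = [3 * r + 2] := by
  unfold pj
  rw [if_neg (by omega), if_neg (by omega)]

theorem pj_light (e f : ℕ) (κ : ℕ → ℕ) (r : ℕ) : (pl0 r).flatMap (pj e f κ) = plk κ r := by
  unfold pl0
  rw [List.flatMap_cons, List.flatMap_nil, List.append_nil]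
  unfold pj plk
  have h1 : (3 * (r - 1) + 1) / 21 = (r - 1) / 7 := by omega
  have h2 : (3 * (r - 1) + 1) / 3 % 7 = (r - 1) % 7 := by omega
  rw [if_neg (by omega), if_pos (by omega), h1, h2]

theorem bw_flat (e f : ℕ) (κ : ℕ → ℕ) (B : ℕ → List ℕ) : ∀ R : List ℕ,
    (Bw R B).flatMap (pj e f κ) = Bw R (fun r => (B r).flatMap (pj e f κ)) := by
  intro R
  unfold Bw
  induction R with
  | nil => rfl
  | cons r R ih =>
    rw [List.flatMap_cons, List.flatMap_append, ih, List.flatMap_cons, List.flatMap_append]
    have h : ([3 * r + 2] : List ℕ).flatMap (pj e f κ) = [3 * r + 2] := by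
      rw [List.flatMap_cons, List.flatMap_nil, List.append_nil, pj_sep]
    rw [h]

theorem pj_free (e f : ℕ) (κ : ℕ → ℕ) {a : ℕ} (ha : a % 3 ≠ 2) : SFr (pj e f κ a) := by
  unfold pj
  by_cases h0 : a % 3 = 0
  · rw [if_pos h0]
    by_cases h42 : a < 42
    · rw [if_pos h42]
      by_cases he : a = e
      · rw [if_pos he]
        intro c hc
        rw [List.mem_singleton] at hc
        omega
      · rw [if_neg he]
        by_cases hf : a = f
        · rw [if_pos hf]
          intro c hc
          rw [List.mem_singleton] at hc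
          omega
        · rw [if_neg hf]
          intro c hc
          exact absurd hc (List.not_mem_nil)
    · rw [if_neg h42]
      by_cases hk : κ (3 * (a / 21)) = a / 3 % 7
      · rw [if_pos hk]
        intro c hc
        rw [List.mem_singleton] at hc
        omega
      · rw [if_neg hk]
        intro c hc
        exact absurd hc (List.not_mem_nil)
  · rw [if_neg h0]
    have h1 : a % 3 = 1 := by omega
    rw [if_pos h1]
    by_cases hk : κ (3 * (a / 21) + 1) = a / 3 % 7
    · rw [if_pos hk]
      intro c hc
      rw [List.mem_singleton] at hc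
      omega
    · rw [if_neg hk]
      intro c hc
      exact absurd hc (List.not_mem_nil)

theorem pjb : PjbStmt := by
  intro e f κ
  refine ⟨?_, ?_, ?_⟩
  · intro R B t
    rw [List.flatMap_append, bw_flat]
  · intro l hl c hc
    obtain ⟨a, ha, hac⟩ := List.mem_flatMap.1 hc
    exact pj_free e f κ (hl a ha) c hac
  · intro R L
    unfold Bp
    rw [bw_flat]
    have h : (fun r => (if r = 0 then L else pl0 r).flatMap (pj e f κ)) =
        (fun r => if r = 0 then L.flatMap (pj e f κ) else plk κ r) := by
      funext r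
      by_cases hr : r = 0
      · rw [if_pos hr, if_pos hr]
      · rw [if_neg hr, if_neg hr, pj_light]
    rw [h]

end Pool.Agent.MWTQ.H27
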