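import Pool.Agent.Helper96_MWQ.Stmts

/-!
# Row CVB (MP_23468a_al, squad MWTQ)

The images of the letters of the pattern.
-/

set_option autoImplicit false

namespace Pool.Agent.MWTQ.H28

open Pool.Agent.Helper14_MV Pool.Agent.Helper2_MV Pool.Agent.MVD Pool.Agent.MWTQ

theorem bw_cons (r : ℕ) (R : List ℕ) (B : ℕ → List ℕ) :
    Bw (r :: R) B = B r ++ (3 * r + 2) :: Bw R B := by
  simp [Bw]

theorem bw_app (R R' : List ℕ) (B : ℕ → List ℕ) : Bw (R ++ R') B = Bw R B ++ Bw R' B := by
  simp [Bw]

theorem bw_mem {R : List ℕ} {B : ℕ → List ℕ} {r : ℕ} (h : r ∈ R) :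
    ∃ Y1 Y2, Bw R B = Y1 ++ (B r ++ Y2) := by
  obtain ⟨R1, R2, rfl⟩ := List.append_of_mem h
  refine ⟨Bw R1 B, (3 * r + 2) :: Bw R2 B, ?_⟩
  rw [bw_app, bw_cons]

theorem bw_congr {R : List ℕ} {B B' : ℕ → List ℕ} (h : ∀ r ∈ R, B r = B' r) : Bw R B = Bw R B' := by
  induction R with
  | nil => rfl
  | cons r R ih =>
    rw [bw_cons, bw_cons, h r List.mem_cons_self, ih (fun s hs => h s (List.mem_cons_of_mem _ hs))]

theorem nl_le {l : List ℕ} {z : ℕ} (h : ∀ a ∈ l, a % 3 = 1 → a = z) (hc : l.count z ≤ 1) :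
    nl l ≤ 1 := by
  have h1 : ∀ l : List ℕ, (∀ a ∈ l, a % 3 = 1 → a = z) → nl l ≤ l.count z := by
    intro l
    induction l with
    | nil => intro _; simp [nl]
    | cons a l ih =>
      intro h
      have h2 := ih (fun b hb => h b (List.mem_cons_of_mem _ hb))
      by_cases ha : a % 3 = 1
      · have h3 := h a List.mem_cons_self ha
        subst h3
        rw [List.count_cons_self]
        unfold nl at h2 ⊢
        rw [List.filter_cons_of_pos (by simpa using ha), List.length_cons]
        omega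
      · have h4 : nl (a :: l) = nl l := by
          unfold nl
          rw [List.filter_cons_of_neg (by simpa using ha)]
        rw [h4]
        exact h2.trans (List.count_le_count_cons)
  exact (h1 l h).trans hc

theorem nl_pos {l : List ℕ} (h : nl l ≠ 0) : ∃ z ∈ l, z % 3 = 1 := by
  unfold nl at h
  have h1 : l.filter (fun a => decide (a % 3 = 1)) ≠ [] := fun h2 => h (by rw [h2]; rfl)
  obtain ⟨z, hz⟩ := List.exists_mem_of_ne_nil _ h1
  rw [List.mem_filter] at hz
  exact ⟨z, hz.1, by simpa using hz.2⟩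

theorem count_two {z : ℕ} {α L ω : List ℕ} (h : z ∈ L) (h' : z ∈ α ∨ z ∈ ω) :
    2 ≤ (α ++ (L ++ ω)).count z := by
  rw [List.count_append, List.count_append]
  have h1 := List.count_pos_iff.2 h
  rcases h' with h' | h'
  · have := List.count_pos_iff.2 h'
    omega
  · have := List.count_pos_iff.2 h'
    omega

theorem count_fm (φ : ℕ → List ℕ) {z s : ℕ} (hz : z ∈ φ s) (l : List ℕ) :
    l.count s ≤ (l.flatMap φ).count z := by
  induction l with
  | nil => simp
  | cons a l ih =>
    rw [List.flatMap_cons, List.count_append, List.count_cons]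
    have h1 := List.count_pos_iff.2 hz
    split
    · rename_i h
      have h2 : a = s := by simpa using h
      subst h2
      omega
    · omega

/-- the image of a place with a light letter is in a block different from `0` -/
theorem place {n m : ℕ} {R c : List ℕ} {E : ℕ → Prop} {B : ℕ → List ℕ} {t : List ℕ} {a b : ℕ}
    {M N : List ℕ} {φ : ℕ → List ℕ} {e : ℕ} (hper : PerStmt) (hcva : CvaStmt)
    (hcn : Cn n m c) (hn : 1 ≤ n) (ha : 1 ≤ a) (hb : 1 ≤ b) (hR : R.Perm (List.range (m + 1)))
    (tg : Tg m (R7 R) E B t)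
    (heq : M ++ ((Ww R c a b).flatMap φ ++ N) = Bw (R7 R) B ++ t) (hE : E e)
    (he : e ∈ (Lw a b c).flatMap φ) {d : ℕ} (hd : d < 7 * m) (hs : 3 * d + 1 ∈ Lw a b c) {z : ℕ}
    (hz : z ∈ φ (3 * d + 1)) (hz1 : z % 3 = 1) :
    ∃ r ∈ R7 R, r ≠ 0 ∧ ∃ x y, B r = x ++ (φ (3 * d + 1) ++ y) := by
  obtain ⟨p1, p2, p3, p4⟩ := hper m R hR
  have hsf := (hcva n m R c E B t a b M N φ e hcn hn ha hb hR tg heq hE he).2
  have hL : SFr ((Lw a b c).flatMap φ) := by
    intro x hx
    obtain ⟨s, hs, hx⟩ := List.mem_flatMap.1 hx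
    exact hsf s hs x hx
  have hne : (Lw a b c).flatMap φ ≠ [] := List.ne_nil_of_mem he
  have hzL : z ∈ (Lw a b c).flatMap φ := List.mem_flatMap.2 ⟨_, hs, hz⟩
  set B2 : ℕ → List ℕ := fun r => if r = 0 then Lw a b c else pl0 r with hB2
  have hW : Ww R c a b = Bw (R7 R) B2 := rfl
  have hB0 : B2 0 = Lw a b c := rfl
  have hBd : B2 (d + 1) = [3 * d + 1] := by
    simp [hB2, pl0]
  obtain ⟨R1, R2, hR7⟩ := List.append_of_mem p2
  have hdm : d + 1 ∈ R1 ∨ d + 1 ∈ R2 := by
    have h1 := p3 d hd
    rw [hR7, List.mem_append, List.mem_cons] at h1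
    rcases h1 with h1 | h1 | h1
    · exact Or.inl h1
    · omega
    · exact Or.inr h1
  have hw : (M ++ (Bw R1 B2).flatMap φ) ++ ((Lw a b c).flatMap φ ++
      (φ 2 ++ ((Bw R2 B2).flatMap φ ++ N))) = Bw (R7 R) B ++ t := by
    rw [← heq, hW, hR7, bw_app, bw_cons, hB0]
    simp only [List.flatMap_append, List.flatMap_cons, List.append_assoc, Nat.mul_zero,
      Nat.zero_add]
  have hsfB : ∀ r ∈ R7 R, SFr (B r) := fun r _ => tg.sf r
  have hFne : φ (3 * d + 1) ≠ [] := List.ne_nil_of_mem hz
  have hFsf : SFr (φ (3 * d + 1)) := hsf _ hs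
  rcases Pool.Agent.MWE.H10.fce (R7 R) B t _ _ _ hsfB hL hne hw.symm with
    ⟨Q1, r, Q2, α, ω, h1, h2, h3, h4⟩ | ⟨α, ω, h1, -, -⟩
  swap
  · exact absurd (h1 ▸ List.mem_append_right _ (List.mem_append_left _ he)) (tg.te e hE)
  have hr7 : r ∈ R7 R := by rw [h1]; simp
  have hr : r = 0 := by
    by_contra hr
    exact tg.tb e hE r hr7 hr (h2 ▸ List.mem_append_right _ (List.mem_append_left _ he))
  subst hr
  have hnd : (Q1 ++ 0 :: Q2).Nodup := h1 ▸ p1
  have h01 : 0 ∉ Q1 := by
    intro h
    have := List.nodup_append.1 hnd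
    exact this.2.2 0 h 0 List.mem_cons_self rfl
  have h02 : 0 ∉ Q2 := by
    have := (List.nodup_append.1 hnd).2.1
    exact (List.nodup_cons.1 this).1
  have hcz : (B 0).count z ≤ 1 := by
    obtain ⟨b', hb', rfl⟩ := tg.cn z (by
      apply List.mem_append_left
      obtain ⟨Y1, Y2, hY⟩ := bw_mem (B := B) p2
      rw [hY, h2]
      simp only [List.mem_append]
      exact Or.inr (Or.inl (Or.inr (Or.inl hzL)))) hz1
    have := tg.li b' hb' 0 p2
    rw [this]
    split <;> omega
  have hza : z ∉ α := by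
    intro h
    have := count_two (ω := ω) hzL (Or.inl h)
    rw [← h2] at this
    omega
  have hzo : z ∉ ω := by
    intro h
    have := count_two (α := α) hzL (Or.inr h)
    rw [← h2] at this
    omega
  have hzt : z ∉ t := by
    intro h
    obtain ⟨b', hb', rfl⟩ := tg.cn z (List.mem_append_right _ h) hz1
    exact tg.le b' hb' h
  rcases hdm with hdm | hdm
  · obtain ⟨Y1, Y2, hY⟩ := bw_mem (B := B2) hdm
    have hx : Bw Q1 B ++ α = (M ++ Y1.flatMap φ) ++ (φ (3 * d + 1) ++ Y2.flatMap φ) := by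
      rw [← h3, hY, hBd]
      simp only [List.flatMap_append, List.flatMap_cons, List.append_assoc, List.flatMap_nil,
        List.nil_append]
    rcases Pool.Agent.MWE.H10.fce Q1 B α _ _ _ (fun r _ => tg.sf r) hFsf hFne hx with
      ⟨Z1, r, Z2, x, y, k1, k2, -, -⟩ | ⟨x, y, k1, -, -⟩
    · refine ⟨r, ?_, ?_, x, y, k2⟩
      · rw [h1, k1]; simp
      · rintro rfl
        apply h01
        rw [k1]; simp
    · exact absurd (k1 ▸ List.mem_append_right _ (List.mem_append_left _ hz)) hza
  · obtain ⟨Y1, Y2, hY⟩ := bw_mem (B := B2) hdm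
    set B3 : ℕ → List ℕ := fun r => if r = 0 then ω else B r with hB3
    have hx : Bw (0 :: Q2) B3 ++ t = (φ 2 ++ Y1.flatMap φ) ++ (φ (3 * d + 1) ++
        (Y2.flatMap φ ++ N)) := by
      rw [bw_cons, bw_congr (B' := B) (R := Q2) (fun r hr => by
        have : r ≠ 0 := fun h => h02 (h ▸ hr)
        simp [hB3, this])]
      show (ω ++ (3 * 0 + 2) :: Bw Q2 B) ++ t = _
      rw [List.append_assoc, List.cons_append, ← h4, hY, hBd]
      simp only [List.flatMap_append, List.flatMap_cons, List.append_assoc, List.flatMap_nil,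
        List.nil_append]
    have hsf3 : ∀ r ∈ 0 :: Q2, SFr (B3 r) := by
      intro r _
      by_cases hr : r = 0
      · subst hr
        intro x hx
        have hx' : x ∈ ω := hx
        exact tg.sf 0 x (h2 ▸ List.mem_append_right _ (List.mem_append_right _ hx'))
      · have : B3 r = B r := by simp [hB3, hr]
        rw [this]
        exact tg.sf r
    rcases Pool.Agent.MWE.H10.fce (0 :: Q2) B3 t _ _ _ hsf3 hFsf hFne hx with
      ⟨Z1, r, Z2, x, y, k1, k2, -, -⟩ | ⟨x, y, k1, -, -⟩
    · have hr : r ≠ 0 := by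
        rintro rfl
        have k3 : ω = x ++ (φ (3 * d + 1) ++ y) := k2
        exact absurd (k3 ▸ List.mem_append_right _ (List.mem_append_left _ hz)) hzo
      refine ⟨r, ?_, hr, x, y, ?_⟩
      · have : r ∈ 0 :: Q2 := by rw [k1]; simp
        rw [h1]
        rw [List.mem_append]
        exact Or.inr this
      · have : B3 r = B r := by simp [hB3, hr]
        rw [← this]
        exact k2
    · exact absurd (k1 ▸ List.mem_append_right _ (List.mem_append_left _ hz)) hzt

theorem cvb (hper : PerStmt) (hlwc : LwcStmt) (hcva : CvaStmt) : CvbStmt := by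
  intro n m R c E B t a b M N φ e hcn hn ha hb hR tg heq hE he
  obtain ⟨p1, p2, p3, p4⟩ := hper m R hR
  obtain ⟨l1, l2, l3, l4, l5, l6, l7⟩ := hlwc n m a b c hcn hn ha hb
  obtain ⟨⟨α, ω, h0⟩, hsf⟩ := hcva n m R c E B t a b M N φ e hcn hn ha hb hR tg heq hE he
  constructor
  · intro s hs hs0
    by_contra hnl
    obtain ⟨z, hz, hz1⟩ := nl_pos hnl
    have h1 : 2 ≤ ((Lw a b c).flatMap φ).count z := (l4 s hs hs0).trans (count_fm φ hz _)
    have h2 : ((Lw a b c).flatMap φ).count z ≤ (B 0).count z := by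
      rw [h0, List.count_append, List.count_append]
      omega
    have h3 : z ∈ B 0 := List.count_pos_iff.1 (by omega)
    obtain ⟨b', hb', rfl⟩ := tg.cn z (by
      apply List.mem_append_left
      obtain ⟨Y1, Y2, hY⟩ := bw_mem (B := B) p2
      rw [hY]
      simp only [List.mem_append]
      exact Or.inr (Or.inl h3)) hz1
    have h4 := tg.li b' hb' 0 p2
    rw [if_pos (Or.inl rfl)] at h4
    omega
  · intro s hs hs1
    obtain ⟨d, hd, rfl⟩ := l2 s hs hs1
    by_cases hnl : nl (φ (3 * d + 1)) = 0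
    · exact ⟨by omega, fun h => by omega⟩
    obtain ⟨z, hz, hz1⟩ := nl_pos hnl
    obtain ⟨r, hr7, hr, x, y, hB⟩ := place hper hcva hcn hn ha hb hR tg heq hE he hd hs hz hz1
    constructor
    · refine nl_le (z := 3 * (r - 1) + 1) ?_ ?_
      · intro u hu hu1
        have h1 : u ∈ B r := hB ▸ List.mem_append_right _ (List.mem_append_left _ hu)
        obtain ⟨b', hb', rfl⟩ := tg.cn u (by
          apply List.mem_append_left
          obtain ⟨Y1, Y2, hY⟩ := bw_mem (B := B) hr7
          rw [hY]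
          simp only [List.mem_append]
          exact Or.inr (Or.inl h1)) hu1
        have h2 := tg.li b' hb' r hr7
        have h3 := List.count_pos_iff.2 h1
        rw [h2] at h3
        have h4 : r = 0 ∨ r = b' + 1 := by
          by_contra h5
          rw [if_neg h5] at h3
          omega
        rcases h4 with h4 | h4
        · exact absurd h4 hr
        · omega
      · have h1 : (φ (3 * d + 1)).count (3 * (r - 1) + 1) ≤ (B r).count (3 * (r - 1) + 1) := by
          rw [hB, List.count_append, List.count_append]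
          omega
        refine h1.trans ?_
        by_cases h2 : 3 * (r - 1) + 1 ∈ B r
        · obtain ⟨b', hb', h3⟩ := tg.cn (3 * (r - 1) + 1) (by
            apply List.mem_append_left
            obtain ⟨Y1, Y2, hY⟩ := bw_mem (B := B) hr7
            rw [hY]
            simp only [List.mem_append]
            exact Or.inr (Or.inl h2)) (by omega)
          have h4 := tg.li b' hb' r hr7
          rw [h3, h4]
          split <;> omega
        · rw [List.count_eq_zero.2 h2]
          omega
    · intro _ f hf hfm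
      exact tg.tb f hf r hr7 hr (hB ▸ List.mem_append_right _ (List.mem_append_left _ hfm))

end Pool.Agent.MWTQ.H28
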