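import Pool.Agent.Helper96_MWQ.Stmts

/-!
# MWTQ row NLF: light letters of images
-/

set_option autoImplicit false

namespace Pool.Agent.MWTQ.H2

open Pool.Agent.Helper14_MV Pool.Agent.Helper2_MV Pool.Agent.MVD Pool.Agent.MWTQ

theorem nl_append (a b : List ℕ) : nl (a ++ b) = nl a + nl b := by
  unfold nl
  rw [List.filter_append, List.length_append]

theorem nl_cons_light {s : ℕ} (hs : s % 3 = 1) (l : List ℕ) : nl (s :: l) = 1 + nl l := by
  unfold nl
  rw [List.filter_cons_of_pos (by simpa using hs), List.length_cons]
  omega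

theorem nl_cons_not {s : ℕ} (hs : s % 3 ≠ 1) (l : List ℕ) : nl (s :: l) = nl l := by
  unfold nl
  rw [List.filter_cons_of_neg (by simpa using hs)]

theorem nlf : NlfStmt := by
  intro φ l
  induction l with
  | nil =>
    intro _ _ _
    exact ⟨le_refl _, fun _ s hs => by simp at hs⟩
  | cons s l ih =>
    intro h2 h0 h1
    obtain ⟨i1, i2⟩ := ih (fun t ht => h2 t (List.mem_cons_of_mem _ ht))
      (fun t ht => h0 t (List.mem_cons_of_mem _ ht)) (fun t ht => h1 t (List.mem_cons_of_mem _ ht))
    rw [List.flatMap_cons, nl_append]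
    by_cases hs : s % 3 = 1
    · have k1 := h1 s (by simp) hs
      rw [nl_cons_light hs]
      refine ⟨by omega, fun he t ht ht1 => ?_⟩
      rcases List.mem_cons.1 ht with rfl | ht
      · omega
      · exact i2 (by omega) t ht ht1
    · have hs0 : s % 3 = 0 := by
        have := h2 s (by simp)
        omega
      have k1 := h0 s (by simp) hs0
      rw [nl_cons_not hs]
      refine ⟨by omega, fun he t ht ht1 => ?_⟩
      rcases List.mem_cons.1 ht with rfl | ht
      · exact absurd ht1 hs
      · exact i2 (by omega) t ht ht1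

end Pool.Agent.MWTQ.H2
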