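import Pool.Agent.Helper96_MWQ.Stmts

/-!
# MWTQ row NSL: the images of `x` and `y` have no separators and no light letters
-/

set_option autoImplicit false

namespace Pool.Agent.MWTQ.H36

open Pool.Agent.Helper14_MV Pool.Agent.Helper2_MV Pool.Agent.MVD Pool.Agent.MWTQ

theorem count_flatMap_ge (φ : ℕ → List ℕ) (s z : ℕ) : ∀ l : List ℕ,
    l.count s * (φ s).count z ≤ (l.flatMap φ).count z
  | [] => by simp
  | a :: l => by
    have ih := count_flatMap_ge φ s z l
    rw [List.flatMap_cons, List.count_append]
    by_cases h : a = s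
    · subst h
      rw [List.count_cons_self, Nat.succ_mul]
      omega
    · rw [List.count_cons_of_ne h]
      omega

theorem mem_sfr {l : List ℕ} (h : SFr l) {a : ℕ} (ha : a % 3 = 2) : a ∉ l :=
  fun hm => h a hm ha

/-- a separator occurs at most once in a word given by blocks -/
theorem sep_once {B : ℕ → List ℕ} (hB : ∀ r, SFr (B r)) {z : ℕ} (hz : z % 3 = 2) :
    ∀ {R : List ℕ}, R.Nodup → (Bw R B).count z ≤ 1
  | [], _ => by simp [Bw]
  | r :: R, hR => by
    obtain ⟨h1, h2⟩ := List.nodup_cons.1 hR
    have ih := sep_once hB hz h2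
    have e : Bw (r :: R) B = B r ++ ((3 * r + 2) :: Bw R B) := by
      simp [Bw]
    rw [e, List.count_append, List.count_eq_zero_of_not_mem (mem_sfr (hB r) hz)]
    by_cases h : 3 * r + 2 = z
    · have h0 : z ∉ Bw R B := by
        intro hm
        unfold Bw at hm
        rw [List.mem_flatMap] at hm
        obtain ⟨s, hs, hm⟩ := hm
        rcases List.mem_append.1 hm with h' | h'
        · exact mem_sfr (hB s) hz h'
        · have : z = 3 * s + 2 := by simpa using h'
          have : s = r := by omega
          exact h1 (this ▸ hs)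
      rw [h, List.count_cons_self, List.count_eq_zero_of_not_mem h0]
    · rw [List.count_cons_of_ne h]
      omega

theorem bw_append (R1 R2 : List ℕ) (B : ℕ → List ℕ) : Bw (R1 ++ R2) B = Bw R1 B ++ Bw R2 B := by
  unfold Bw
  rw [List.flatMap_append]

theorem bw_cons (r : ℕ) (R : List ℕ) (B : ℕ → List ℕ) :
    Bw (r :: R) B = B r ++ ((3 * r + 2) :: Bw R B) := by
  simp [Bw]

/-- the main block is a factor of the big word, and the place of every light letter is outside -/
theorem ww_split {m : ℕ} {R c : List ℕ} {a b : ℕ} (hPER : PerStmt)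
    (hR : R.Perm (List.range (m + 1))) : ∃ X Y : List ℕ, Ww R c a b = X ++ (Lw a b c ++ Y) ∧
      ∀ d < 7 * m, 3 * d + 1 ∈ X ++ Y := by
  obtain ⟨hnd, h0, hb, _⟩ := hPER m R hR
  obtain ⟨R1, R2, hR12⟩ := List.append_of_mem h0
  have hn0 : 0 ∉ R1 ++ R2 := by
    rw [hR12] at hnd
    exact (List.nodup_cons.1 (List.nodup_middle.1 hnd)).1
  refine ⟨Bw R1 (fun r => if r = 0 then Lw a b c else pl0 r),
    (3 * 0 + 2) :: Bw R2 (fun r => if r = 0 then Lw a b c else pl0 r), ?_, ?_⟩
  · unfold Ww Bp
    rw [hR12, bw_append, bw_cons, if_pos rfl]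
  · intro d hd
    have hm := hb d hd
    rw [hR12] at hm
    have hm' : d + 1 ∈ R1 ++ R2 := by
      rcases List.mem_append.1 hm with h | h
      · exact List.mem_append_left _ h
      · rcases List.mem_cons.1 h with h | h
        · omega
        · exact List.mem_append_right _ h
    have key : ∀ R' : List ℕ, d + 1 ∈ R' →
        3 * d + 1 ∈ Bw R' (fun r => if r = 0 then Lw a b c else pl0 r) := by
      intro R' h
      unfold Bw
      rw [List.mem_flatMap]
      refine ⟨d + 1, h, List.mem_append_left _ ?_⟩
      show 3 * d + 1 ∈ if d + 1 = 0 then Lw a b c else pl0 (d + 1)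
      rw [if_neg (by omega)]
      simp [pl0]
    rcases List.mem_append.1 hm' with h | h
    · exact List.mem_append_left _ (key R1 h)
    · exact List.mem_append_right _ (List.mem_cons_of_mem _ (key R2 h))

/-- **NSL** -/
theorem nsl (hPER : PerStmt) (hLWC : LwcStmt) : NslStmt := by
  intro n m R c E B t a b M N φ hc hn ha hb hR hT hw
  obtain ⟨l1, l2, l3, l4, _⟩ := hLWC n m a b c hc hn ha hb
  obtain ⟨X, Y, hXY, hpl⟩ := ww_split (c := c) (a := a) (b := b) hPER hR
  have hfac : Bw (R7 R) B ++ t = (M ++ X.flatMap φ) ++ ((Lw a b c).flatMap φ ++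
      (Y.flatMap φ ++ N)) := by
    rw [← hw, hXY, List.flatMap_append, List.flatMap_append]
    simp only [List.append_assoc]
  -- the images of the letters of the main block have no separators
  have hsf : ∀ s ∈ Lw a b c, SFr (φ s) := by
    intro s hs z hz hz2
    have hcnt : 2 ≤ (X ++ (Lw a b c ++ Y)).count s := by
      rcases (by omega : s % 3 = 0 ∨ s % 3 = 1 ∨ s % 3 = 2) with h | h | h
      · have := l4 s hs h
        simp only [List.count_append]
        omega
      · obtain ⟨d, hd, rfl⟩ := l2 s hs h
        have h1 := l1 d hd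
        have h2 := List.count_pos_iff.2 (hpl d hd)
        simp only [List.count_append] at h2 ⊢
        omega
      · exact absurd h (l3 s hs)
    have h1 := count_flatMap_ge φ s z (X ++ (Lw a b c ++ Y))
    have h2 : 1 ≤ (φ s).count z := List.count_pos_iff.2 hz
    have h3 : 2 ≤ ((X ++ (Lw a b c ++ Y)).flatMap φ).count z :=
      le_trans (le_trans hcnt (Nat.le_mul_of_pos_right _ h2)) h1
    have h4 := sep_once hT.sf hz2 hT.nd
    have h5 := List.count_eq_zero_of_not_mem (mem_sfr hT.se hz2)
    have h6 := congrArg (List.count z) hw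
    rw [hXY] at h6
    simp only [List.count_append] at h6
    omega
  have hI : SFr ((Lw a b c).flatMap φ) := by
    intro z hz
    rw [List.mem_flatMap] at hz
    obtain ⟨s, hs, hz⟩ := hz
    exact hsf s hs z hz
  -- no light letters
  have key : ∀ h : ℕ, h % 3 = 0 → h ∈ Lw a b c → ∀ s ∈ φ h, s % 3 = 0 := by
    intro h hh hhL s hs
    rcases (by omega : s % 3 = 0 ∨ s % 3 = 1 ∨ s % 3 = 2) with h' | h' | h'
    · exact h'
    · exfalso
      have hI2 : 2 ≤ ((Lw a b c).flatMap φ).count s := by
        have h1 := count_flatMap_ge φ h s (Lw a b c)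
        have h2 : 1 ≤ (φ h).count s := List.count_pos_iff.2 hs
        exact le_trans (le_trans (l4 h hhL hh) (Nat.le_mul_of_pos_right _ h2)) h1
      have hne : (Lw a b c).flatMap φ ≠ [] := by
        intro e
        rw [e] at hI2
        simp at hI2
      have hsw : s ∈ Bw (R7 R) B ++ t := by
        rw [hfac]
        refine List.mem_append_right _ (List.mem_append_left _ ?_)
        exact List.count_pos_iff.1 (by omega)
      obtain ⟨b', hb', rfl⟩ := hT.cn s hsw h'
      rcases Pool.Agent.MWE.H10.fce (R7 R) B t _ _ _ (fun r _ => hT.sf r) hI hne hfac with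
        ⟨R1, r, R2, x, y, hR12, hBr, _, _⟩ | ⟨x, y, hx, _, _⟩
      · have hr : r ∈ R7 R := by
          rw [hR12]
          simp
        have h1 := hT.li b' hb' r hr
        rw [hBr] at h1
        simp only [List.count_append] at h1
        split_ifs at h1 <;> omega
      · have h1 := hT.le b' hb'
        apply h1
        rw [hx]
        refine List.mem_append_right _ (List.mem_append_left _ ?_)
        exact List.count_pos_iff.1 (by omega)
    · exact absurd h' (hsf h hhL s hs)
  constructor
  · refine key 0 (by omega) ?_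
    unfold Lw
    obtain ⟨k, rfl⟩ : ∃ k, a = k + 1 := ⟨a - 1, by omega⟩
    simp [P, List.replicate_succ]
  · refine key 6 (by omega) ?_
    unfold Lw
    obtain ⟨k, rfl⟩ : ∃ k, b = k + 1 := ⟨b - 1, by omega⟩
    simp [P, List.replicate_succ]

end Pool.Agent.MWTQ.H36
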