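import Pool.Agent.Helper96_MWQ.Stmts

/-!
# MWTQ, row SPC (MP_23468a_al): the first and the last block of a canonical run
-/

set_option autoImplicit false

namespace Pool.Agent.MWTQ.H62

open Pool.Agent.Helper14_MV Pool.Agent.Helper2_MV Pool.Agent.MVD Pool.Agent.MWTQ

theorem nd_lt {c C : List ℕ} {a : ℕ} (hsub : ∀ b ∈ C, b ∈ c) (ha : a ∈ c) (haC : a ∉ C) :
    nd C < nd c := by
  unfold nd
  apply Finset.card_lt_card
  rw [Finset.ssubset_iff_of_subset (fun b hb => by
    rw [List.mem_toFinset] at hb ⊢
    exact hsub b hb)]
  exact ⟨a, by rwa [List.mem_toFinset], by rwa [List.mem_toFinset]⟩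

theorem spc : SpcStmt := by
  intro n m c hc hm
  have hne : c ≠ [] := by
    rintro rfl
    have := hc.li 0 (by omega)
    simp at this
  constructor
  · obtain ⟨a, c', rfl⟩ := List.exists_cons_of_ne_nil hne
    rcases hc.lo a List.mem_cons_self with ⟨d, hd, rfl⟩ | ⟨h0, _⟩
    · have h1 := hc.li d hd
      rw [List.count_cons_self] at h1
      have h2 : 3 * d + 1 ∉ c' := List.count_eq_zero.1 (by omega)
      refine ⟨[3 * d + 1], c', rfl, ?_, ?_⟩
      · intro b hb
        rw [List.mem_singleton] at hb
        rw [hb]
        exact h2
      · exact nd_lt (fun b hb => List.mem_cons_of_mem _ hb) List.mem_cons_self h2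
    · obtain ⟨A, C, hAC, hA, hC⟩ := hc.bl a List.mem_cons_self h0
      have hA' : A = [] := by
        cases A with
        | nil => rfl
        | cons b A =>
          exfalso
          simp only [List.cons_append, List.cons.injEq] at hAC
          apply hA
          rw [hAC.1]
          exact List.mem_cons_self
      rw [hA', List.nil_append] at hAC
      refine ⟨List.replicate (n + 1) a, C, hAC, ?_, ?_⟩
      · intro b hb
        rw [List.eq_of_mem_replicate hb]
        exact hC
      · exact nd_lt (a := a) (fun b hb => by
          rw [hAC]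
          exact List.mem_append_right _ hb) List.mem_cons_self hC
  · obtain ⟨c', a, rfl⟩ : ∃ c' a, c = c' ++ [a] :=
      ⟨c.dropLast, c.getLast hne, (List.dropLast_append_getLast hne).symm⟩
    have hma : a ∈ c' ++ [a] := by simp
    rcases hc.lo a hma with ⟨d, hd, rfl⟩ | ⟨h0, _⟩
    · have h1 := hc.li d hd
      rw [List.count_append, List.count_singleton_self] at h1
      have h2 : 3 * d + 1 ∉ c' := List.count_eq_zero.1 (by omega)
      refine ⟨c', [3 * d + 1], rfl, ?_, ?_⟩
      · intro b hb
        rw [List.mem_singleton] at hb
        rw [hb]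
        exact h2
      · exact nd_lt (fun b hb => List.mem_append_left _ hb) hma h2
    · obtain ⟨A, C, hAC, hA, hC⟩ := hc.bl a hma h0
      have hC' : C = [] := by
        by_contra hne'
        apply hC
        have h1 := congrArg (fun l => l.getLast?) hAC
        simp only [List.getLast?_concat] at h1
        rw [← List.append_assoc, List.getLast?_append_of_ne_nil _ hne'] at h1
        exact List.mem_of_getLast? h1.symm
      rw [hC', List.append_nil] at hAC
      refine ⟨A, List.replicate (n + 1) a, hAC, ?_, ?_⟩
      · intro b hb
        rw [List.eq_of_mem_replicate hb]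
        exact hA
      · exact nd_lt (a := a) (fun b hb => by
          rw [hAC]
          exact List.mem_append_left _ hb) hma hA

end Pool.Agent.MWTQ.H62
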