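import Pool.Agent.Helper96_MWQ.Stmts

/-!
# Row STX of the table mwt
-/

set_option autoImplicit false

namespace Pool.Agent.MWTQ.H80

open Pool.Agent.Helper14_MV Pool.Agent.Helper2_MV Pool.Agent.MVD Pool.Agent.MWTQ

theorem count_Bw (e : ℕ) (he : e % 3 ≠ 2) (B : ℕ → List ℕ) (R : List ℕ) (hnd : R.Nodup)
    (hb : ∀ r ∈ R, r ≠ 0 → e ∉ B r) :
    (Bw R B).count e ≤ (B 0).count e ∧ (0 ∉ R → (Bw R B).count e = 0) := by
  induction R with
  | nil =>
    unfold Bw
    simp
  | cons r R ih =>
    obtain ⟨ih1, ih2⟩ := ih (List.nodup_cons.1 hnd).2 (fun s hs => hb s (List.mem_cons_of_mem _ hs))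
    have h1 : (Bw (r :: R) B).count e = (B r).count e + (Bw R B).count e := by
      unfold Bw
      rw [List.flatMap_cons, List.count_append, List.count_append]
      have : ([3 * r + 2] : List ℕ).count e = 0 := by
        rw [List.count_eq_zero, List.mem_singleton]
        omega
      omega
    rw [h1]
    by_cases hr : r = 0
    · subst hr
      have h2 := ih2 (List.nodup_cons.1 hnd).1
      refine ⟨by omega, fun h => ?_⟩
      exact absurd List.mem_cons_self h
    · have h3 : (B r).count e = 0 := List.count_eq_zero.2 (hb r List.mem_cons_self hr)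
      refine ⟨by omega, fun h => ?_⟩
      have := ih2 (fun h' => h (List.mem_cons_of_mem _ h'))
      omega

theorem count_rep (φ : ℕ → List ℕ) (h a e : ℕ) :
    ((P a h).flatMap φ).count e = a * (φ h).count e := by
  induction a with
  | zero => simp
  | succ a ih =>
    unfold P at ih ⊢
    rw [List.replicate_succ, List.flatMap_cons, List.count_append, ih]
    ring

theorem cnt4 (φ : ℕ → List ℕ) (h a e : ℕ) (A C D M N : List ℕ) :
    2 * (a * (φ h).count e) ≤
      (M ++ ((A ++ (P a h ++ (C ++ (P a h ++ D)))).flatMap φ ++ N)).count e := by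
  have h1 := count_rep φ h a e
  simp only [List.flatMap_append, List.count_append]
  omega

/-- thick powers do not contain a thin letter -/
theorem thick (m : ℕ) (R : List ℕ) (E : ℕ → Prop) (B : ℕ → List ℕ) (t : List ℕ)
    (hT : Tg m R E B t) (φ : ℕ → List ℕ) (h a e : ℕ) (A C D M N : List ℕ) (ha : 2 ≤ a)
    (hE : E e) (hw : M ++ ((A ++ (P a h ++ (C ++ (P a h ++ D)))).flatMap φ ++ N) = Bw R B ++ t) :
    e ∉ φ h := by
  intro hm
  have h1 := cnt4 φ h a e A C D M N
  rw [hw, List.count_append] at h1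
  have h2 : (Bw R B).count e ≤ (B 0).count e :=
    (count_Bw e (by rcases hT.th e hE with rfl | rfl | rfl <;> omega) B R hT.nd
      (hT.tb e hE)).1
  have h3 := hT.tw e hE
  have h4 : t.count e = 0 := List.count_eq_zero.2 (hT.te e hE)
  have h5 : 1 ≤ (φ h).count e := List.count_pos_iff.2 hm
  have h6 : 2 * 1 ≤ a * (φ h).count e := Nat.mul_le_mul ha h5
  omega

theorem stx (hTGW : TgwStmt) (hKPJ : KpjStmt) (hCVX : CvxStmt) (hSWX : SwxStmt)
    (hNSL : NslStmt) (hPWX : PwxStmt) : StxStmt := by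
  intro n β m R c a a' M N φ hS ha ha' hK
  have hn : 1 ≤ n := hS.wo.hn
  have ha1 : 1 ≤ a := by rcases ha with rfl | rfl <;> omega
  obtain ⟨B, t, hw, hTg, h42⟩ := hTGW n β m R c _ (fun e => e = 3 ∨ e = 6) hS (Or.inl hK)
    (fun e he => Or.inr he) ((hKPJ n β R c _).1 hK)
  obtain ⟨A, C, D, -, -, -, hWw⟩ := (hSWX n m R c 1 hS.pR hS.cn).1
  have hno : ∀ e, (e = 3 ∨ e = 6) → e ∉ φ 0 := by
    intro e he
    rcases ha with rfl | rfl
    · exact hCVX n m R c _ B t 1 M N φ hS.cn hn hS.m1 le_rfl hS.pR hTg hw (Or.inl rfl)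
        (Or.inr rfl) (fun _ h => by rcases h with h | h <;> omega) e he
    · rw [hWw] at hw
      exact thick m _ _ B t hTg φ 0 (n + 1) e A C D M N (by omega) he hw
  have hlet : ∀ s ∈ φ 0, s = 0 ∨ (s % 3 = 0 ∧ 42 ≤ s) := by
    intro s hs
    have h3 := (hNSL n m R c _ B t a 1 M N φ hS.cn hn ha1 le_rfl hS.pR hTg hw).1 s hs
    have hmem : s ∈ Bw (R7 R) B ++ t := by
      rw [← hw, List.mem_append, List.mem_append, List.mem_flatMap]
      refine Or.inr (Or.inl ⟨0, ?_, hs⟩)
      rw [hWw, List.mem_append, List.mem_append]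
      exact Or.inr (Or.inl (List.mem_replicate.2 ⟨by omega, rfl⟩))
    rcases h42 s hmem h3 with h | h | h | h
    · exact Or.inl h
    · subst h
      exact absurd hs (hno 3 (Or.inl rfl))
    · subst h
      exact absurd hs (hno 6 (Or.inr rfl))
    · exact Or.inr ⟨h3, h⟩
  have hP := (hPWX n β m R c a a' 1 M N φ hS.wo hS.pR hS.cn ha ha').1 0 hlet
  exact β.trans hK hP

end Pool.Agent.MWTQ.H80
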