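import Pool.Agent.Helper96_MWQ.Stmts

/-! Row TG1 of squad MWTQ (MP_23468a_al). -/

set_option autoImplicit false

namespace Pool.Agent.MWTQ.H85

open Pool.Agent.Helper14_MV Pool.Agent.Helper2_MV Pool.Agent.MVD Pool.Agent.MWTQ

theorem fil_bw (p : ℕ → Bool) (hp : ∀ r, p (3 * r + 2) = true) (R : List ℕ) (B : ℕ → List ℕ) :
    (Bw R B).filter p = Bw R (fun r => (B r).filter p) := by
  unfold Bw
  induction R with
  | nil => rfl
  | cons r R ih =>
    rw [List.flatMap_cons, List.flatMap_cons, List.filter_append, List.filter_append, ih,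
      List.filter_cons_of_pos (hp r), List.filter_nil]

theorem sep_bw (R : List ℕ) (B : ℕ → List ℕ) (h : ∀ r, SFr (B r)) :
    (Bw R B).filter (fun a => decide (a % 3 = 2)) = R.map (fun r => 3 * r + 2) := by
  unfold Bw
  induction R with
  | nil => rfl
  | cons r R ih =>
    have e : (B r).filter (fun a => decide (a % 3 = 2)) = [] := by
      rw [List.filter_eq_nil_iff]
      intro a ha
      have := h r a ha
      simpa using this
    rw [List.flatMap_cons, List.filter_append, List.filter_append, ih, e, List.map_cons]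
    rw [List.filter_cons_of_pos (by
      have : (3 * r + 2) % 3 = 2 := by omega
      simpa using this)]
    rfl

theorem sh_nil (n : ℕ) : sh n [] = [] := rfl

theorem sh_app (n : ℕ) (u v : List ℕ) : sh n (u ++ v) = sh n u ++ sh n v := by
  unfold sh
  rw [List.flatMap_append]

theorem sh_one (n a : ℕ) (h : ¬ (a % 3 = 0 ∧ 42 ≤ a)) : sh n [a] = [a] := by
  unfold sh
  rw [List.flatMap_cons, List.flatMap_nil, if_neg h, List.append_nil]

theorem sh_bw (n : ℕ) (R : List ℕ) (B : ℕ → List ℕ) : sh n (Bw R B) = Bw R (fun r => sh n (B r)) := by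
  unfold Bw
  induction R with
  | nil => rfl
  | cons r R ih =>
    rw [List.flatMap_cons, List.flatMap_cons, sh_app, sh_app, ih,
      sh_one n (3 * r + 2) (by omega)]

theorem dl_bw (d : ℕ) (hd : d % 3 = 0) (R : List ℕ) (B : ℕ → List ℕ) :
    dl d (Bw R B) = Bw R (fun r => dl d (B r)) := by
  unfold dl
  apply fil_bw
  intro r
  have : 3 * r + 2 ≠ d := by omega
  simpa using this

theorem dl_app (d : ℕ) (u v : List ℕ) : dl d (u ++ v) = dl d u ++ dl d v := by
  unfold dl
  rw [List.filter_append]

theorem sh_mem (n : ℕ) {a : ℕ} {l : List ℕ} : a ∈ sh n l ↔ a ∈ l := by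
  unfold sh
  rw [List.mem_flatMap]
  constructor
  · rintro ⟨b, hb, hab⟩
    split at hab
    · rw [List.mem_replicate] at hab
      rw [hab.2]
      exact hb
    · rw [List.mem_singleton] at hab
      rw [hab]
      exact hb
  · intro h
    refine ⟨a, h, ?_⟩
    split
    · rw [List.mem_replicate]
      exact ⟨by omega, rfl⟩
    · exact List.mem_singleton.2 rfl

theorem sh_sfr (n : ℕ) {l : List ℕ} (h : SFr l) : SFr (sh n l) := fun a ha => h a ((sh_mem n).1 ha)

theorem dl_sfr (d : ℕ) {l : List ℕ} (h : SFr l) : SFr (dl d l) := fun a ha =>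
  h a (List.mem_filter.1 ha).1

theorem sh_count (n : ℕ) {a : ℕ} (ha : ¬ (a % 3 = 0 ∧ 42 ≤ a)) (l : List ℕ) :
    (sh n l).count a = l.count a := by
  induction l with
  | nil => rfl
  | cons b l ih =>
    have e : sh n (b :: l) = sh n [b] ++ sh n l := sh_app n [b] l
    have e2 : b :: l = [b] ++ l := rfl
    rw [e, List.count_append, ih, e2, List.count_append]
    congr 1
    unfold sh
    rw [List.flatMap_cons, List.flatMap_nil, List.append_nil]
    split
    · rename_i hb
      have hne : b ≠ a := by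
        rintro rfl
        exact ha hb
      rw [List.count_replicate, List.count_cons_of_ne hne, List.count_nil]
      simp [hne]
    · rfl

theorem dl_count (d : ℕ) {a : ℕ} (ha : a ≠ d) (l : List ℕ) : (dl d l).count a = l.count a := by
  unfold dl
  exact List.count_filter (by simpa using ha)

theorem sh_sep (n : ℕ) (l : List ℕ) : (sh n l).filter (fun a => decide (a % 3 = 2)) =
    l.filter (fun a => decide (a % 3 = 2)) := by
  induction l with
  | nil => rfl
  | cons b l ih =>
    have e : sh n (b :: l) = sh n [b] ++ sh n l := sh_app n [b] l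
    have e2 : b :: l = [b] ++ l := rfl
    rw [e, List.filter_append, ih, e2, List.filter_append]
    congr 1
    unfold sh
    rw [List.flatMap_cons, List.flatMap_nil, List.append_nil]
    split
    · rename_i hb
      have e1 : (P (n + 1) b).filter (fun a => decide (a % 3 = 2)) = [] := by
        rw [List.filter_eq_nil_iff]
        intro a ha
        rw [(List.mem_replicate.1 ha).2]
        have : ¬ b % 3 = 2 := by omega
        simpa using this
      rw [e1, List.filter_cons_of_neg]
      · rfl
      · have : ¬ b % 3 = 2 := by omega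
        simpa using this
    · rfl

theorem dl_sep (d : ℕ) (hd : d % 3 = 0) (l : List ℕ) :
    (dl d l).filter (fun a => decide (a % 3 = 2)) = l.filter (fun a => decide (a % 3 = 2)) := by
  unfold dl
  rw [List.filter_filter]
  refine List.filter_congr fun a _ => ?_
  by_cases h : a % 3 = 2
  · have : a ≠ d := by omega
    simp [h, this]
  · simp [h]

/-- counts in the copies -/
theorem cp_count (c : List ℕ) (k b : ℕ) (hk : k < 7) :
    (cp k c).count (3 * b + 1) = if k = b % 7 then c.count (3 * (b / 7) + 1) else 0 := by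
  unfold cp
  induction c with
  | nil => simp
  | cons a c ih =>
    rw [List.map_cons, List.count_cons, List.count_cons, ih]
    have e : (cl k a == 3 * b + 1) = decide (k = b % 7 ∧ a = 3 * (b / 7) + 1) := by
      rw [Bool.eq_iff_iff]
      simp only [beq_iff_eq, decide_eq_true_eq]
      unfold cl
      omega
    rw [e]
    by_cases h1 : k = b % 7
    · by_cases h2 : a = 3 * (b / 7) + 1
      · simp [h1, h2]
      · simp [h1, h2]
    · simp [h1]

theorem lw_count (n m : ℕ) (c : List ℕ) (hc : Cn n m c) (b : ℕ) (hb : b < 7 * m) :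
    (Lw 1 1 c).count (3 * b + 1) = 1 := by
  have h1 : c.count (3 * (b / 7) + 1) = 1 := hc.li _ (by omega)
  unfold Lw
  simp only [List.count_append, List.count_cons, cp_count c _ b (by norm_num : 0 < 7),
    cp_count c _ b (by norm_num : 1 < 7), cp_count c _ b (by norm_num : 2 < 7),
    cp_count c _ b (by norm_num : 3 < 7), cp_count c _ b (by norm_num : 4 < 7),
    cp_count c _ b (by norm_num : 5 < 7), cp_count c _ b (by norm_num : 6 < 7), h1,
    List.count_replicate]
  have e0 : (0 == 3 * b + 1) = false := by simp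
  have e3 : (3 == 3 * b + 1) = false := by
    rw [beq_eq_false_iff_ne]
    omega
  have e6 : (6 == 3 * b + 1) = false := by
    rw [beq_eq_false_iff_ne]
    omega
  rw [e0, e3, e6]
  have h7 : b % 7 < 7 := Nat.mod_lt _ (by norm_num)
  generalize b % 7 = k at h7
  interval_cases k <;> simp

theorem lw_mem (n m : ℕ) (c : List ℕ) (hc : Cn n m c) {a : ℕ} (ha : a ∈ Lw 1 1 c) :
    a = 0 ∨ a = 3 ∨ a = 6 ∨ (∃ b < 7 * m, a = 3 * b + 1) ∨ (a % 3 = 0 ∧ 42 ≤ a) := by
  have key : ∀ k, k < 7 → a ∈ cp k c →
      (∃ b < 7 * m, a = 3 * b + 1) ∨ (a % 3 = 0 ∧ 42 ≤ a) := by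
    intro k hk h
    unfold cp at h
    rw [List.mem_map] at h
    obtain ⟨a', ha', rfl⟩ := h
    unfold cl
    rcases hc.lo a' ha' with ⟨d, hd, rfl⟩ | ⟨h1, h2⟩
    · left
      refine ⟨7 * d + k, by omega, ?_⟩
      have e1 : (3 * d + 1) / 3 = d := by omega
      have e2 : (3 * d + 1) % 3 = 1 := by omega
      rw [e1, e2]
    · right
      omega
  unfold Lw at ha
  simp only [List.mem_append, List.mem_cons, List.mem_replicate] at ha
  rcases ha with ha | ha | ha | ha | ha | ha | ha | ha | ha | ha | ha | ha | ha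
  · left; exact ha.2
  · rcases key 0 (by norm_num) ha with h | h
    · exact Or.inr (Or.inr (Or.inr (Or.inl h)))
    · exact Or.inr (Or.inr (Or.inr (Or.inr h)))
  · right; left; exact ha
  · rcases key 1 (by norm_num) ha with h | h
    · exact Or.inr (Or.inr (Or.inr (Or.inl h)))
    · exact Or.inr (Or.inr (Or.inr (Or.inr h)))
  · rcases key 2 (by norm_num) ha with h | h
    · exact Or.inr (Or.inr (Or.inr (Or.inl h)))
    · exact Or.inr (Or.inr (Or.inr (Or.inr h)))
  · right; right; left; exact ha.2
  · rcases key 3 (by norm_num) ha with h | h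
    · exact Or.inr (Or.inr (Or.inr (Or.inl h)))
    · exact Or.inr (Or.inr (Or.inr (Or.inr h)))
  · left; exact ha.2
  · rcases key 4 (by norm_num) ha with h | h
    · exact Or.inr (Or.inr (Or.inr (Or.inl h)))
    · exact Or.inr (Or.inr (Or.inr (Or.inr h)))
  · right; left; exact ha
  · rcases key 5 (by norm_num) ha with h | h
    · exact Or.inr (Or.inr (Or.inr (Or.inl h)))
    · exact Or.inr (Or.inr (Or.inr (Or.inr h)))
  · rcases key 6 (by norm_num) ha with h | h
    · exact Or.inr (Or.inr (Or.inr (Or.inl h)))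
    · exact Or.inr (Or.inr (Or.inr (Or.inr h)))
  · right; right; left; exact ha.2

theorem tg1 (hPER : PerStmt) : Tg1Stmt := by
  intro n β m R c w hS hK
  obtain ⟨hnd, h0, hb1, hall⟩ := hPER m R hS.pR
  obtain ⟨d, hd3, hd, h⟩ : ∃ d, d % 3 = 0 ∧ (d = 0 ∨ d = 6) ∧
      RR β (dl d (Ww R c 1 1)) (sh n (dl d w)) := by
    rcases hK with hK | hK
    · exact ⟨0, rfl, Or.inl rfl, hK⟩
    · exact ⟨6, rfl, Or.inr rfl, hK⟩
  obtain ⟨B0, hB0⟩ : ∃ B0 : ℕ → List ℕ, B0 = fun r => if r = 0 then Lw 1 1 c else pl0 r := ⟨_, rfl⟩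
  have hW : Ww R c 1 1 = Bw (R7 R) B0 := by
    unfold Ww Bp
    rw [hB0]
  have hmem0 : ∀ r ∈ R7 R, ∀ a ∈ B0 r,
      a = 0 ∨ a = 3 ∨ a = 6 ∨ (∃ b < 7 * m, a = 3 * b + 1) ∨ (a % 3 = 0 ∧ 42 ≤ a) := by
    intro r hr a ha
    rw [hB0] at ha
    dsimp only at ha
    split at ha
    · exact lw_mem n m c hS.cn ha
    · rename_i hr0
      rcases hall r hr with h1 | ⟨b, hb, rfl⟩
      · exact absurd h1 hr0
      · unfold pl0 at ha
        rw [List.mem_singleton] at ha
        right; right; right; left
        exact ⟨b, hb, by rw [ha]; rfl⟩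
  have hS0 : ∀ r ∈ R7 R, SFr (B0 r) := by
    intro r hr a ha
    rcases hmem0 r hr a ha with h1 | h1 | h1 | ⟨b, _, h1⟩ | ⟨h1, _⟩ <;> omega
  rw [hW, dl_bw d hd3] at h
  -- separators
  obtain ⟨B', e', hB', he', hw'⟩ := Pool.Agent.MWD.H11.decF β hS.wo.i3 (R7 R) _ _ hnd
    (fun r hr => dl_sfr d (hS0 r hr)) h
  have hsep : w.filter (fun a => decide (a % 3 = 2)) = (R7 R).map (fun r => 3 * r + 2) := by
    rw [← dl_sep d hd3, ← sh_sep n, hw', List.filter_append, sep_bw _ _ hB']
    have e : e'.filter (fun a => decide (a % 3 = 2)) = [] := by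
      rw [List.filter_eq_nil_iff]
      intro a ha
      have := he' a ha
      simpa using this
    rw [e, List.append_nil]
  obtain ⟨B, t, hwB, hB, ht⟩ := Pool.Agent.MWE.H59.dcm (R7 R) w hnd hsep
  have hshw : sh n (dl d w) = Bw (R7 R) (fun r => sh n (dl d (B r))) ++ sh n (dl d t) := by
    rw [hwB, dl_app, dl_bw d hd3, sh_app, sh_bw]
  have hcon : ∀ a, a ∈ w → a ≠ d → ∃ r ∈ R7 R, a ∈ B0 r ∨ a = 3 * r + 2 := by
    intro a ha had
    have h1 : a ∈ sh n (dl d w) := by
      rw [sh_mem]
      exact List.mem_filter.2 ⟨ha, by simpa using had⟩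
    have h2 : a ∈ Bw (R7 R) (fun r => dl d (B0 r)) := by
      by_contra h3
      exact RR.content hS.wo.i3 h h3 h1
    unfold Bw at h2
    rw [List.mem_flatMap] at h2
    obtain ⟨r, hr, h3⟩ := h2
    refine ⟨r, hr, ?_⟩
    rw [List.mem_append, List.mem_singleton] at h3
    rcases h3 with h3 | h3
    · left
      exact (List.mem_filter.1 h3).1
    · exact Or.inr h3
  rw [hshw] at h
  have hkp : ∀ b < 7 * m, (∀ q ∈ R7 R, (B q).count (3 * b + 1) = if q = 0 ∨ q = b + 1 then 1 else 0) ∧
      t.count (3 * b + 1) = 0 := by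
    intro b hb
    have hbd : 3 * b + 1 ≠ d := by omega
    have h1 := Pool.Agent.MWD.H11.kp3 β hS.wo.i3 (R7 R) _ _ _ hnd
      (fun r hr => dl_sfr d (hS0 r hr)) (fun r _ => sh_sfr n (dl_sfr d (hB r)))
      (sh_sfr n (dl_sfr d ht)) h (3 * b + 1) 0 (b + 1) (by omega) h0 (hb1 b hb) (by omega)
      (by
        intro q hq
        rw [dl_count d hbd, hB0]
        dsimp only
        by_cases hq0 : q = 0
        · rw [if_pos hq0, if_pos (Or.inl hq0)]
          exact lw_count n m c hS.cn b hb
        · rw [if_neg hq0]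
          unfold pl0
          by_cases hqb : q = b + 1
          · rw [if_pos (Or.inr hqb), hqb]
            simp
          · rw [if_neg (by omega), List.count_eq_zero]
            rw [List.mem_singleton]
            omega)
    refine ⟨fun q hq => ?_, ?_⟩
    · have h2 := h1.1 q hq
      rw [sh_count n (by omega), dl_count d hbd] at h2
      exact h2
    · have h2 := h1.2
      rw [sh_count n (by omega), dl_count d hbd] at h2
      exact h2
  refine ⟨B, t, hwB, hB, ht, fun b hb => (hkp b hb).1, fun b hb =>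
    List.count_eq_zero.1 (hkp b hb).2, ?_, ?_⟩
  · intro a ha ha1
    rw [← hwB] at ha
    obtain ⟨r, hr, h1⟩ := hcon a ha (by omega)
    rcases h1 with h1 | h1
    · rcases hmem0 r hr a h1 with h2 | h2 | h2 | h2 | ⟨h2, _⟩
      · omega
      · omega
      · omega
      · exact h2
      · omega
    · omega
  · intro a ha ha0
    rw [← hwB] at ha
    by_cases had : a = d
    · rcases hd with hd | hd
      · left; omega
      · right; right; left; omega
    · obtain ⟨r, hr, h1⟩ := hcon a ha had
      rcases h1 with h1 | h1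
      · rcases hmem0 r hr a h1 with h2 | h2 | h2 | ⟨b, _, h2⟩ | ⟨_, h2⟩
        · exact Or.inl h2
        · exact Or.inr (Or.inl h2)
        · exact Or.inr (Or.inr (Or.inl h2))
        · omega
        · exact Or.inr (Or.inr (Or.inr h2))
      · omega

end Pool.Agent.MWTQ.H85
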