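import Pool.Agent.Helper96_MWQ.Stmts

set_option autoImplicit false

/-!
# Squad MWTQ, row SHW (helper89): local letters are heavy in the big words
-/

namespace Pool.Agent.MWTQ.H89

open Pool.Agent.Helper14_MV Pool.Agent.Helper2_MV Pool.Agent.MVD Pool.Agent.MWTQ

/-- words in which the letters `≥ 42`, `≡ 0` stand in blocks of `n + 1` letters -/
inductive Bk (n : ℕ) : List ℕ → Prop
  | nil : Bk n []
  | one (a : ℕ) {w : List ℕ} : ¬ (a % 3 = 0 ∧ 42 ≤ a) → Bk n w → Bk n (a :: w)
  | blk (a : ℕ) {w : List ℕ} : a % 3 = 0 → 42 ≤ a → Bk n w → Bk n (P (n + 1) a ++ w)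

theorem Bk.append {n : ℕ} {u v : List ℕ} (hu : Bk n u) (hv : Bk n v) : Bk n (u ++ v) := by
  induction hu with
  | nil => exact hv
  | one a ha _ ih => exact Bk.one a ha ih
  | blk a ha ha' _ ih =>
    rw [List.append_assoc]
    exact Bk.blk a ha ha' ih

theorem Bk.flatMap {n : ℕ} {α : Type} (l : List α) (f : α → List ℕ) (h : ∀ a ∈ l, Bk n (f a)) :
    Bk n (l.flatMap f) := by
  induction l with
  | nil => exact Bk.nil
  | cons a l ih =>
    rw [List.flatMap_cons]
    exact (h a (by simp)).append (ih (fun b hb => h b (List.mem_cons_of_mem _ hb)))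

theorem filter_P (e k a : ℕ) (h : a ≠ e) : dl e (P k a) = P k a := by
  unfold dl
  rw [List.filter_eq_self]
  intro b hb
  rw [List.eq_of_mem_replicate hb, decide_eq_true_iff]
  exact h

theorem dl_append (e : ℕ) (u v : List ℕ) : dl e (u ++ v) = dl e u ++ dl e v := by
  unfold dl
  rw [List.filter_append]

theorem Bk.dl {n e : ℕ} (he : e < 42) {w : List ℕ} (hw : Bk n w) : Bk n (dl e w) := by
  induction hw with
  | nil => exact Bk.nil
  | one a ha _ ih =>
    unfold MWTQ.dl
    rw [List.filter_cons]
    split
    · exact Bk.one a ha ih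
    · exact ih
  | blk a ha ha' _ ih =>
    rw [dl_append, filter_P e _ a (by omega)]
    exact Bk.blk a ha ha' ih

theorem sh_append (n : ℕ) (u v : List ℕ) : sh n (u ++ v) = sh n u ++ sh n v := by
  unfold sh
  rw [List.flatMap_append]

theorem sh_P (n k a : ℕ) (ha : a % 3 = 0) (ha' : 42 ≤ a) :
    sh n (P k a) = P (k * (n + 1)) a := by
  induction k with
  | zero => simp [sh]
  | succ k ih =>
    have e : P (k + 1) a = [a] ++ P k a := by
      rw [P, List.replicate_succ]
      rfl
    have e1 : sh n [a] = P (n + 1) a := by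
      unfold sh
      rw [List.flatMap_cons, List.flatMap_nil, List.append_nil, if_pos ⟨ha, ha'⟩]
    rw [e, sh_append, ih, e1, ← List.replicate_add]
    congr 1
    ring

/-- `sh` does not change the class of such a word -/
theorem Bk.rr {n : ℕ} {β : FIC} (hn : 1 ≤ n) (ap : RR β [0, 0] (List.replicate (n + 2) 0))
    {w : List ℕ} (hw : Bk n w) : RR β w (sh n w) := by
  induction hw with
  | nil => exact RR.refl _
  | @one a w ha _ ih =>
    have e : sh n (a :: w) = [a] ++ sh n w := by
      unfold sh
      rw [List.flatMap_cons, if_neg ha]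
    rw [e]
    exact (RR.refl (β := β) [a]).append ih
  | blk a ha ha' _ ih =>
    rw [sh_append, sh_P n _ a ha ha']
    refine RR.append ?_ ih
    have h := Helper96_MWV.pwk ap a (n + 1) (n + 1) (by omega)
    have e : n + 1 + (n + 1) * n = (n + 1) * (n + 1) := by ring
    rw [e] at h
    exact h

/-- a canonical run and its suffixes -/
theorem run (n k : ℕ) : ∀ (N : ℕ) (s : List ℕ), s.length ≤ N →
    (∀ a ∈ s, a % 3 = 0 → 6 ≤ a) →
    (∀ a ∈ s, a % 3 = 0 → ∃ A C, s = A ++ (List.replicate (n + 1) a ++ C) ∧ a ∉ A ∧ a ∉ C) →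
      Bk n (cp k s) := by
  intro N
  induction N with
  | zero =>
    intro s hs _ _
    have e : s = [] := List.length_eq_zero_iff.1 (by omega)
    rw [e]
    exact Bk.nil
  | succ N ih =>
    intro s hs h6 hb
    rcases s with _ | ⟨a, s⟩
    · exact Bk.nil
    · by_cases ha : a % 3 = 0
      · obtain ⟨A, C, hA, h1, h2⟩ := hb a (by simp) ha
        have hA0 : A = [] := by
          rcases A with _ | ⟨b, A⟩
          · rfl
          · exfalso
            rw [List.cons_append, List.cons.injEq] at hA
            exact h1 (by rw [hA.1]; simp)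
        subst hA0
        rw [List.nil_append] at hA
        have hlen : (a :: s).length = n + 1 + C.length := by
          rw [hA, List.length_append, List.length_replicate]
        rw [hA]
        have e1 : cp k (List.replicate (n + 1) a ++ C) = P (n + 1) (cl k a) ++ cp k C := by
          unfold cp
          rw [List.map_append, List.map_replicate]
        have h6a := h6 a (by simp) ha
        rw [e1]
        refine Bk.blk _ ?_ ?_ (ih C (by omega) ?_ ?_)
        · unfold cl
          omega
        · unfold cl
          omega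
        · intro b hbC hb3
          exact h6 b (by rw [hA]; simp [hbC]) hb3
        · intro b hbC hb3
          have hab : b ≠ a := by
            rintro rfl
            exact h2 hbC
          obtain ⟨A', C', hA', h1', h2'⟩ := hb b (by rw [hA]; simp [hbC]) hb3
          rw [hA] at hA'
          rcases List.append_eq_append_iff.1 hA' with ⟨l, h3, h4⟩ | ⟨l, h3, h4⟩
          · exact ⟨l, C', h4, fun hm => h1' (by rw [h3]; simp [hm]), h2'⟩
          · rcases l with _ | ⟨x, l⟩
            · exact ⟨[], C', by rw [List.nil_append] at h4 ⊢; exact h4.symm, by simp, h2'⟩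
            · exfalso
              rw [List.replicate_succ, List.cons_append, List.cons_append,
                List.cons.injEq] at h4
              have hx : x ∈ List.replicate (n + 1) a := by
                rw [h3]
                simp
              have hxa := List.eq_of_mem_replicate hx
              exact hab (by rw [h4.1, hxa])
      · have e1 : cp k (a :: s) = cl k a :: cp k s := rfl
        rw [e1]
        refine Bk.one _ ?_ (ih s ?_ ?_ ?_)
        · unfold cl
          omega
        · rw [List.length_cons] at hs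
          omega
        · intro b hbs hb3
          exact h6 b (List.mem_cons_of_mem _ hbs) hb3
        · intro b hbs hb3
          obtain ⟨A', C', hA', h1', h2'⟩ := hb b (List.mem_cons_of_mem _ hbs) hb3
          rcases A' with _ | ⟨x, A'⟩
          · exfalso
            rw [List.nil_append, List.replicate_succ, List.cons_append, List.cons.injEq] at hA'
            exact ha (by rw [hA'.1]; exact hb3)
          · rw [List.cons_append, List.cons.injEq] at hA'
            exact ⟨A', C', hA'.2, fun hm => h1' (List.mem_cons_of_mem _ hm), h2'⟩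

theorem bk_big {n m : ℕ} (R : List ℕ) {c : List ℕ} (hc : Cn n m c) : Bk n (Ww R c 1 1) := by
  have hcp : ∀ k, Bk n (cp k c) := fun k => run n k c.length c (le_refl _) (by
    intro a ha h3
    rcases hc.lo a ha with ⟨d, _, hd⟩ | h
    · omega
    · exact h.2) hc.bl
  have h1 : ∀ (a : ℕ), a < 42 → ∀ w, Bk n w → Bk n (a :: w) :=
    fun a ha w hw => Bk.one a (by omega) hw
  have hL : Bk n (Lw 1 1 c) := by
    have e : Lw 1 1 c = 0 :: (cp 0 c ++ 3 :: (cp 1 c ++ (cp 2 c ++ (6 :: (cp 3 c ++
        (0 :: (cp 4 c ++ 3 :: (cp 5 c ++ (cp 6 c ++ [6]))))))))) := rfl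
    rw [e]
    exact h1 0 (by omega) _ ((hcp 0).append (h1 3 (by omega) _ ((hcp 1).append
      ((hcp 2).append (h1 6 (by omega) _ ((hcp 3).append (h1 0 (by omega) _ ((hcp 4).append
        (h1 3 (by omega) _ ((hcp 5).append ((hcp 6).append
          (h1 6 (by omega) _ Bk.nil))))))))))))
  unfold Ww Bp Bw
  apply Bk.flatMap
  intro r _
  refine Bk.append ?_ (Bk.one _ (by omega) Bk.nil)
  dsimp only
  split
  · exact hL
  · unfold pl0
    exact Bk.one _ (by omega) Bk.nil

/-- **SHW** -/
theorem shw : ShwStmt := by
  intro n β m R c hw hc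
  have hB := bk_big R hc
  refine ⟨(hB.dl (by omega)).rr hw.hn hw.ap, (hB.dl (by omega)).rr hw.hn hw.ap, ?_, ?_⟩
  · intro w w' hr h
    unfold Kx at h ⊢
    exact β.trans h ((hr.filter _).sub _)
  · intro w w' hr h
    unfold Ky at h ⊢
    exact β.trans h ((hr.filter _).sub _)

end Pool.Agent.MWTQ.H89
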