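import Pool.Agent.Helper96_MWQ.Stmts

/-!
Squad MWTQ (problem MP_23468a_al), row NW4: the word with thick `x` is not in `Ky`.
-/

set_option autoImplicit false

namespace Pool.Agent.MWTQ.H92

open Pool.Agent.Helper14_MV Pool.Agent.Helper2_MV Pool.Agent.MVD

/-- local letters to the power `n + 1` -/
def g6 (n : ℕ) (a : ℕ) : List ℕ := if a % 3 = 0 ∧ 6 ≤ a then P (n + 1) a else [a]

/-- the projection to the copy `0` -/
abbrev f0 (a : ℕ) : List ℕ := pj 0 1 (fun _ => 0) a

theorem rep_fm (f : ℕ → List ℕ) (x : ℕ) (h : f x = [x]) (k : ℕ) : (P k x).flatMap f = P k x := by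
  induction k with
  | zero => rfl
  | succ k ih => rw [P, List.replicate_succ, List.flatMap_cons, ih, h, P]; rfl

theorem rep_fm' (f : ℕ → List ℕ) (x y : ℕ) (h : f x = [y]) (k : ℕ) :
    (P k x).flatMap f = P k y := by
  induction k with
  | zero => rfl
  | succ k ih =>
    rw [P, List.replicate_succ, List.flatMap_cons, ih, h]
    rfl

theorem rep_nil (f : ℕ → List ℕ) (x : ℕ) (h : f x = []) (k : ℕ) : (P k x).flatMap f = [] := by
  induction k with
  | zero => rfl
  | succ k ih => rw [P, List.replicate_succ, List.flatMap_cons, ih, h]; rfl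

theorem one (n a : ℕ) : (if a % 3 = 0 ∧ 42 ≤ a then P (n + 1) a else [a]).flatMap f0 =
    (f0 a).flatMap (g6 n) := by
  unfold f0
  by_cases h : a % 3 = 0
  · by_cases h2 : 42 ≤ a
    · rw [if_pos ⟨h, h2⟩]
      have e : pj 0 1 (fun _ => 0) a = if (0 : ℕ) = a / 3 % 7 then [3 * (a / 21)] else [] := by
        unfold pj
        rw [if_pos h, if_neg (by omega)]
      by_cases h3 : (0 : ℕ) = a / 3 % 7
      · rw [if_pos h3] at e
        rw [rep_fm' _ _ _ e, e]
        simp only [List.flatMap_cons, List.flatMap_nil, List.append_nil]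
        unfold g6
        rw [if_pos (by omega)]
      · rw [if_neg h3] at e
        rw [rep_nil _ _ e, e]
        rfl
    · rw [if_neg (fun h' => h2 h'.2)]
      have e : pj 0 1 (fun _ => 0) a = if a = 0 then [0] else [] := by
        unfold pj
        rw [if_pos h, if_pos (by omega)]
        by_cases h3 : a = 0
        · rw [if_pos h3, if_pos h3]
        · rw [if_neg h3, if_neg h3, if_neg (by omega)]
      simp only [List.flatMap_cons, List.flatMap_nil, List.append_nil]
      rw [e]
      split_ifs
      · rfl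
      · rfl
  · rw [if_neg (fun h' => h h'.1)]
    simp only [List.flatMap_cons, List.flatMap_nil, List.append_nil]
    unfold pj
    rw [if_neg h]
    by_cases h1 : a % 3 = 1
    · rw [if_pos h1]
      split_ifs
      · simp only [List.flatMap_cons, List.flatMap_nil, List.append_nil]
        unfold g6
        rw [if_neg (by omega)]
      · rfl
    · rw [if_neg h1]
      simp only [List.flatMap_cons, List.flatMap_nil, List.append_nil]
      unfold g6
      rw [if_neg (by omega)]

theorem sh_fm (n : ℕ) (w : List ℕ) : (sh n (dl 6 w)).flatMap f0 = (w.flatMap f0).flatMap (g6 n) := by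
  induction w with
  | nil => rfl
  | cons a w ih =>
    rw [List.flatMap_cons, List.flatMap_append, ← ih, ← one]
    unfold dl
    by_cases h : a = 6
    · rw [List.filter_cons_of_neg (by simp [h]), h]
      have : f0 6 = [] := by decide
      simp [this]
    · rw [List.filter_cons_of_pos (by simp [h])]
      unfold sh
      rw [List.flatMap_cons, List.flatMap_append]

theorem dl_fm (w : List ℕ) : (dl 6 w).flatMap f0 = w.flatMap f0 := by
  induction w with
  | nil => rfl
  | cons a w ih =>
    unfold dl at ih ⊢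
    by_cases h : a = 6
    · rw [List.filter_cons_of_neg (by simp [h]), ih, h, List.flatMap_cons]
      have : f0 6 = [] := by decide
      rw [this, List.nil_append]
    · rw [List.filter_cons_of_pos (by simp [h]), List.flatMap_cons, List.flatMap_cons, ih]

theorem bp_fm (Rr X : List ℕ) (κ : ℕ → ℕ) (t : ℕ → List ℕ) (h1 : ∀ r, t (3 * r + 2) = [3 * r + 2])
    (h2 : ∀ d, t (3 * d + 1) = [3 * d + 1]) :
    (Bp Rr (plk κ) X).flatMap t = Bp Rr (plk κ) (X.flatMap t) := by
  unfold Bp Bw
  rw [List.flatMap_assoc]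
  congr 1
  funext r
  rw [List.flatMap_append, List.flatMap_cons, List.flatMap_nil, List.append_nil, h1]
  dsimp only
  by_cases h : r = 0
  · rw [if_pos h, if_pos h]
  · rw [if_neg h, if_neg h]
    unfold plk
    split_ifs
    · rw [List.flatMap_cons, List.flatMap_nil, List.append_nil, h2]
    · rfl

theorem cp_fm {n m : ℕ} {c : List ℕ} (hc : Cn n m c) {k : ℕ} (hk : k < 7) :
    (cp k c).flatMap f0 = if k = 0 then c else [] := by
  have h1 : ∀ a ∈ c, f0 (cl k a) = if k = 0 then [a] else [] := by
    intro a ha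
    unfold f0
    rcases hc.lo a ha with ⟨d, hd, rfl⟩ | ⟨h3, h6⟩
    · have e1 : cl k (3 * d + 1) = 3 * (7 * d + k) + 1 := by
        unfold cl
        omega
      rw [e1]
      unfold pj
      rw [if_neg (by omega), if_pos (by omega)]
      have e2 : (3 * (7 * d + k) + 1) / 21 = d := by omega
      have e3 : (3 * (7 * d + k) + 1) / 3 % 7 = k := by omega
      rw [e2, e3]
      by_cases h : k = 0
      · rw [if_pos h.symm, if_pos h]
      · rw [if_neg (Ne.symm h), if_neg h]
    · obtain ⟨j, rfl⟩ : ∃ j, a = 3 * j := ⟨a / 3, by omega⟩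
      have e1 : cl k (3 * j) = 3 * (7 * j + k) := by
        unfold cl
        omega
      rw [e1]
      unfold pj
      rw [if_pos (by omega), if_neg (by omega)]
      have e2 : (3 * (7 * j + k)) / 21 = j := by omega
      have e3 : (3 * (7 * j + k)) / 3 % 7 = k := by omega
      rw [e2, e3]
      by_cases h : k = 0
      · rw [if_pos h.symm, if_pos h]
      · rw [if_neg (Ne.symm h), if_neg h]
  clear hc
  unfold cp
  induction c with
  | nil => split_ifs <;> rfl
  | cons a c ih =>
    rw [List.map_cons, List.flatMap_cons, h1 a List.mem_cons_self,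
      ih fun b hb => h1 b (List.mem_cons_of_mem _ hb)]
    split_ifs <;> rfl

theorem lw_fm {n m : ℕ} {c : List ℕ} (hc : Cn n m c) (a : ℕ) :
    (Lw a 1 c).flatMap f0 = P a 0 ++ (c ++ P a 0) := by
  have h0 : (P a 0).flatMap f0 = P a 0 := rep_fm _ _ (by decide) _
  have h3 : f0 3 = [] := by decide
  have h6 : (P 1 6).flatMap f0 = [] := rep_nil _ _ (by decide) _
  unfold Lw
  simp only [List.flatMap_append, List.flatMap_cons, h0, h3, h6, cp_fm hc (show 0 < 7 by omega),
    cp_fm hc (show 1 < 7 by omega), cp_fm hc (show 2 < 7 by omega), cp_fm hc (show 3 < 7 by omega),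
    cp_fm hc (show 4 < 7 by omega), cp_fm hc (show 5 < 7 by omega), cp_fm hc (show 6 < 7 by omega)]
  simp

theorem nw4 (pjb : PjbStmt) (_pjl : PjlStmt) (thx : ThxStmt) (shw : ShwStmt) : Nw4Stmt := by
  intro n β m R c hS h
  refine hS.no ((thx n β m R c (fun _ => 0) hS.cn hS.pR (fun _ _ => by omega)).2 ?_)
  have hW : ∀ a, (Ww R c a 1).flatMap f0 = Bp (R7 R) (plk fun _ => 0) (P a 0 ++ (c ++ P a 0)) := by
    intro a
    unfold Ww
    rw [(pjb 0 1 (fun _ => 0)).2.2, lw_fm hS.cn]
  have g1 : ∀ r, g6 n (3 * r + 2) = [3 * r + 2] := fun r => if_neg (by omega)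
  have g2 : ∀ d, g6 n (3 * d + 1) = [3 * d + 1] := fun r => if_neg (by omega)
  have g0 : g6 n 0 = [0] := if_neg (by omega)
  have hP : ∀ a, (P a 0).flatMap (g6 n) = P a 0 := fun a => rep_fm _ _ g0 _
  have E : ∀ a, Ky n β R c (Ww R c a 1) →
      RR β (Bp (R7 R) (plk fun _ => 0) (P 1 0 ++ (c ++ P 1 0)))
        (Bp (R7 R) (plk fun _ => 0) (P a 0 ++ (c.flatMap (g6 n) ++ P a 0))) := by
    intro a ha
    have h1 := RR.sub f0 ha
    rw [sh_fm, dl_fm, hW, hW, bp_fm _ _ _ _ g1 g2, List.flatMap_append, List.flatMap_append,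
      hP] at h1
    exact h1
  have E1 := E 1 (shw n β m R c hS.wo hS.cn).2.1
  have E2 := E (n + 1) h
  have s0 : ∀ {l : List ℕ}, 0 ∉ l →
      l.flatMap (fun a => if a = 0 then P (n + 1) 0 else [a]) = l := by
    intro l hl
    induction l with
    | nil => rfl
    | cons b l ih =>
      rw [List.flatMap_cons, ih (fun h' => hl (List.mem_cons_of_mem _ h')),
        if_neg (fun h' : b = 0 => hl (by rw [← h']; exact List.mem_cons_self))]
      rfl
  have c0 : 0 ∉ c := by
    intro h0
    rcases hS.cn.lo 0 h0 with ⟨d, _, hd⟩ | ⟨_, h6⟩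
    · omega
    · omega
  have c0' : 0 ∉ c.flatMap (g6 n) := by
    intro h0
    obtain ⟨a, ha, h0⟩ := List.mem_flatMap.1 h0
    unfold g6 at h0
    split_ifs at h0 with h1
    · have := (List.mem_replicate.1 h0).2
      omega
    · rw [List.mem_singleton] at h0
      exact c0 (h0 ▸ ha)
  have E3 := RR.sub (fun a => if a = 0 then P (n + 1) 0 else [a]) E1
  have p1 : (P 1 0).flatMap (fun a => if a = 0 then P (n + 1) 0 else [a]) = P (n + 1) 0 := by
    simp [P]
  rw [bp_fm _ _ _ _ (fun r => if_neg (by omega)) (fun r => if_neg (by omega)),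
    bp_fm _ _ _ _ (fun r => if_neg (by omega)) (fun r => if_neg (by omega)),
    List.flatMap_append, List.flatMap_append, List.flatMap_append, List.flatMap_append, p1,
    s0 c0, s0 c0'] at E3
  exact β.trans E2 (RR.symm E3)

end Pool.Agent.MWTQ.H92
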