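import Pool.Agent.Helper96_MWQ.Defs
import Pool.Agent.Helper59_MWE.DCM
import Pool.Agent.Helper10_MWE.FCE
import Pool.Agent.Helper11_MWE.TRGb

/-!
# Thin runs, the pentagon: definitions and statements with proofs (MP_23468a_al, squad MWTQ)

Available without hypotheses: `Pool.Agent.MWD.H11.decF` (DEC), `uniF` (UNI), `facF` (FAC), `kp3`
(counts of a letter which is once in two blocks), `Pool.Agent.MWE.H59.dcm` (DCM),
`Pool.Agent.MWE.H10.fce` (FCE), `Pool.Agent.MWE.H11.trg` (TRG), `Pool.Agent.MVD.H32.gen` (GEN),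
`Pool.Agent.MVD.H21.pen` (PEN), `RR.sub`, `RR.filter`, `RR.content`, `RR.append`.
-/

set_option autoImplicit false

namespace Pool.Agent.MWTQ

open Pool.Agent.Helper14_MV Pool.Agent.Helper2_MV Pool.Agent.MVD

/-! ### the big words: thin letters `x = 0`, `u = 3`, `y = 6`, seven copies of the run -/

/-- the `k`-th copy of a letter, `k < 7` -/
def cl (k a : ℕ) : ℕ := 3 * (7 * (a / 3) + k) + a % 3

/-- the `k`-th copy of the run -/
def cp (k : ℕ) (c : List ℕ) : List ℕ := c.map (cl k)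

/-- the blocks of the big words: seven places instead of one -/
def R7 (R : List ℕ) : List ℕ :=
  R.flatMap (fun r => if r = 0 then [0] else (List.range 7).map (fun k => 7 * (r - 1) + k + 1))

/-- `x^a c⁰ u c¹ c² y^b c³ x^a c⁴ u c⁵ c⁶ y^b` -/
def Lw (a b : ℕ) (c : List ℕ) : List ℕ :=
  P a 0 ++ (cp 0 c ++ 3 :: (cp 1 c ++ (cp 2 c ++ (P b 6 ++ (cp 3 c ++ (P a 0 ++ (cp 4 c ++
    3 :: (cp 5 c ++ (cp 6 c ++ P b 6)))))))))

/-- the big words -/
def Ww (R c : List ℕ) (a b : ℕ) : List ℕ := Bp (R7 R) pl0 (Lw a b c)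

/-- the left boundary of a thin letter -/
def po (e : ℕ) : ℕ := if e = 0 then 0 else if e = 3 then 1 else 3

/-- copy `k` is between the two thin letters `e` of the big word -/
def own (e k : ℕ) : Prop := po e ≤ k ∧ k < po e + 4

instance (e k : ℕ) : Decidable (own e k) := by unfold own; infer_instance

/-- distance of two thin letters -/
def dist (e f : ℕ) : ℕ := (po e - po f) + (po f - po e)

/-- projection: `e` to `0`, `f` to `3`, the letter `a` of copy `κ a` to `a`; separators are kept;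
`f = 1`: no second thin letter -/
def pj (e f : ℕ) (κ : ℕ → ℕ) (a : ℕ) : List ℕ :=
  if a % 3 = 0 then
    (if a < 42 then (if a = e then [0] else if a = f then [3] else [])
      else if κ (3 * (a / 21)) = a / 3 % 7 then [3 * (a / 21)] else [])
  else if a % 3 = 1 then (if κ (3 * (a / 21) + 1) = a / 3 % 7 then [3 * (a / 21) + 1] else [])
  else [a]

/-- the places in the projections -/
def plk (κ : ℕ → ℕ) (r : ℕ) : List ℕ :=
  if κ (3 * ((r - 1) / 7) + 1) = (r - 1) % 7 then [3 * ((r - 1) / 7) + 1] else []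

/-- number of light letters -/
def nl (w : List ℕ) : ℕ := (w.filter (fun a => decide (a % 3 = 1))).length

/-- all local letters of the big words to the power `n+1` -/
def sh (n : ℕ) (w : List ℕ) : List ℕ :=
  w.flatMap (fun a => if a % 3 = 0 ∧ 42 ≤ a then P (n + 1) a else [a])

/-- the two classes: without `x`, without `y`, with local letters to the power `n + 1`, the word is in
the class of the big word -/
def Kx (n : ℕ) (β : FIC) (R c w : List ℕ) : Prop := RR β (dl 0 (Ww R c 1 1)) (sh n (dl 0 w))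
def Ky (n : ℕ) (β : FIC) (R c w : List ℕ) : Prop := RR β (dl 6 (Ww R c 1 1)) (sh n (dl 6 w))

/-- all projections with one thin letter of `E` are in the class of the projection of the big word -/
def Kp (n : ℕ) (β : FIC) (R c : List ℕ) (E : ℕ → Prop) (w : List ℕ) : Prop :=
  ∀ e, E e → ∀ κ : ℕ → ℕ,
    RR β ((Ww R c 1 1).flatMap (pj e 1 κ)) ((sh n w).flatMap (pj e 1 κ))

/-- the situation: `T(c)` fails, the thin runs of the projections are thin, and the last light letter is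
rigid (its place is right of the main block and `SR` fails, or left of it and `SL` fails) -/
structure S7 (n : ℕ) (β : FIC) (m : ℕ) (R c : List ℕ) : Prop where
  wo : Wo n β
  cn : Cn n m c
  m1 : 1 ≤ m
  pR : R.Perm (List.range (m + 1))
  no : ¬ Th n β R pl0 c
  fu : ∀ k < 7, ∀ (B : ℕ → List ℕ) (e : List ℕ), (∀ r, SFr (B r)) → SFr e →
    RR β (Bp (R7 R) (plk (fun _ => k)) (0 :: (c ++ [0]))) (Bw (R7 R) B ++ e) →
      (∃ p U q : List ℕ, B 0 = p ++ 0 :: (U ++ 0 :: q) ∧ 0 ∉ p ∧ 0 ∉ U ∧ 0 ∉ q ∧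
        (∀ a ∈ c, a ∈ U) ∧ ∀ a ∈ p ++ (U ++ q), a ∈ c) ∧
      (∀ r ∈ R7 R, r ≠ 0 → 0 ∉ B r) ∧ 0 ∉ e
  rg : (¬ Helper96_MWV.SR β ∧ ∃ R1 R2, R = R1 ++ 0 :: R2 ∧ m ∈ R2) ∨
    (¬ Helper96_MWV.SL β ∧ ∃ R1 R2, R = R1 ++ 0 :: R2 ∧ m ∈ R1)

/-- the structure of the target words, `E` the set of its thin letters -/
structure Tg (m : ℕ) (R : List ℕ) (E : ℕ → Prop) (B : ℕ → List ℕ) (t : List ℕ) : Prop where
  nd : R.Nodup
  z : 0 ∈ R
  me : ∀ b < 7 * m, b + 1 ∈ R
  sf : ∀ r, SFr (B r)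
  se : SFr t
  li : ∀ b < 7 * m, ∀ r ∈ R, (B r).count (3 * b + 1) = if r = 0 ∨ r = b + 1 then 1 else 0
  le : ∀ b < 7 * m, 3 * b + 1 ∉ t
  cn : ∀ a ∈ Bw R B ++ t, a % 3 = 1 → ∃ b < 7 * m, a = 3 * b + 1
  th : ∀ e, E e → e = 0 ∨ e = 3 ∨ e = 6
  tw : ∀ e, E e → (B 0).count e = 2
  tb : ∀ e, E e → ∀ r ∈ R, r ≠ 0 → e ∉ B r
  te : ∀ e, E e → e ∉ t
  ow : ∀ e, E e → ∀ p U q : List ℕ, B 0 = p ++ e :: (U ++ e :: q) → ∀ b < 7 * m, own e (b % 7) →
    3 * b + 1 ∈ U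
  ns : ∀ e f, E e → E f → e ≠ f → ∀ p p' U q' q : List ℕ,
    B 0 = p ++ f :: (p' ++ e :: (U ++ e :: (q' ++ f :: q))) → False

/-! ## Block 1: projections and classes -/

/-- PER. Facts about the blocks of the big words.
PROOF. `r ↦ 7 (r - 1) + k + 1` is injective for `r ≥ 1`, `k < 7` (division by 7); `R.Perm (range (m+1))`
gives `R.Nodup` and the elements `0 .. m`. -/
def PerStmt : Prop := ∀ (m : ℕ) (R : List ℕ), R.Perm (List.range (m + 1)) →
  (R7 R).Nodup ∧ 0 ∈ R7 R ∧ (∀ b < 7 * m, b + 1 ∈ R7 R) ∧ (∀ r ∈ R7 R, r = 0 ∨ ∃ b < 7 * m, r = b + 1)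

/-- THX. The places of the projections, and `Th` in the projected context gives `Th`.
PROOF. `Pl`: PER; light letter `3 d + 1`: the block `7 d + κ (3 d + 1) + 1`.  Second part: substitute
in the identity `Th n β (R7 R) (plk κ) c` the separator `3 r' + 2`, `r' = 7 d + k + 1`, `k < 7`, by
`[3 (d + 1) + 2]` if `κ (3 d + 1) = k`, otherwise by `[]`; all other letters are fixed (also `2`, the
separator of block `0`).  Induction on `R`: the group of `r = d + 1` becomes `[3 d + 1, 3 (d+1) + 2]`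
(one `k < 7` with `k = κ (3 d + 1)`; the other six places are `[]`). -/
def ThxStmt : Prop := ∀ (n : ℕ) (β : FIC) (m : ℕ) (R c : List ℕ) (κ : ℕ → ℕ), Cn n m c →
  R.Perm (List.range (m + 1)) → (∀ d < m, κ (3 * d + 1) < 7) →
    Pl m (R7 R) (plk κ) ∧ (Th n β (R7 R) (plk κ) c → Th n β R pl0 c)

/-- PJB. The projection of a word given by blocks.
PROOF. `pj` keeps separators (`a % 3 = 2`) and its values on other letters have no separators;
induction on `R`.  Third part: `pj e 1 κ (3 * (r - 1) + 1) = plk κ r` for `r ≠ 0` (arithmetic: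
`(3 (r-1) + 1) / 21 = (r-1) / 7`, `(3 (r-1) + 1) / 3 % 7 = (r-1) % 7`). -/
def PjbStmt : Prop := ∀ (e f : ℕ) (κ : ℕ → ℕ),
  (∀ (R : List ℕ) (B : ℕ → List ℕ) (t : List ℕ), (Bw R B ++ t).flatMap (pj e f κ) =
    Bw R (fun r => (B r).flatMap (pj e f κ)) ++ t.flatMap (pj e f κ)) ∧
  (∀ l : List ℕ, SFr l → SFr (l.flatMap (pj e f κ))) ∧
  (∀ (R L : List ℕ), (Bp R pl0 L).flatMap (pj e f κ) = Bp R (plk κ) (L.flatMap (pj e f κ)))

/-- PJL. The projections of the main block of the big word.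
PROOF. `pj e 1 κ (cl k a) = if κ a = k then [a] else []` for a letter `a` of `c` (light, or local
`≥ 6`) and `k < 7`; `pj e 1 κ` of the thin letters `0, 3, 6`: `[0]` for `e`, `[]` for the others.  So
`(cp k c).flatMap (pj e 1 κ) = c.filter (fun a => κ a = k)`.  (1) `κ` constant.  (2) `κ = j` on `A`, `3`
on `C`: copy `j` gives `A`, copy `3` gives `C`, all others `[]`; `j < 3`.  (3) copy `3` gives `C`, copy
`j > 3` gives `A`.  Cases `e = 0, 3, 6` and `j`. -/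
def PjlStmt : Prop := ∀ (n m : ℕ) (c : List ℕ) (e : ℕ), Cn n m c → e = 0 ∨ e = 3 ∨ e = 6 →
  (∀ k, own e k → (Lw 1 1 c).flatMap (pj e 1 (fun _ => k)) = 0 :: (c ++ [0])) ∧
  (∀ (A C : List ℕ) (j : ℕ), c = A ++ C → (∀ a ∈ A, a ∉ C) → j < 3 →
    (Lw 1 1 c).flatMap (pj e 1 (fun a => if a ∈ A then j else 3)) =
      if po e ≤ j then 0 :: (c ++ [0]) else A ++ 0 :: (C ++ [0])) ∧
  (∀ (C A : List ℕ) (j : ℕ), c = C ++ A → (∀ a ∈ A, a ∉ C) → 3 < j → j < 7 →
    (Lw 1 1 c).flatMap (pj e 1 (fun a => if a ∈ A then j else 3)) =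
      if j < po e + 4 then 0 :: (c ++ [0]) else 0 :: (C ++ 0 :: A))

/-- KPJ. The classes of the projections.
PROOF. `pj e 1 κ 0 = []` for `e ≠ 0`, so `(sh n w).flatMap (pj e 1 κ) = (sh n (dl 0 w)).flatMap (pj e 1 κ)`
(letter by letter, `sh` fixes `0`), the same for `Ww R c 1 1`; `RR.sub`.  The same for `6`. -/
def KpjStmt : Prop := ∀ (n : ℕ) (β : FIC) (R c w : List ℕ),
  (Kx n β R c w → Kp n β R c (fun e => e = 3 ∨ e = 6) w) ∧
  (Ky n β R c w → Kp n β R c (fun e => e = 0 ∨ e = 3) w)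

/-- SHW. Local letters are heavy in the big words, and the classes are closed.
PROOF. (1), (2) A local letter `s = cl k a` of `c^k` occurs in `Ww` in one block `P (n+1) s` (`Cn.bl`);
`sh n` makes `P ((n+1)^2) s` of it, equivalent by `ap` (`(n+1)^2 = (n+1) + (n+1) n`,
`Helper96_MWV.pwk`); replace the blocks one after the other: e.g. `cp k c = A ++ (P (n+1) s ++ C)`,
induction along `c` (first block: SPC-like), or: `c` is a concatenation of blocks, `sh n (cp k c)` is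
equivalent to `cp k c` for every suffix of `c` which is a canonical run (induction on the length; the
first letter light or a block).  (3), (4) `RR.filter`, `RR.sub`. -/
def ShwStmt : Prop := ∀ (n : ℕ) (β : FIC) (m : ℕ) (R c : List ℕ), Wo n β → Cn n m c →
  Kx n β R c (Ww R c 1 1) ∧ Ky n β R c (Ww R c 1 1) ∧
  (∀ w w', RR β w w' → Kx n β R c w → Kx n β R c w') ∧
  (∀ w w', RR β w w' → Ky n β R c w → Ky n β R c w')

/-- SPC. The first and the last block of a canonical run.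
PROOF. `c ≠ []` (`1 ≤ m`, `li`).  Let `a` be the first letter.  Light: `A = [a]`, `a ∉ C` by `li`.
Local: by `bl` `c = A' ++ P (n+1) a ++ C` with `a ∉ A'`, so `A' = []`, `A = P (n+1) a`.  `nd C < nd c`:
the letters of `C` are letters of `c`, not `a`.  The last letter in the same way. -/
def SpcStmt : Prop := ∀ (n m : ℕ) (c : List ℕ), Cn n m c → 1 ≤ m →
  (∃ A C : List ℕ, c = A ++ C ∧ (∀ a ∈ A, a ∉ C) ∧ nd C < nd c) ∧
  (∃ C A : List ℕ, c = C ++ A ∧ (∀ a ∈ A, a ∉ C) ∧ nd C < nd c)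

/-- TG1. Blocks and light letters of the target words.
PROOF. `dl 0 (Ww R c 1 1) = Bw (R7 R) B0` with the blocks filtered (`pl0` has no `0`); the identity `Kx` (or
`Ky`) keeps the separators (DEC), and the separators of `w` are those of `sh n (dl 0 w)`, so DCM gives
`w = Bw (R7 R) B ++ t` (`R7 R` is `Nodup`, PER) and
`sh n (dl 0 w) = Bw (R7 R) (fun r => sh n (dl 0 (B r))) ++ sh n (dl 0 t)`.  Light letters: `kp3` for the
letter `3 b + 1`: once in block `0` of `Ww` (in the copy `b % 7`, `Cn.li`) and once in block `b + 1`; `dl`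
and `sh` do not change the number of light letters of a block.  `cn`: `RR.content`: a letter `≡ 1` of
`w` is in `Ww`: in `Lw` it is `cl k (3 d + 1)`, in the places `3 (r - 1) + 1`, `r ∈ R7 R`.  Last part:
`RR.content` for the letters `≡ 0` (the letter which is deleted by `dl` is `0` or `6`). -/
def Tg1Stmt : Prop := ∀ (n : ℕ) (β : FIC) (m : ℕ) (R c w : List ℕ), S7 n β m R c →
  Kx n β R c w ∨ Ky n β R c w →
    ∃ (B : ℕ → List ℕ) (t : List ℕ), w = Bw (R7 R) B ++ t ∧ (∀ r, SFr (B r)) ∧ SFr t ∧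
      (∀ b < 7 * m, ∀ r ∈ R7 R, (B r).count (3 * b + 1) = if r = 0 ∨ r = b + 1 then 1 else 0) ∧
      (∀ b < 7 * m, 3 * b + 1 ∉ t) ∧
      (∀ a ∈ Bw (R7 R) B ++ t, a % 3 = 1 → ∃ b < 7 * m, a = 3 * b + 1) ∧
      (∀ a ∈ Bw (R7 R) B ++ t, a % 3 = 0 → a = 0 ∨ a = 3 ∨ a = 6 ∨ 42 ≤ a)

/-- TG2. The thin letters of the target words.
PROOF. THX: `St n β m (R7 R) (plk κ) c` for all `κ` with `κ (3 d + 1) < 7`.  For `own e k` FUN with
`κ = fun _ => k`, the identity of `Kp`, PJB, PJL: the projected word has the blocks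
`(sh n (B r)).flatMap (pj e 1 κ)`.  The letter `0` of the projection comes exactly from the letters `e`
(a local letter goes to `3 (a / 21) ≥ 6`, `a ≥ 42`; other letters `< 42` are `0, 3, 6` by hypothesis; `sh`
fixes them), so the counts.  Last part: `B 0 = p ++ e :: (U ++ e :: q)`, `b = 7 d + k`: the projection of
block `0` is `p' ++ 0 :: (U' ++ 0 :: q')`, `U' = (sh n U).flatMap (pj e 1 κ)`, FUN and the uniqueness of
the decomposition (exactly two letters `0`): `3 d + 1 ∈ U'`, so a letter of `U` goes to `3 d + 1`: it is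
`3 (7 d + k) + 1` (division by 21).  `own e k` with `k = b % 7 < 7`, `d = b / 7 < m`. -/
def Tg2Stmt : Prop := ∀ (n : ℕ) (β : FIC) (m : ℕ) (R c : List ℕ) (B : ℕ → List ℕ) (t : List ℕ)
  (e : ℕ), S7 n β m R c → (∀ r, SFr (B r)) → SFr t →
    (∀ a ∈ Bw (R7 R) B ++ t, a % 3 = 0 → a = 0 ∨ a = 3 ∨ a = 6 ∨ 42 ≤ a) →
    e = 0 ∨ e = 3 ∨ e = 6 → Kp n β R c (fun a => a = e) (Bw (R7 R) B ++ t) →
      (B 0).count e = 2 ∧ (∀ r ∈ R7 R, r ≠ 0 → e ∉ B r) ∧ e ∉ t ∧
      (∀ p U q : List ℕ, B 0 = p ++ e :: (U ++ e :: q) → ∀ b < 7 * m, own e (b % 7) → 3 * b + 1 ∈ U)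

/-- TG3. A thin letter never encloses another one.
PROOF. `po e < po f`: SPC (first part) `c = A ++ C`, `j = po e < 3`, `κ a = if a ∈ A then j else 3`: by
PJL the projections of the big word are `0 :: (c ++ [0])` for `e` (`po e ≤ j`) and `A ++ 0 :: (C ++ [0])`
for `f` (`j < po f`).  `po f < po e`: SPC (second part) `c = C ++ A`, `j = po f + 4 < 7`: projections
`0 :: (c ++ [0])` for `e`, `0 :: (C ++ 0 :: A)` for `f`.  Let `V` be the projection of `sh n w` with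
`pj e f κ` (`e` goes to `0`, `f` to `3`): `V = Bw (R7 R) (fun r => (sh n (B r)).flatMap (pj e f κ)) ++ ..`
(PJB); `dl 3 V = (sh n w).flatMap (pj e 1 κ)`, `dl 0 V` is `(sh n w).flatMap (pj f 1 κ)` with `0` renamed to
`3`: substitute `0` by `3` in the identity of `Kp` for `f`.  NES with `A`, `C`, `A2 = []` resp. `A = []`,
`C`, `A2`; block `0` of `V` is `.. ++ 3 :: (.. ++ 0 :: (.. ++ 0 :: (.. ++ 3 :: ..)))`; the letter `3` of
`V` comes exactly from `f` (counts from TG2). -/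
def Tg3Stmt : Prop := ∀ (n : ℕ) (β : FIC) (m : ℕ) (R c : List ℕ) (B : ℕ → List ℕ) (t : List ℕ)
  (e f : ℕ), S7 n β m R c → (∀ r, SFr (B r)) → SFr t →
    (∀ a ∈ Bw (R7 R) B ++ t, a % 3 = 0 → a = 0 ∨ a = 3 ∨ a = 6 ∨ 42 ≤ a) →
    e = 0 ∨ e = 3 ∨ e = 6 → f = 0 ∨ f = 3 ∨ f = 6 → e ≠ f →
    Kp n β R c (fun a => a = e ∨ a = f) (Bw (R7 R) B ++ t) →
      ∀ p p' U q' q : List ℕ, B 0 = p ++ f :: (p' ++ e :: (U ++ e :: (q' ++ f :: q))) → False

/-- TGW. The structure of the target words.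
PROOF. TG1, TG2, TG3, PER. -/
def TgwStmt : Prop := ∀ (n : ℕ) (β : FIC) (m : ℕ) (R c w : List ℕ) (E : ℕ → Prop), S7 n β m R c →
  Kx n β R c w ∨ Ky n β R c w → (∀ e, E e → e = 0 ∨ e = 3 ∨ e = 6) → Kp n β R c E w →
    ∃ (B : ℕ → List ℕ) (t : List ℕ), w = Bw (R7 R) B ++ t ∧ Tg m (R7 R) E B t ∧
      (∀ a ∈ Bw (R7 R) B ++ t, a % 3 = 0 → a = 0 ∨ a = 3 ∨ a = 6 ∨ 42 ≤ a)

/-! ## Block 2: the cover -/

/-- LWC. The letters of the main block of the big word.
PROOF. Unfold `Lw`; `cl k a` is injective in `(k, a)` for `k < 7`; counts in `cp k c`. -/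
def LwcStmt : Prop := ∀ (n m a b : ℕ) (c : List ℕ), Cn n m c → 1 ≤ n → 1 ≤ a → 1 ≤ b →
  (∀ d < 7 * m, (Lw a b c).count (3 * d + 1) = 1) ∧
  (∀ s ∈ Lw a b c, s % 3 = 1 → ∃ d < 7 * m, s = 3 * d + 1) ∧
  (∀ s ∈ Lw a b c, s % 3 ≠ 2) ∧
  (∀ s ∈ Lw a b c, s % 3 = 0 → 2 ≤ (Lw a b c).count s) ∧
  (∀ s ∈ Lw a b c, s % 3 = 0 → s = 0 ∨ s = 3 ∨ s = 6 ∨ 42 ≤ s) ∧
  (∀ k < 7, nl (cp k c) = m) ∧
  (∀ k < 7, ∀ s ∈ cp k c, s % 3 = 0 → 42 ≤ s ∧ ∃ X Y, cp k c = X ++ (s :: s :: Y))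

/-- NLC. The number of light letters.
PROOF. The light letters of `w` are different, so `nl w` is the number of `b < 7 m` with
`3 b + 1 ∈ w` (`List.Nodup` of the filtered list, map, `List.Perm`). -/
def NlcStmt : Prop := ∀ (m : ℕ) (w : List ℕ), (∀ a ∈ w, a % 3 = 1 → ∃ b < 7 * m, a = 3 * b + 1) →
  (∀ b < 7 * m, w.count (3 * b + 1) ≤ 1) →
    nl w = ((List.range (7 * m)).filter (fun b => decide (3 * b + 1 ∈ w))).length

/-- CTB. Counting copies.
PROOF. `b ↦ (b / 7, b % 7)`; induction on `m` (seven numbers are added), for each of the three thin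
letters `own e` has four values `k < 7`; the intersections have `4 - dist e f` values. -/
def CtbStmt : Prop := ∀ (m e f : ℕ), e = 0 ∨ e = 3 ∨ e = 6 → f = 0 ∨ f = 3 ∨ f = 6 →
  ((List.range (7 * m)).filter (fun b => decide (own e (b % 7)))).length = 4 * m ∧
  ((List.range (7 * m)).filter (fun b => decide (own e (b % 7) ∧ own f (b % 7)))).length =
    (4 - dist e f) * m ∧
  ((List.range (7 * m)).filter (fun b => decide (own f (b % 7) ∧ ¬ own e (b % 7)))).length =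
    dist e f * m

/-- CVA. The image of the main block of the pattern is in block `0`.
PROOF. Every letter of `Lw` is multiple in the pattern (light letters: once in `Lw` and once in the
place block), so its image has no separators: a separator `3 r + 2` occurs at most once in
`Bw R B ++ t` (`Nodup`, `SFr`).  So `(Lw a b c).flatMap φ` has no separators and is not empty (`e`); FCE:
it lies in a block `r` or in `t`; it contains `e`: `r = 0` (`tb`, `te`). -/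
def CvaStmt : Prop := ∀ (n m : ℕ) (R c : List ℕ) (E : ℕ → Prop) (B : ℕ → List ℕ) (t : List ℕ)
  (a b : ℕ) (M N : List ℕ) (φ : ℕ → List ℕ) (e : ℕ), Cn n m c → 1 ≤ n → 1 ≤ a → 1 ≤ b →
    R.Perm (List.range (m + 1)) → Tg m (R7 R) E B t →
    M ++ ((Ww R c a b).flatMap φ ++ N) = Bw (R7 R) B ++ t → E e → e ∈ (Lw a b c).flatMap φ →
      (∃ α ω : List ℕ, B 0 = α ++ ((Lw a b c).flatMap φ ++ ω)) ∧
      (∀ s ∈ Lw a b c, SFr (φ s))

/-- CVB. The images of the letters of the pattern.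
PROOF. (1) `s % 3 = 0`: `s` occurs twice in `Lw`; a light letter of `φ s` would be twice in block `0`.
(2) `s = 3 d + 1`: a light letter `z = 3 b + 1` of `φ s` occurs once in the image of `Lw` (so in block
`0`, the image of `Lw` is a factor of block `0`) and once in the image of the place of `s`, which is
a factor of the word disjoint from the image of `Lw`; the image `φ s` of the place has no separators,
so by FCE it lies in one block `r` (or in `t`), and `r = b + 1` by `li`, `le` (in block `0` the letter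
`z` would be counted twice: compare the positions, or count `z` in the whole word: it is `2`, one in
block `0`).  If `φ s` has two light letters: equal ones are twice in block `0`; different ones would
have the same block `b + 1 = b' + 1`.  A thin letter `e ∈ φ s` would be in block `b + 1 ≠ 0`. -/
def CvbStmt : Prop := ∀ (n m : ℕ) (R c : List ℕ) (E : ℕ → Prop) (B : ℕ → List ℕ) (t : List ℕ)
  (a b : ℕ) (M N : List ℕ) (φ : ℕ → List ℕ) (e : ℕ), Cn n m c → 1 ≤ n → 1 ≤ a → 1 ≤ b →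
    R.Perm (List.range (m + 1)) → Tg m (R7 R) E B t →
    M ++ ((Ww R c a b).flatMap φ ++ N) = Bw (R7 R) B ++ t → E e → e ∈ (Lw a b c).flatMap φ →
      (∀ s ∈ Lw a b c, s % 3 = 0 → nl (φ s) = 0) ∧
      (∀ s ∈ Lw a b c, s % 3 = 1 → nl (φ s) ≤ 1 ∧ (nl (φ s) = 1 → ∀ f, E f → f ∉ φ s))

/-- the cover of the thin letter `e` by the thin letter `h` of the pattern -/
structure Cv (m : ℕ) (E : ℕ → Prop) (B0 : List ℕ) (φ : ℕ → List ℕ) (α L1 X Y ω : List ℕ)
    (h e : ℕ) : Prop where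
  b0 : B0 = α ++ ((L1 ++ h :: (X ++ h :: Y)).flatMap φ ++ ω)
  c0 : ∀ s ∈ L1 ++ h :: (X ++ h :: Y), s % 3 = 0 → nl (φ s) = 0
  c1 : ∀ s ∈ L1 ++ h :: (X ++ h :: Y), s % 3 = 1 →
    nl (φ s) ≤ 1 ∧ (nl (φ s) = 1 → ∀ f, E f → f ∉ φ s)
  c2 : ∀ s ∈ L1 ++ h :: (X ++ h :: Y), s % 3 ≠ 2
  nx : nl X = 4 * m
  h0 : h % 3 = 0
  ee : E e
  eh : e ∈ φ h

/-- NLF. Light letters of images.
PROOF. Induction on `l`: `nl` is additive. -/
def NlfStmt : Prop := ∀ (φ : ℕ → List ℕ) (l : List ℕ), (∀ s ∈ l, s % 3 ≠ 2) →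
  (∀ s ∈ l, s % 3 = 0 → nl (φ s) = 0) → (∀ s ∈ l, s % 3 = 1 → nl (φ s) ≤ 1) →
    nl (l.flatMap φ) ≤ nl l ∧ (nl (l.flatMap φ) = nl l → ∀ s ∈ l, s % 3 = 1 → nl (φ s) = 1)

/-- CVC. The cover is exact.
PROOF. `e` occurs exactly twice in `B 0` (`tw`), at least twice in the image (`h` occurs twice):
`φ h = ξ1 ++ e :: ξ2` with `e ∉ ξ1, ξ2`, and the displayed decomposition.  `U := ξ2 ++ (X.flatMap φ ++
ξ1)`: `ow` gives `3 b + 1 ∈ U` for `own e (b % 7)`, these are `4 m` numbers (CTB), so `4 m ≤ nl U` (NLC);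
`nl U = nl (X.flatMap φ) ≤ nl X = 4 m` (`c0` for `h`, NLF).  So equality, `nl (φ s) = 1` for the light
letters `s` of `X` (NLF), and the light letters of `U` are exactly those with `own e` (the filtered
sublists of `range (7 m)` have the same length, one is contained in the other). -/
def CvcStmt : Prop := ∀ (m : ℕ) (R : List ℕ) (E : ℕ → Prop) (B : ℕ → List ℕ) (t : List ℕ)
  (φ : ℕ → List ℕ) (α L1 X Y ω : List ℕ) (h e : ℕ), Tg m R E B t →
    Cv m E (B 0) φ α L1 X Y ω h e →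
      ∃ ξ1 ξ2 : List ℕ, φ h = ξ1 ++ e :: ξ2 ∧ nl ξ1 = 0 ∧ nl ξ2 = 0 ∧
        B 0 = (α ++ (L1.flatMap φ ++ ξ1)) ++ e :: ((ξ2 ++ (X.flatMap φ ++ ξ1)) ++
          e :: (ξ2 ++ (Y.flatMap φ ++ ω))) ∧
        e ∉ α ++ (L1.flatMap φ ++ ξ1) ∧ e ∉ ξ2 ++ (X.flatMap φ ++ ξ1) ∧
        e ∉ ξ2 ++ (Y.flatMap φ ++ ω) ∧
        (∀ s ∈ X, s % 3 = 1 → nl (φ s) = 1) ∧ nl (X.flatMap φ) = 4 * m ∧
        (∀ b < 7 * m, 3 * b + 1 ∈ X.flatMap φ ↔ own e (b % 7))

/-- CVD. The other thin letters are covered by letters of `X`.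
PROOF. CVC.  (1) `f ∉ φ h`: otherwise `φ h = ζ1 ++ f :: ζ2`, `f` is twice in `B 0`, so
`B 0 = p ++ f :: ((ζ2 ++ (X.flatMap φ ++ ζ1)) ++ f :: q)`, by `ow` for `f` all `3 b + 1` with `own f` are
between, so in `X.flatMap φ` (`nl (φ h) = 0`), so `own f (b % 7) → own e (b % 7)` for `b < 7 m`: false
for `f ≠ e` and `m ≥ 1` (`b = k` with `own f k`, not `own e k`: CTB third part is positive).
(2) `f ∈ X.flatMap φ`: otherwise no `f` is between the two `e` of `B 0`.  Both `f` before the first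
`e` or both after the second one: the letters between them are outside `U`, but `3 * 3 + 1` (copy `3`,
`own e 3`, `own f 3`, `b = 3`) is between both pairs, and it is once in `B 0`.  One before, one after:
`ns`.
(3) `s ∈ X`, `f ∈ φ s`: not light by CVC and `c1`. -/
def CvdStmt : Prop := ∀ (m : ℕ) (R : List ℕ) (E : ℕ → Prop) (B : ℕ → List ℕ) (t : List ℕ)
  (φ : ℕ → List ℕ) (α L1 X Y ω : List ℕ) (h e f : ℕ), 1 ≤ m → Tg m R E B t →
    Cv m E (B 0) φ α L1 X Y ω h e → E f → f ≠ e →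
      f ∉ φ h ∧ f ∈ X.flatMap φ ∧ ∀ s ∈ X, f ∈ φ s → s % 3 = 0

/-- CVE. Local letters do not cover thin letters.
PROOF. `f ∈ φ s`: `B 0 = p ++ (φ s ++ (φ s ++ q))`, `f` twice: the word between the two `f` is contained in
`φ s ++ φ s`, so it has no light letters (`c0`); but `ow` for `f` (`b = 3`, `own f 3`, `1 ≤ m`) gives a
light letter. -/
def CveStmt : Prop := ∀ (m : ℕ) (R : List ℕ) (E : ℕ → Prop) (B : ℕ → List ℕ) (t : List ℕ)
  (φ : ℕ → List ℕ) (p q : List ℕ) (s f : ℕ), 1 ≤ m → Tg m R E B t → E f → nl (φ s) = 0 →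
    B 0 = p ++ (φ s ++ (φ s ++ q)) → f ∉ φ s

/-- CVR. Distances, right.
PROOF. `f` occurs twice in `B 0`, once in the image `φ g = ζ1 ++ f :: ζ2` of the letter `g` of `X` and once
in the image of the letter `g` of `Y`.  (1) The light letters of `X1.flatMap φ` are before the first
`f` and `nl (X1.flatMap φ) = nl X1` (CVC); the light letters `3 b + 1` with `own e` and `own f` are in
`X.flatMap φ` (CVC) and after the first `f` (`ow` for `f`), so in `X2.flatMap φ` (`nl (φ g) = 0`): CTB,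
NLC: `(4 - dist) m ≤ nl (X2.flatMap φ)`; `nl (X1.flatMap φ) + nl (X2.flatMap φ) = 4 m`.  So
`nl X1 + (4 - dist e f) * m ≤ 4 * m`.  (2) The light letters with `own f`, not `own e`, are between the
two `f` and not in `X.flatMap φ`, so in `Y1.flatMap φ` (the word between the two `f` is
`ζ2 ++ X2^φ ++ φ h ++ Y1^φ ++ ζ1`): `dist e f * m ≤ nl (Y1.flatMap φ) ≤ nl Y1` (NLF). -/
def CvrStmt : Prop := ∀ (m : ℕ) (R : List ℕ) (E : ℕ → Prop) (B : ℕ → List ℕ) (t : List ℕ)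
  (φ : ℕ → List ℕ) (α L1 X1 X2 Y1 Y2 ω : List ℕ) (h e f g : ℕ), 1 ≤ m → Tg m R E B t →
    Cv m E (B 0) φ α L1 (X1 ++ g :: X2) (Y1 ++ g :: Y2) ω h e → E f → f ≠ e → g % 3 = 0 →
      f ∈ φ g → nl X1 + (4 - dist e f) * m ≤ 4 * m ∧ dist e f * m ≤ nl Y1

/-- CVL. Distances, left (mirror image of the first part of CVR).
PROOF. `f` occurs once in the image of the letter `g` of `L1` and once in the image of the letter `g`
of `X`; the light letters with `own e` and `own f` are in `X.flatMap φ` and before the last `f`, so in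
`X1.flatMap φ`; `nl (X2.flatMap φ) = nl X2`. -/
def CvlStmt : Prop := ∀ (m : ℕ) (R : List ℕ) (E : ℕ → Prop) (B : ℕ → List ℕ) (t : List ℕ)
  (φ : ℕ → List ℕ) (α L2 L3 X1 X2 Y ω : List ℕ) (h e f g : ℕ), 1 ≤ m → Tg m R E B t →
    Cv m E (B 0) φ α (L2 ++ g :: L3) (X1 ++ g :: X2) Y ω h e → E f → f ≠ e → g % 3 = 0 →
      f ∈ φ g → nl X2 + (4 - dist e f) * m ≤ 4 * m

/-- CVX. Covers by `x`.
PROOF. Suppose `e ∈ φ 0`.  CVA, CVB with `a = 1`; `Cv` with `h = 0`, `L1 = []`,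
`X = c⁰ u c¹ c² y^b c³`, `Y = c⁴ u c⁵ c⁶ y^b` (LWC: `nl (cp k c) = m`, `nl [3] = nl (P b 6) = 0`).
Choose `f`: if `e = 0` or `e = 3` then `f = 6`, if `e = 6` then `f = 3`; `E f`.  CVD: `f ∈ φ s`, `s ∈ X`,
`s % 3 = 0`: `s` local: CVE with LWC (last part): no.  `s = 6`: if `2 ≤ b`, `6` occurs at least four
times in `Lw`, so `f` four times in `B 0`: no (`tw`); if `b = 1`: `E` has only `3`, `6`, so `dist e f = 2`;
CVR with `g = 6`, `nl X1 = 3 m`: `3 m + 2 m ≤ 4 m`: no.  `s = 3`: CVR with `X1 = c⁰`, `Y1 = c⁴`: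
`dist e f * m ≤ m`, but `dist e f = 2` or `3`: no (`dist 0 6 = 3`, `dist 3 6 = 2`). -/
def CvxStmt : Prop := ∀ (n m : ℕ) (R c : List ℕ) (E : ℕ → Prop) (B : ℕ → List ℕ) (t : List ℕ)
  (b : ℕ) (M N : List ℕ) (φ : ℕ → List ℕ), Cn n m c → 1 ≤ n → 1 ≤ m → 1 ≤ b →
    R.Perm (List.range (m + 1)) → Tg m (R7 R) E B t →
    M ++ ((Ww R c 1 b).flatMap φ ++ N) = Bw (R7 R) B ++ t → E 3 → E 6 → (b = 1 → ¬ E 0) →
      ∀ e, E e → e ∉ φ 0

/-- CVY. Covers by `y`.
PROOF. Suppose `e ∈ φ 6`, `e = 0` or `e = 3`.  `Cv` with `h = 6`, `L1 = x c⁰ u c¹ c²`,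
`X = c³ x c⁴ u c⁵ c⁶`, `Y = []`.  `f` is the other one of `0`, `3`, `dist e f = 1`.  CVD: `f ∈ φ s`, `s ∈ X`: not
local (CVE), so `s = 0` or `s = 3`: CVL with `X2 = c⁴ u c⁵ c⁶` (`3 m`) or `X2 = c⁵ c⁶` (`2 m`):
`2 m + 3 m ≤ 4 m`: no. -/
def CvyStmt : Prop := ∀ (n m : ℕ) (R c : List ℕ) (E : ℕ → Prop) (B : ℕ → List ℕ) (t : List ℕ)
  (M N : List ℕ) (φ : ℕ → List ℕ), Cn n m c → 1 ≤ n → 1 ≤ m →
    R.Perm (List.range (m + 1)) → Tg m (R7 R) E B t →
    M ++ ((Ww R c 1 1).flatMap φ ++ N) = Bw (R7 R) B ++ t → (∀ e, E e ↔ e = 0 ∨ e = 3) →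
      ∀ e, E e → e ∉ φ 6

/-! ## Block 3: the steps and the pentagon -/

/-- SWX. The positions of `x` and `y` in the big words.
PROOF. `R7 R = R1 ++ 0 :: R2` with `0 ∉ R1, R2` (PER), unfold `Ww`, `Bp`, `Bw`, `Lw`; the letters of `cp k c`
are `≥ 42` or `≡ 1`, the separators are `≡ 2`. -/
def SwxStmt : Prop := ∀ (n m : ℕ) (R c : List ℕ) (b : ℕ), R.Perm (List.range (m + 1)) → Cn n m c →
  (∃ A C D : List ℕ, 0 ∉ A ∧ 0 ∉ C ∧ 0 ∉ D ∧
    ∀ a, Ww R c a b = A ++ (P a 0 ++ (C ++ (P a 0 ++ D)))) ∧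
  (∃ A C D : List ℕ, 6 ∉ A ∧ 6 ∉ C ∧ 6 ∉ D ∧
    ∀ a, Ww R c b a = A ++ (P a 6 ++ (C ++ (P a 6 ++ D))))

/-- NSL. The images of `x` and `y` have no separators and no light letters.
PROOF. Letters of `Lw` are multiple in the pattern, so their images have no separators (a separator
occurs at most once in `Bw (R7 R) B ++ t`).  Let `h = 0` or `6`, exponent `a'`, and let the light letter
`z = 3 b' + 1` be in `φ h`: `z` occurs exactly twice in the word, in the blocks `0` and `b' + 1` (`li`,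
`le`), so between the two letters `z` there is a separator; but if `h` has exponent `1`, `z` is once
in each image of `h`, and the word between them consists of parts of `φ h` and of images of letters
of `Lw`; if the exponent is at least `2`, `z` occurs four times. -/
def NslStmt : Prop := ∀ (n m : ℕ) (R c : List ℕ) (E : ℕ → Prop) (B : ℕ → List ℕ) (t : List ℕ)
  (a b : ℕ) (M N : List ℕ) (φ : ℕ → List ℕ), Cn n m c → 1 ≤ n → 1 ≤ a → 1 ≤ b →
    R.Perm (List.range (m + 1)) → Tg m (R7 R) E B t →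
    M ++ ((Ww R c a b).flatMap φ ++ N) = Bw (R7 R) B ++ t →
      (∀ s ∈ φ 0, s % 3 = 0) ∧ (∀ s ∈ φ 6, s % 3 = 0)

/-- PWX. The power of a word of local letters is absorbed by `sh`.
PROOF. SWX: `(Ww R c a b).flatMap φ = A^φ ++ pwd a ξ0 ++ C^φ ++ pwd a ξ0 ++ D^φ`, `ξ0 = φ 0`; after `dl 0` and
`sh n` the word `ξ0` becomes `hp n ξ` with `ξ = dl 0 ξ0` (all letters of `ξ` are local, `≥ 42`), and
`pwd (n+1) (hp n ξ)` is equivalent to `hp n ξ`: `Helper96_MWV.pwd_hp` (`ap`, `cm`).  So for `a = 1` and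
`a = n + 1` the words are equivalent.  The same for `y`: `dl 6`, `φ 6`. -/
def PwxStmt : Prop := ∀ (n : ℕ) (β : FIC) (m : ℕ) (R c : List ℕ) (a a' b : ℕ) (M N : List ℕ)
  (φ : ℕ → List ℕ), Wo n β → R.Perm (List.range (m + 1)) → Cn n m c →
    (a = 1 ∨ a = n + 1) → (a' = 1 ∨ a' = n + 1) →
  (∀ d : ℕ, (∀ s ∈ φ 0, s = d ∨ (s % 3 = 0 ∧ 42 ≤ s)) →
    RR β (sh n (dl d (M ++ ((Ww R c a b).flatMap φ ++ N))))
      (sh n (dl d (M ++ ((Ww R c a' b).flatMap φ ++ N))))) ∧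
  (∀ d : ℕ, (∀ s ∈ φ 6, s = d ∨ (s % 3 = 0 ∧ 42 ≤ s)) →
    RR β (sh n (dl d (M ++ ((Ww R c b a).flatMap φ ++ N))))
      (sh n (dl d (M ++ ((Ww R c b a').flatMap φ ++ N)))))

/-- STX. A step with `x` keeps `Kx`.
PROOF. Let `w = M ++ ((Ww R c a 1).flatMap φ ++ N)` with `Kx n β R c w`.  TGW with `E = {3, 6}` (KPJ):
`w = Bw (R7 R) B ++ t`.  `3, 6 ∉ φ 0`: `a = 1`: CVX with `b = 1`.  `a = n + 1`: `e ∈ φ 0` would occur at
least `2 (n + 1) ≥ 4` times in `w` (SWX), but `tw`, `tb`, `te`: twice.  NSL and the last part of TGW: the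
letters of `φ 0` are `0` or local `≥ 42`.  PWX with `d = 0`. -/
def StxStmt : Prop := ∀ (n : ℕ) (β : FIC) (m : ℕ) (R c : List ℕ) (a a' : ℕ) (M N : List ℕ)
  (φ : ℕ → List ℕ), S7 n β m R c → (a = 1 ∨ a = n + 1) → (a' = 1 ∨ a' = n + 1) →
    Kx n β R c (M ++ ((Ww R c a 1).flatMap φ ++ N)) →
      Kx n β R c (M ++ ((Ww R c a' 1).flatMap φ ++ N))

/-- STY. A step with `y` keeps `Ky`.
PROOF. As STX with `E = {0, 3}`, CVY, `φ 6`, `d = 6`. -/
def StyStmt : Prop := ∀ (n : ℕ) (β : FIC) (m : ℕ) (R c : List ℕ) (a a' : ℕ) (M N : List ℕ)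
  (φ : ℕ → List ℕ), S7 n β m R c → (a = 1 ∨ a = n + 1) → (a' = 1 ∨ a' = n + 1) →
    Ky n β R c (M ++ ((Ww R c 1 a).flatMap φ ++ N)) →
      Ky n β R c (M ++ ((Ww R c 1 a').flatMap φ ++ N))

/-- STB. A step with `x` and thick `y` keeps `Kx` and `Ky`.
PROOF. TGW with `E = {0, 3, 6}` (KPJ for both classes).  `0, 3, 6 ∉ φ 0`: `a = 1`: CVX with `b = n + 1`;
`a = n + 1`: counts.  NSL, TGW: the letters of `φ 0` are local `≥ 42`; PWX with `d = 0` and `d = 6`. -/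
def StbStmt : Prop := ∀ (n : ℕ) (β : FIC) (m : ℕ) (R c : List ℕ) (a a' : ℕ) (M N : List ℕ)
  (φ : ℕ → List ℕ), S7 n β m R c → (a = 1 ∨ a = n + 1) → (a' = 1 ∨ a' = n + 1) →
    Kx n β R c (M ++ ((Ww R c a (n + 1)).flatMap φ ++ N)) →
    Ky n β R c (M ++ ((Ww R c a (n + 1)).flatMap φ ++ N)) →
      Kx n β R c (M ++ ((Ww R c a' (n + 1)).flatMap φ ++ N)) ∧
      Ky n β R c (M ++ ((Ww R c a' (n + 1)).flatMap φ ++ N))

/-- NW4. The word with thick `x` is not in `Ky`.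
PROOF. `sh`, `dl 6`; project `Ky n β R c (Ww R c (n+1) 1)` with `pj 0 1 (fun _ => 0)`: the left side is
`Bp (R7 R) (plk _) (0 :: (c ++ [0]))` (PJB, PJL), the right side is
`Bp (R7 R) (plk _) (P (n+1) 0 ++ (c' ++ P (n+1) 0))` with `c' = c` where blocks `P (n+1) a` are
`P ((n+1)^2) a`, equivalent to `c` (as SHW); so `Th n β (R7 R) (plk _) c`, THX: `Th n β R pl0 c`. -/
def Nw4Stmt : Prop := ∀ (n : ℕ) (β : FIC) (m : ℕ) (R c : List ℕ), S7 n β m R c →
  ¬ Ky n β R c (Ww R c (n + 1) 1)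

/-- PNT. The pentagon.
PROOF. GEN: `ρ = β + (w2, w3)`, `σ = β + (w1, w2)`, `τ = β + (w1, w4)`, `w1 = Ww 1 1`, `w2 = Ww 1 (n+1)`,
`w3 = Ww (n+1) (n+1)`, `w4 = Ww (n+1) 1`.  `ρ ≤ τ`: substitute `6` by `P (n+1) 6` in `(w1, w4)`.  `(w4, w3)` is
in `σ`: substitute `0` by `P (n+1) 0` in `(w1, w2)`.  PEN with `A = Kx and Ky`, `B = Ky`, `C = Kx`; closed
under `β`: SHW; the generators: STB, STY, STX (both directions: `a`, `a'` exchanged);
`A w1`: SHW, not `A w4`: NW4; `(w1, w4)` in `τ` and, by `w1 σ w2 ρ w3 σ w4`, in `sup ρ σ`. -/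
def PntStmt : Prop := ∀ (n : ℕ) (β : FIC) (m : ℕ) (R c : List ℕ), ¬ S7 n β m R c

end Pool.Agent.MWTQ
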