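import Mathlib
import Pool.Agent.Helper96_MWQ.Stmts

/-!
# Row mwt TG2: the thin letters of the target words
-/

set_option autoImplicit false

namespace Pool.Agent.MWTQ.H95

open Pool.Agent.Helper14_MV Pool.Agent.Helper2_MV Pool.Agent.MVD Pool.Agent.MWTQ

theorem tBw_cons (r : ℕ) (R : List ℕ) (B : ℕ → List ℕ) :
    Bw (r :: R) B = B r ++ (3 * r + 2) :: Bw R B := by
  unfold Bw
  rw [List.flatMap_cons]
  simp

theorem sh_append (n : ℕ) (l l' : List ℕ) : sh n (l ++ l') = sh n l ++ sh n l' := by
  unfold sh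
  rw [List.flatMap_append]

theorem sh_cons (n : ℕ) (a : ℕ) (l : List ℕ) :
    sh n (a :: l) = (if a % 3 = 0 ∧ 42 ≤ a then P (n + 1) a else [a]) ++ sh n l := by
  unfold sh
  rw [List.flatMap_cons]

theorem sh_Bw (n : ℕ) (R : List ℕ) (B : ℕ → List ℕ) :
    sh n (Bw R B) = Bw R (fun r => sh n (B r)) := by
  induction R with
  | nil => rfl
  | cons r R ih =>
    rw [tBw_cons, tBw_cons, sh_append, sh_cons, ih, if_neg (by omega)]
    rfl

theorem mem_sh {n a : ℕ} {l : List ℕ} (h : a ∈ sh n l) : a ∈ l := by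
  unfold sh at h
  obtain ⟨d, hd, h1⟩ := List.mem_flatMap.1 h
  split_ifs at h1
  · rw [(List.mem_replicate.1 h1).2]
    exact hd
  · rw [List.mem_singleton.1 h1]
    exact hd

theorem sf_sh {n : ℕ} {l : List ℕ} (h : SFr l) : SFr (sh n l) := fun a ha => h a (mem_sh ha)

/-- the letters `0` of the projection come from the letters `e` -/
theorem cnt0 (n : ℕ) {e : ℕ} (he : e = 0 ∨ e = 3 ∨ e = 6) (κ : ℕ → ℕ) (l : List ℕ)
    (hl : ∀ a ∈ l, a % 3 = 0 → a = 0 ∨ a = 3 ∨ a = 6 ∨ 42 ≤ a) :
    ((sh n l).flatMap (pj e 1 κ)).count 0 = l.count e := by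
  induction l with
  | nil => rfl
  | cons a l ih =>
    rw [sh_cons, List.flatMap_append, List.count_append, ih (fun b hb => hl b (by simp [hb])),
      List.count_cons]
    have h1 := hl a (by simp)
    have key : ((if a % 3 = 0 ∧ 42 ≤ a then P (n + 1) a else [a]).flatMap (pj e 1 κ)).count 0 =
        if a = e then 1 else 0 := by
      by_cases h3 : a % 3 = 0
      · by_cases h42 : 42 ≤ a
        · rw [if_pos ⟨h3, h42⟩, if_neg (by omega), List.count_eq_zero]
          intro h
          obtain ⟨d, hd, h2⟩ := List.mem_flatMap.1 h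
          rw [(List.mem_replicate.1 hd).2] at h2
          unfold pj at h2
          rw [if_pos h3, if_neg (by omega)] at h2
          split_ifs at h2
          · rw [List.mem_singleton] at h2
            omega
          · simp at h2
        · rw [if_neg (by omega), List.flatMap_cons, List.flatMap_nil, List.append_nil]
          unfold pj
          rw [if_pos h3, if_pos (by omega)]
          by_cases hae : a = e
          · rw [if_pos hae, if_pos hae]
            rfl
          · rw [if_neg hae, if_neg hae, if_neg (by omega)]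
            rfl
      · rw [if_neg (by omega), if_neg (by omega), List.flatMap_cons, List.flatMap_nil,
          List.append_nil, List.count_eq_zero]
        intro h2
        unfold pj at h2
        rw [if_neg h3] at h2
        split_ifs at h2
        · rw [List.mem_singleton] at h2
          omega
        · simp at h2
        · rw [List.mem_singleton] at h2
          omega
    rw [key]
    by_cases hae : a = e
    · rw [if_pos hae, if_pos (by simp [hae])]
      omega
    · rw [if_neg hae, if_neg (by simp [hae])]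
      omega

theorem po_le {e : ℕ} (he : e = 0 ∨ e = 3 ∨ e = 6) : po e ≤ 3 := by
  rcases he with rfl | rfl | rfl <;> decide

theorem cut0 {p U q p' U' q' : List ℕ} (h : p ++ 0 :: (U ++ 0 :: q) = p' ++ 0 :: (U' ++ 0 :: q'))
    (h1 : 0 ∉ p) (h2 : 0 ∉ U) (h1' : 0 ∉ p') (h2' : 0 ∉ U') : U = U' := by
  have hA : ∀ {X Y X' Y' : List ℕ}, 0 ∉ X → 0 ∉ X' → X ++ 0 :: Y = X' ++ 0 :: Y' →
      X = X' ∧ Y = Y' := by
    intro X
    induction X with
    | nil =>
      intro Y X' Y' _ hX' h
      cases X' with
      | nil => exact ⟨rfl, (List.cons.inj h).2⟩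
      | cons a X' =>
        exfalso
        apply hX'
        rw [← (List.cons.inj h).1]
        simp
    | cons a X ih =>
      intro Y X' Y' hX hX' h
      cases X' with
      | nil =>
        exfalso
        apply hX
        rw [(List.cons.inj h).1]
        simp
      | cons b X' =>
        have h3 := List.cons.inj h
        have h4 := ih (fun h => hX (by simp [h])) (fun h => hX' (by simp [h])) h3.2
        exact ⟨by rw [h3.1, h4.1], h4.2⟩
  have h3 := hA h1 h1' h
  exact (hA h2 h2' h3.2).1

theorem tg2 (hPJB : PjbStmt) (hPJL : PjlStmt) (hPER : PerStmt) : Tg2Stmt := by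
  intro n β m R c B t e hS hB ht hlet he hK
  obtain ⟨hnd, h0R, hbR, -⟩ := hPER m R hS.pR
  have hpo := po_le he
  -- the projections
  have main : ∀ k, own e k → ∃ p U q : List ℕ,
      (sh n (B 0)).flatMap (pj e 1 (fun _ => k)) = p ++ 0 :: (U ++ 0 :: q) ∧ 0 ∉ p ∧ 0 ∉ U ∧
        0 ∉ q ∧ (∀ a ∈ c, a ∈ U) ∧
        (∀ r ∈ R7 R, r ≠ 0 → 0 ∉ (sh n (B r)).flatMap (pj e 1 (fun _ => k))) ∧
          0 ∉ (sh n t).flatMap (pj e 1 (fun _ => k)) := by
    intro k hk
    have hk7 : k < 7 := by
      have := hk.2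
      omega
    have h1 := hK e rfl (fun _ => k)
    unfold Ww at h1
    rw [(hPJB e 1 (fun _ => k)).2.2, (hPJL n m c e hS.cn he).1 k hk, sh_append, sh_Bw,
      (hPJB e 1 (fun _ => k)).1] at h1
    obtain ⟨⟨p, U, q, e1, e2, e3, e4, e5, -⟩, e6, e7⟩ := hS.fu k hk7
      (fun r => (sh n (B r)).flatMap (pj e 1 (fun _ => k)))
      ((sh n t).flatMap (pj e 1 (fun _ => k)))
      (fun r => (hPJB e 1 (fun _ => k)).2.1 _ (sf_sh (hB r)))
      ((hPJB e 1 (fun _ => k)).2.1 _ (sf_sh ht)) h1
    exact ⟨p, U, q, e1, e2, e3, e4, e5, e6, e7⟩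
  have hletB : ∀ r ∈ R7 R, ∀ a ∈ B r, a % 3 = 0 → a = 0 ∨ a = 3 ∨ a = 6 ∨ 42 ≤ a := by
    intro r hr a ha h3
    refine hlet a (List.mem_append_left _ ?_) h3
    unfold Bw
    exact List.mem_flatMap.2 ⟨r, hr, List.mem_append_left _ ha⟩
  have hlett : ∀ a ∈ t, a % 3 = 0 → a = 0 ∨ a = 3 ∨ a = 6 ∨ 42 ≤ a := fun a ha h3 =>
    hlet a (List.mem_append_right _ ha) h3
  have hown : own e (po e) := ⟨le_refl _, by omega⟩
  obtain ⟨p, U, q, e1, e2, e3, e4, e5, e6, e7⟩ := main (po e) hown
  have hc0 := cnt0 n he (fun _ => po e) (B 0) (hletB 0 h0R)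
  rw [e1, List.count_append, List.count_cons_self, List.count_append, List.count_cons_self,
    List.count_eq_zero_of_not_mem e2, List.count_eq_zero_of_not_mem e3,
    List.count_eq_zero_of_not_mem e4] at hc0
  have hcnt : (B 0).count e = 2 := by omega
  refine ⟨hcnt, ?_, ?_, ?_⟩
  · intro r hr hr0
    have h1 := cnt0 n he (fun _ => po e) (B r) (hletB r hr)
    rw [List.count_eq_zero_of_not_mem (e6 r hr hr0)] at h1
    exact List.count_eq_zero.1 h1.symm
  · have h1 := cnt0 n he (fun _ => po e) t hlett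
    rw [List.count_eq_zero_of_not_mem e7] at h1
    exact List.count_eq_zero.1 h1.symm
  · intro p1 U1 q1 hB0 b hb hob
    obtain ⟨p, U, q, f1, f2, f3, f4, f5, -, -⟩ := main (b % 7) hob
    have hfe : ∀ l : List ℕ, (sh n (e :: l)).flatMap (pj e 1 (fun _ => b % 7)) =
        0 :: (sh n l).flatMap (pj e 1 (fun _ => b % 7)) := by
      intro l
      rw [sh_cons, if_neg (by omega), List.flatMap_append, List.flatMap_cons, List.flatMap_nil,
        List.append_nil]
      have h1 : pj e 1 (fun _ => b % 7) e = [0] := by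
        unfold pj
        rw [if_pos (by omega), if_pos (by omega), if_pos rfl]
      rw [h1]
      rfl
    have hlets : ∀ a ∈ p1 ++ e :: (U1 ++ e :: q1), a % 3 = 0 → a = 0 ∨ a = 3 ∨ a = 6 ∨ 42 ≤ a := by
      rw [← hB0]
      exact hletB 0 h0R
    have g1 := cnt0 n he (fun _ => b % 7) p1 (fun a ha => hlets a (by simp [ha]))
    have g2 := cnt0 n he (fun _ => b % 7) U1 (fun a ha => hlets a (by simp [ha]))
    have hc2 := hcnt
    rw [hB0, List.count_append, List.count_cons_self, List.count_append,
      List.count_cons_self] at hc2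
    have z1 : 0 ∉ (sh n p1).flatMap (pj e 1 (fun _ => b % 7)) :=
      List.count_eq_zero.1 (by rw [g1]; omega)
    have z2 : 0 ∉ (sh n U1).flatMap (pj e 1 (fun _ => b % 7)) :=
      List.count_eq_zero.1 (by rw [g2]; omega)
    rw [hB0, sh_append, List.flatMap_append, hfe, sh_append, List.flatMap_append, hfe] at f1
    have hU := cut0 f1 z1 z2 f2 f3
    have hd : b / 7 < m := by omega
    have hdc : 3 * (b / 7) + 1 ∈ c := List.count_pos_iff.1 (by rw [hS.cn.li _ hd]; omega)
    have h1 := f5 _ hdc
    rw [← hU] at h1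
    obtain ⟨a, ha, h2⟩ := List.mem_flatMap.1 h1
    have ha' := mem_sh ha
    have h3 : a = 3 * b + 1 := by
      unfold pj at h2
      by_cases a3 : a % 3 = 0
      · rw [if_pos a3] at h2
        split_ifs at h2 <;> simp at h2 <;> omega
      · rw [if_neg a3] at h2
        by_cases a1 : a % 3 = 1
        · rw [if_pos a1] at h2
          split_ifs at h2 with h4
          · rw [List.mem_singleton] at h2
            have h5 : b % 7 = a / 3 % 7 := h4
            omega
          · simp at h2
        · rw [if_neg a1, List.mem_singleton] at h2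
          omega
    rw [← h3]
    exact ha'

end Pool.Agent.MWTQ.H95
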