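import Pool.Agent.Helper96_MWQ.TG3N
import Pool.Agent.Helper96_MWQ.H10_PER
import Pool.Agent.Helper96_MWQ.H77_THX
import Pool.Agent.Helper96_MWQ.H27_PJB
import Pool.Agent.Helper96_MWQ.H52_PJL
import Pool.Agent.Helper96_MWQ.H1_KPJ
import Pool.Agent.Helper96_MWQ.H89_SHW
import Pool.Agent.Helper96_MWQ.H62_SPC
import Pool.Agent.Helper96_MWQ.H85_TG1
import Pool.Agent.Helper96_MWQ.H95_TG2
import Pool.Agent.Helper96_MWQ.H43_TGW
import Pool.Agent.Helper96_MWQ.H49_LWC
import Pool.Agent.Helper96_MWQ.H81_NLC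
import Pool.Agent.Helper96_MWQ.H59_CTB
import Pool.Agent.Helper96_MWQ.H19_CVA
import Pool.Agent.Helper96_MWQ.H28_CVB
import Pool.Agent.Helper96_MWQ.H2_NLF
import Pool.Agent.Helper96_MWQ.H73_CVC
import Pool.Agent.Helper96_MWQ.H50_CVD
import Pool.Agent.Helper96_MWQ.H15_CVE
import Pool.Agent.Helper96_MWQ.H61_CVR
import Pool.Agent.Helper96_MWQ.H30_CVL
import Pool.Agent.Helper96_MWQ.H34_CVX
import Pool.Agent.Helper96_MWQ.H26_CVY
import Pool.Agent.Helper96_MWQ.H19_SWX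
import Pool.Agent.Helper96_MWQ.H36_NSL
import Pool.Agent.Helper96_MWQ.H47_PWX
import Pool.Agent.Helper96_MWQ.H80_STX
import Pool.Agent.Helper96_MWQ.H23_STY
import Pool.Agent.Helper96_MWQ.H23_STB
import Pool.Agent.Helper96_MWQ.H92_NW4
import Pool.Agent.Helper96_MWQ.H79_PNT

/-!
# Squad MWTQ: composition

Thin runs over `x²y² ≈ y²x²`, `xtxsx ≈ x^(n+1)tx^(n+1)sx^(n+1)`: there is no word which satisfies the
situation `S7`.
-/

set_option autoImplicit false

namespace Pool.Agent.MWTQ.H11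

open Pool.Agent.Helper14_MV Pool.Agent.Helper2_MV Pool.Agent.MVD Pool.Agent.MWTQ

theorem perF : PerStmt := H10.per
theorem thxF : ThxStmt := H77.thx perF
theorem pjbF : PjbStmt := H27.pjb
theorem pjlF : PjlStmt := H52.pjl
theorem kpjF : KpjStmt := H1.kpj
theorem shwF : ShwStmt := H89.shw
theorem spcF : SpcStmt := H62.spc
theorem tg1F : Tg1Stmt := H85.tg1 perF
theorem tg2F : Tg2Stmt := H95.tg2 pjbF pjlF perF
theorem tg3F : Tg3Stmt := tg3n pjbF pjlF perF
theorem tgwF : TgwStmt := H43.tgw tg1F tg2F tg3F perF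
theorem lwcF : LwcStmt := H49.lwc
theorem nlcF : NlcStmt := H81.nlc
theorem ctbF : CtbStmt := H59.ctb
theorem cvaF : CvaStmt := H19.cva perF lwcF
theorem cvbF : CvbStmt := H28.cvb perF lwcF cvaF
theorem nlfF : NlfStmt := H2.nlf
theorem cvcF : CvcStmt := H73.cvc nlcF ctbF nlfF
theorem cvdF : CvdStmt := H50.cvd cvcF ctbF
theorem cveF : CveStmt := H15.cve
theorem cvrF : CvrStmt := H61.cvr cvcF cvdF ctbF nlcF nlfF
theorem cvlF : CvlStmt := H30.cvl cvcF cvdF ctbF nlcF nlfF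
theorem cvxF : CvxStmt := H34.cvx lwcF cvaF cvbF cvdF cveF cvrF
theorem cvyF : CvyStmt := H26.cvy lwcF cvaF cvbF cvdF cveF cvlF
theorem swxF : SwxStmt := H19.swx perF
theorem nslF : NslStmt := H36.nsl perF lwcF
theorem pwxF : PwxStmt := H47.pwx swxF
theorem stxF : StxStmt := H80.stx tgwF kpjF cvxF swxF nslF pwxF
theorem styF : StyStmt := H23.sty tgwF kpjF cvyF swxF nslF pwxF
theorem stbF : StbStmt := H23.stb tgwF kpjF cvxF swxF nslF pwxF
theorem nw4F : Nw4Stmt := H92.nw4 pjbF pjlF thxF shwF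

/-- **No word is in the situation of the induction step.** -/
theorem pntF : PntStmt := H79.pnt swxF shwF stxF styF stbF nw4F

end Pool.Agent.MWTQ.H11
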