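import Pool.Agent.Helper96_MWQ.Defs
import Pool.Agent.Helper96_MWV.Comp
import Pool.Agent.Helper11_MWE.TRGb
import Pool.Agent.Helper10_MWE.BAS

/-!
# Squad MWTQ: basic facts about the words of the class of a thin run
-/

set_option autoImplicit false

namespace Pool.Agent.MWTQ.H11

open Pool.Agent.Helper14_MV Pool.Agent.Helper2_MV Pool.Agent.MVD Pool.Agent.MWTQ

variable {n m : ℕ} {β : FIC} {R c : List ℕ} {pl : ℕ → List ℕ}

theorem tr {a b d : List ℕ} (h : RR β a b) (h' : RR β b d) : RR β a d := β.trans h h'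

/-- heavy letters -/
def Hm : ℕ → Bool := fun b => decide (b % 3 = 0 ∧ 6 ≤ b)

theorem hm_iff {b : ℕ} : Hm b = true ↔ (b % 3 = 0 ∧ 6 ≤ b) := by
  unfold Hm
  rw [decide_eq_true_eq]

theorem hm_f {b : ℕ} : Hm b = false ↔ ¬ (b % 3 = 0 ∧ 6 ≤ b) := by
  unfold Hm
  rw [decide_eq_false_iff_not]

/-- blocks -/
def Bb (pl : ℕ → List ℕ) (L : List ℕ) : ℕ → List ℕ := fun r => if r = 0 then L else pl r

theorem bp_eq (R : List ℕ) (pl : ℕ → List ℕ) (L : List ℕ) : Bp R pl L = Bw R (Bb pl L) := rfl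

theorem bw_congr {B B' : ℕ → List ℕ} : ∀ {R : List ℕ}, (∀ r ∈ R, RR β (B r) (B' r)) →
    RR β (Bw R B) (Bw R B')
  | [], _ => RR.refl _
  | a :: R, h => by
    have h1 := h a List.mem_cons_self
    have h2 := bw_congr (R := R) (fun r hr => h r (List.mem_cons_of_mem _ hr))
    exact (h1.append (RR.refl [3 * a + 2])).append h2

theorem bw_eq {B B' : ℕ → List ℕ} {R : List ℕ} (h : ∀ r ∈ R, B r = B' r) : Bw R B = Bw R B' := by
  unfold Bw
  exact List.flatMap_congr (fun r hr => by rw [h r hr])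

/-- a substitution which keeps the separators acts on the blocks -/
theorem bw_flat {g : ℕ → List ℕ} (B : ℕ → List ℕ) : ∀ {R : List ℕ},
    (∀ r ∈ R, g (3 * r + 2) = [3 * r + 2]) →
    (Bw R B).flatMap g = Bw R (fun r => (B r).flatMap g)
  | [], _ => rfl
  | a :: R, h => by
    have ih := bw_flat (g := g) B (R := R) (fun r hr => h r (List.mem_cons_of_mem _ hr))
    have e : ∀ X : ℕ → List ℕ, Bw (a :: R) X = (X a ++ [3 * a + 2]) ++ Bw R X := by
      intro X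
      rfl
    rw [e, e, List.flatMap_append, List.flatMap_append, ih, List.flatMap_cons, List.flatMap_nil,
      List.append_nil, h a List.mem_cons_self]

theorem filter_flat (p : ℕ → Bool) (l : List ℕ) :
    l.filter p = l.flatMap (fun i => if p i then [i] else []) := (flatMap_filter p l).symm

theorem bw_filter (p : ℕ → Bool) (B : ℕ → List ℕ) {R : List ℕ}
    (h : ∀ r ∈ R, p (3 * r + 2) = true) :
    (Bw R B).filter p = Bw R (fun r => (B r).filter p) := by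
  rw [filter_flat, bw_flat B (fun r hr => by rw [if_pos (h r hr)])]
  exact bw_eq (fun r _ => (filter_flat p (B r)).symm)

theorem dh_eq (n : ℕ) (H : ℕ → Bool) (w : List ℕ) :
    Helper96_MWV.DH n H w = w.flatMap (fun a => if H a = true then P (n + 1) a else [a]) := rfl

theorem dh_bw (n : ℕ) (B : ℕ → List ℕ) (R : List ℕ) :
    Helper96_MWV.DH n Hm (Bw R B) = Bw R (fun r => Helper96_MWV.DH n Hm (B r)) := by
  rw [dh_eq, bw_flat B (fun r _ => by
    rw [if_neg]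
    rw [hm_iff]
    omega)]
  rfl

theorem hv_bw (n : ℕ) (B : ℕ → List ℕ) (R : List ℕ) :
    Helper96_MWV.hv n 0 (Bw R B) = Bw R (fun r => Helper96_MWV.hv n 0 (B r)) := by
  unfold Helper96_MWV.hv
  rw [bw_flat B (fun r _ => by rw [if_neg (by omega)])]

theorem hv_rr (a : ℕ) {u v : List ℕ} (h : RR β u v) :
    RR β (Helper96_MWV.hv n a u) (Helper96_MWV.hv n a v) := h.sub _

theorem dh_rr (H : ℕ → Bool) {u v : List ℕ} (h : RR β u v) :
    RR β (Helper96_MWV.DH n H u) (Helper96_MWV.DH n H v) := h.sub _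

theorem hv_P (n a k : ℕ) : Helper96_MWV.hv n a (P k a) = P (k * (n + 1)) a := by
  unfold Helper96_MWV.hv
  rw [Helper96_MWV.flat_P, if_pos rfl, Helper96_MWV.pwd_P]

/-! ### the left side -/

theorem pl_cases (hp : Pl m R pl) {r : ℕ} (hr : r ∈ R) (h0 : r ≠ 0) :
    pl r = [] ∨ ∃ d < m, pl r = [3 * d + 1] := hp.em r hr h0

theorem pl_mem (hp : Pl m R pl) {r a : ℕ} (hr : r ∈ R) (h0 : r ≠ 0) (ha : a ∈ pl r) :
    ∃ d < m, a = 3 * d + 1 := by
  rcases hp.em r hr h0 with h | ⟨d, hd, h⟩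
  · rw [h] at ha
    exact absurd ha List.not_mem_nil
  · rw [h, List.mem_singleton] at ha
    exact ⟨d, hd, ha⟩

theorem cn_mem (hc : Cn n m c) {a : ℕ} (ha : a ∈ c) : a ≠ 0 ∧ a ≠ 3 ∧ a % 3 ≠ 2 := by
  rcases hc.lo a ha with ⟨d, _, rfl⟩ | ⟨h3, h6⟩
  · omega
  · omega

theorem bb_sfr (hc : Cn n m c) (hp : Pl m R pl) : ∀ r ∈ R, SFr (Bb pl (0 :: (c ++ [0])) r) := by
  intro r hr a ha
  unfold Bb at ha
  by_cases h0 : r = 0
  · rw [if_pos h0, List.mem_cons, List.mem_append, List.mem_singleton] at ha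
    rcases ha with ha | ha | ha
    · omega
    · exact (cn_mem hc ha).2.2
    · omega
  · rw [if_neg h0] at ha
    obtain ⟨d, _, rfl⟩ := pl_mem hp hr h0 ha
    omega

theorem bb_c0 (hc : Cn n m c) (hp : Pl m R pl) : ∀ q ∈ R,
    (Bb pl (0 :: (c ++ [0])) q).count 0 = if q = 0 then 2 else 0 := by
  intro q hq
  unfold Bb
  by_cases h0 : q = 0
  · rw [if_pos h0, if_pos h0, List.count_cons_self, List.count_append,
      List.count_eq_zero.2 (fun h => (cn_mem hc h).1 rfl)]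
    simp
  · rw [if_neg h0, if_neg h0, List.count_eq_zero]
    intro h
    obtain ⟨d, _, hd⟩ := pl_mem hp hq h0 h
    omega

theorem bb_li (hc : Cn n m c) {d : ℕ} (hd : d < m) {r : ℕ} (hr0 : r ≠ 0)
    (hr : pl r = [3 * d + 1]) (hu : ∀ s ∈ R, s ≠ 0 → s ≠ r → 3 * d + 1 ∉ pl s) : ∀ q ∈ R,
    (Bb pl (0 :: (c ++ [0])) q).count (3 * d + 1) = if q = 0 ∨ q = r then 1 else 0 := by
  intro q hq
  unfold Bb
  by_cases h0 : q = 0
  · rw [if_pos h0, if_pos (Or.inl h0), List.count_cons_of_ne (by omega), List.count_append,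
      hc.li d hd, List.count_eq_zero.2 (by rw [List.mem_singleton]; omega)]
  · rw [if_neg h0]
    by_cases h1 : q = r
    · rw [if_pos (Or.inr h1), h1, hr, List.count_singleton_self]
    · rw [if_neg (by omega), List.count_eq_zero]
      exact hu q hq h0 h1

theorem bb_ct (hc : Cn n m c) (hp : Pl m R pl) : ∀ a ∈ Bw R (Bb pl (0 :: (c ++ [0]))), a % 3 ≠ 2 →
    a = 0 ∨ a ∈ c := by
  intro a ha h2
  obtain ⟨r, hr, h⟩ := MWE.H10.mem_bw.1 ha
  rcases h with h | h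
  · unfold Bb at h
    by_cases h0 : r = 0
    · rw [if_pos h0, List.mem_cons, List.mem_append, List.mem_singleton] at h
      tauto
    · rw [if_neg h0] at h
      obtain ⟨d, hd, rfl⟩ := pl_mem hp hr h0 h
      exact Or.inr (List.count_pos_iff.1 (by rw [hc.li d hd]; omega))
  · omega

/-- the left side as a word with one main block -/
theorem bp_split (hp : Pl m R pl) : ∃ R1 R2 : List ℕ, R = R1 ++ 0 :: R2 ∧ 0 ∉ R1 ∧ 0 ∉ R2 ∧
    ∀ L : List ℕ, Bp R pl L = Bw R1 pl ++ (L ++ 2 :: Bw R2 pl) := by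
  obtain ⟨R1, R2, e⟩ := List.append_of_mem hp.z
  have hnd := hp.nd
  rw [e, List.nodup_append, List.nodup_cons] at hnd
  have h1 : 0 ∉ R1 := fun h => hnd.2.2 _ h _ List.mem_cons_self rfl
  have h2 : 0 ∉ R2 := hnd.2.1.1
  refine ⟨R1, R2, e, h1, h2, fun L => ?_⟩
  have e1 : Bw R1 (Bb pl L) = Bw R1 pl := bw_eq (fun r hr => by
    have hr0 : r ≠ 0 := by
      rintro rfl
      exact h1 hr
    unfold Bb
    rw [if_neg hr0])
  have e2 : Bw R2 (Bb pl L) = Bw R2 pl := bw_eq (fun r hr => by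
    have hr0 : r ≠ 0 := by
      rintro rfl
      exact h2 hr
    unfold Bb
    rw [if_neg hr0])
  have e3 : Bw R (Bb pl L) = Bw R1 (Bb pl L) ++ ((Bb pl L 0 ++ [3 * 0 + 2]) ++ Bw R2 (Bb pl L)) := by
    rw [e]
    unfold Bw
    rw [List.flatMap_append, List.flatMap_cons]
  rw [bp_eq, e3, e1, e2]
  have e4 : Bb pl L 0 = L := by unfold Bb; rw [if_pos rfl]
  rw [e4]
  simp

theorem no0_pl (hp : Pl m R pl) {S : List ℕ} (hS : ∀ r ∈ S, r ∈ R ∧ r ≠ 0) {a : ℕ}
    (ha : a ∈ Bw S pl) : a % 3 ≠ 0 := by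
  obtain ⟨r, hr, h⟩ := MWE.H10.mem_bw.1 ha
  rcases h with h | h
  · obtain ⟨d, _, rfl⟩ := pl_mem hp (hS r hr).1 (hS r hr).2 h
    omega
  · omega

/-- `0` becomes heavy -/
theorem hv_bp (hc : ∀ a ∈ c, a ≠ 0) (hp : Pl m R pl) :
    Helper96_MWV.hv n 0 (Bp R pl (0 :: (c ++ [0]))) =
      Bp R pl (P (n + 1) 0 ++ (c ++ P (n + 1) 0)) := by
  rw [bp_eq, hv_bw, bp_eq]
  apply bw_eq
  intro r hr
  unfold Bb
  by_cases h0 : r = 0
  · rw [if_pos h0, if_pos h0]
    have e1 : (0 :: (c ++ [0]) : List ℕ) = [0] ++ (c ++ [0]) := rfl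
    rw [e1, Helper96_MWV.hv_app, Helper96_MWV.hv_app, Helper96_MWV.hv_one,
      Helper96_MWV.hv_id n 0 c (fun h => hc 0 h rfl)]
  · rw [if_neg h0, if_neg h0]
    apply Helper96_MWV.hv_id
    intro h
    obtain ⟨d, _, hd⟩ := pl_mem hp hr h0 h
    omega

/-- transfer of thickness -/
theorem th_of (hc : ∀ a ∈ c, a ≠ 0) (hp : Pl m R pl) {u : List ℕ}
    (h1 : RR β (Bp R pl (0 :: (c ++ [0]))) u) (h2 : RR β u (Helper96_MWV.hv n 0 u)) :
    Th n β R pl c := by
  unfold Th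
  rw [← hv_bp hc hp]
  exact tr h1 (tr h2 (hv_rr 0 h1.symm))

/-! ### heavy letters to the power `n + 1` -/

theorem hv_self (hw : Wo n β) {A C : List ℕ} {a : ℕ} (hA : a ∉ A) (hC : a ∉ C) :
    RR β (A ++ (P (n + 1) a ++ C)) (Helper96_MWV.hv n a (A ++ (P (n + 1) a ++ C))) := by
  rw [Helper96_MWV.hv_app, Helper96_MWV.hv_app, Helper96_MWV.hv_id n a A hA,
    Helper96_MWV.hv_id n a C hC, hv_P]
  exact Helper96_MWV.pc hw.ap A C a (n + 1) ((n + 1) * (n + 1)) (by have := hw.hn; omega)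
    ⟨n + 1, by ring⟩

theorem hs_self (hw : Wo n β) (hc : Cn n m c) : ∀ S : List ℕ, S.Nodup →
    (∀ a ∈ S, a ∈ c ∧ a % 3 = 0) → RR β c (Helper96_MWV.hS n S c)
  | [], _, _ => by
    rw [Helper96_MWV.hS_nil]
    exact RR.refl _
  | a :: S, hn, h => by
    rw [List.nodup_cons] at hn
    have ih := hs_self hw hc S hn.2 (fun b hb => h b (List.mem_cons_of_mem _ hb))
    obtain ⟨ha, ha3⟩ := h a List.mem_cons_self
    obtain ⟨A, C, e, hA, hC⟩ := hc.bl a ha ha3
    rw [← Helper96_MWV.hv_hS n a S hn.1]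
    have h1 : RR β c (Helper96_MWV.hv n a c) := by
      rw [e]
      exact hv_self hw hA hC
    exact tr h1 (hv_rr a ih)

theorem dh_self (hw : Wo n β) (hc : Cn n m c) : RR β c (Helper96_MWV.DH n Hm c) := by
  have h := hs_self hw hc ((c.filter Hm).dedup) (List.nodup_dedup _) (fun a ha => by
    rw [List.mem_dedup, List.mem_filter, hm_iff] at ha
    exact ⟨ha.1, ha.2.1⟩)
  have e : Helper96_MWV.hS n ((c.filter Hm).dedup) c = Helper96_MWV.DH n Hm c := by
    unfold Helper96_MWV.hS Helper96_MWV.DH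
    refine List.flatMap_congr (fun b hb => ?_)
    by_cases h1 : Hm b = true
    · rw [if_pos h1, if_pos (List.mem_dedup.2 (List.mem_filter.2 ⟨hb, h1⟩))]
    · rw [if_neg h1, if_neg (fun h2 => h1 (List.mem_filter.1 (List.mem_dedup.1 h2)).2)]
  rw [← e]
  exact h

theorem dh_bp (hw : Wo n β) (hc : Cn n m c) (hp : Pl m R pl) :
    RR β (Bp R pl (0 :: (c ++ [0]))) (Helper96_MWV.DH n Hm (Bp R pl (0 :: (c ++ [0])))) := by
  rw [bp_eq, dh_bw]
  apply bw_congr
  intro r hr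
  unfold Bb
  by_cases h0 : r = 0
  · rw [if_pos h0]
    have e1 : (0 :: (c ++ [0]) : List ℕ) = [0] ++ (c ++ [0]) := rfl
    have e0 : Helper96_MWV.DH n Hm [0] = [0] := Helper96_MWV.DH_id n Hm [0] (by
      intro a ha
      rw [List.mem_singleton] at ha
      rw [hm_f]
      omega)
    rw [e1, Helper96_MWV.DH_app, Helper96_MWV.DH_app, e0]
    exact (RR.refl [0]).append ((dh_self hw hc).append (RR.refl [0]))
  · rw [if_neg h0, Helper96_MWV.DH_id n Hm (pl r) (by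
      intro a ha
      obtain ⟨d, _, rfl⟩ := pl_mem hp hr h0 ha
      rw [hm_f]
      omega)]
    exact RR.refl _

/-- the words of the class have the heavy letters to the power `n + 1` -/
theorem dh_v (hw : Wo n β) (hc : Cn n m c) (hp : Pl m R pl) {v : List ℕ}
    (h : RR β (Bp R pl (0 :: (c ++ [0]))) v) : RR β v (Helper96_MWV.DH n Hm v) :=
  tr h.symm (tr (dh_bp hw hc hp) (dh_rr Hm h))

/-! ### the basic structure of the words of the class -/

/-- the basic structure -/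
structure Bs (m : ℕ) (R : List ℕ) (pl : ℕ → List ℕ) (c : List ℕ) (B : ℕ → List ℕ)
    (e : List ℕ) : Prop where
  li : ∀ d < m, ∃ r ∈ R, r ≠ 0 ∧ pl r = [3 * d + 1] ∧
    (∀ q ∈ R, (B q).count (3 * d + 1) = if q = 0 ∨ q = r then 1 else 0) ∧ 3 * d + 1 ∉ e
  ct : ∀ a ∈ Bw R B ++ e, a % 3 ≠ 2 → a = 0 ∨ a ∈ c
  c2 : 2 ≤ (Bw R B ++ e).count 0
  cc : ∀ a ∈ c, a ∈ Bw R B ++ e

theorem bs (hw : Wo n β) (hc : Cn n m c) (hp : Pl m R pl) {B : ℕ → List ℕ} {e : List ℕ}
    (hB : ∀ r, SFr (B r)) (he : SFr e)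
    (h : RR β (Bp R pl (0 :: (c ++ [0]))) (Bw R B ++ e)) : Bs m R pl c B e := by
  rw [bp_eq] at h
  have hct : ∀ a ∈ Bw R B ++ e, a % 3 ≠ 2 → a = 0 ∨ a ∈ c := by
    intro a ha h2
    by_contra hne
    exact RR.content hw.i3 h (fun h' => hne (bb_ct hc hp a h' h2)) ha
  have hcc : ∀ a ∈ c, a ∈ Bw R B ++ e := by
    intro a ha
    by_contra hne
    refine RR.content hw.i3 h.symm hne (MWE.H10.mem_bw.2 ⟨0, hp.z, Or.inl ?_⟩)
    unfold Bb
    rw [if_pos rfl]
    simp [ha]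
  refine ⟨?_, hct, ?_, hcc⟩
  · intro d hd
    obtain ⟨r, hr, hr0, hrp, hru⟩ := hp.ex d hd
    obtain ⟨k1, k2⟩ := Pool.Agent.MWD.H11.kp3 β hw.i3 R (Bb pl (0 :: (c ++ [0]))) B e hp.nd
      (bb_sfr hc hp) (fun r _ => hB r) he h (3 * d + 1) 0 r (by omega) hp.z hr
      (fun h' => hr0 h'.symm) (bb_li hc hd hr0 hrp hru)
    exact ⟨r, hr, hr0, hrp, k1, List.count_eq_zero.1 k2⟩
  · by_contra hlt
    have h0 : 0 ∈ Bw R B ++ e := by
      by_contra hne
      refine RR.content hw.i3 h.symm hne (MWE.H10.mem_bw.2 ⟨0, hp.z, Or.inl ?_⟩)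
      unfold Bb
      rw [if_pos rfl]
      simp
    have hpos : 0 < (Bw R B ++ e).count 0 := List.count_pos_iff.2 h0
    have h1 : (Bw R B ++ e).count 0 = 1 := by omega
    have h4 := h.filter (fun i => i == 0)
    have h5 : (Bw R B ++ e).filter (fun i => i == 0) = [0] := by
      rw [List.filter_beq, h1]
      rfl
    have h6 : (Bw R (Bb pl (0 :: (c ++ [0])))).filter (fun i => i == 0) =
        List.replicate ((Bw R (Bb pl (0 :: (c ++ [0])))).count 0) 0 := by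
      rw [List.filter_beq]
    rw [h5, h6] at h4
    have h7 := Pool.Agent.MVD.H10.lin β hw.i3 [0] _ (List.nodup_singleton 0) h4.symm
    have h8 := congrArg List.length h7
    rw [List.length_replicate] at h8
    have h9 := MWE.H10.one_block hp.nd (Bb pl (0 :: (c ++ [0]))) hp.z 0
    rw [bb_c0 hc hp 0 hp.z, if_pos rfl] at h9
    simp only [List.length_cons, List.length_nil] at h8
    omega

/-- at least three letters `0`: thick -/
theorem cnt0 (hw : Wo n β) (hc : Cn n m c) (hp : Pl m R pl) (hno : ¬ Th n β R pl c)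
    {B : ℕ → List ℕ} {e : List ℕ} (hB : ∀ r, SFr (B r)) (he : SFr e)
    (h : RR β (Bp R pl (0 :: (c ++ [0]))) (Bw R B ++ e)) : (Bw R B ++ e).count 0 = 2 := by
  have h1 := (bs hw hc hp hB he h).c2
  by_contra hne
  exact hno (th_of (fun a ha => (cn_mem hc ha).1) hp h (hw.hv _ 0 (by omega)))

end Pool.Agent.MWTQ.H11
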