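import Pool.Agent.Helper96_MWQ.H11_BS

/-!
# Squad MWTQ, row FUN: both thin letters are in the main block and enclose all letters
-/

set_option autoImplicit false

namespace Pool.Agent.MWTQ.H11

open Pool.Agent.Helper14_MV Pool.Agent.Helper2_MV Pool.Agent.MVD Pool.Agent.MWTQ

variable {n m : ℕ} {β : FIC} {R c : List ℕ} {pl : ℕ → List ℕ}

/-- the situation (only the words with less lights or with one marker less are used) -/
structure Sx (n : ℕ) (β : FIC) (m : ℕ) (R : List ℕ) (pl : ℕ → List ℕ) (c : List ℕ) : Prop where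
  wo : Wo n β
  lt : ∀ m' < m, Helper96_MWV.LfBm n m' β
  h2 : ∀ a ∈ c, a % 3 = 0 → Th n β R pl (dl a c)
  cn : Cn n m c
  m1 : 1 ≤ m
  k2 : 2 ≤ nd c
  pc : Pl m R pl
  no : ¬ Th n β R pl c

theorem dl_app (a : ℕ) (u v : List ℕ) : dl a (u ++ v) = dl a u ++ dl a v := List.filter_append ..

theorem dl_id {a : ℕ} {u : List ℕ} (h : a ∉ u) : dl a u = u := by
  unfold dl
  rw [List.filter_eq_self]
  intro b hb
  rw [decide_eq_true_eq]
  rintro rfl
  exact h hb

theorem mem_dl {a b : ℕ} {u : List ℕ} : b ∈ dl a u ↔ b ∈ u ∧ b ≠ a := by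
  unfold dl
  rw [List.mem_filter, decide_eq_true_eq]

theorem dl_P (a k : ℕ) : dl a (P k a) = [] := by
  unfold dl
  rw [List.filter_eq_nil_iff]
  intro b hb
  rw [List.eq_of_mem_replicate hb]
  simp

/-! ### a light is missing: thick -/

theorem light_missing (S : Sx n β m R pl c) {v X U Y : List ℕ}
    (hv : RR β (Bp R pl (0 :: (c ++ [0]))) v) (e : v = X ++ 0 :: (U ++ 0 :: Y))
    (hX : 0 ∉ X) (hU : 0 ∉ U) (hY : 0 ∉ Y)
    (hl : ∀ a ∈ U, Hm a = true ∨ ∃ d < m, a = 3 * d + 1)
    (h1 : ∀ d < m, U.count (3 * d + 1) ≤ 1)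
    (ho : ∀ d < m, 3 * d + 1 ∈ U → 3 * d + 1 ∈ X ∨ 3 * d + 1 ∈ Y) {d : ℕ} (hd : d < m)
    (hdU : 3 * d + 1 ∉ U) : False := by
  apply S.no
  have hdh := dh_v S.wo S.cn S.pc hv
  rw [e] at hdh hv
  refine th_of (fun a ha => (cn_mem S.cn ha).1) S.pc (tr hv hdh) ?_
  have hf : ∀ a ∈ U.filter (fun b => !Hm b), ∃ d' < m, a = 3 * d' + 1 ∧ d' ≠ d := by
    intro a ha
    rw [List.mem_filter] at ha
    rcases hl a ha.1 with h | ⟨d', hd', rfl⟩
    · rw [h] at ha
      simp at ha
    · refine ⟨d', hd', rfl, ?_⟩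
      rintro rfl
      exact hdU ha.1
  have hnd : (U.filter (fun b => !Hm b)).Nodup := by
    rw [List.nodup_iff_count_le_one]
    intro a
    by_cases ha : a ∈ U.filter (fun b => !Hm b)
    · obtain ⟨d', hd', rfl, _⟩ := hf a ha
      exact le_trans (List.Sublist.count_le _ List.filter_sublist) (h1 d' hd')
    · rw [List.count_eq_zero_of_not_mem ha]
      omega
  have hlen : (U.filter (fun b => !Hm b)).length < m := by
    have hs : ∀ a ∈ U.filter (fun b => !Hm b),
        a ∈ ((Finset.range m).erase d).image (fun i => 3 * i + 1) := by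
      intro a ha
      obtain ⟨d', hd', rfl, hne⟩ := hf a ha
      exact Finset.mem_image.2 ⟨d', Finset.mem_erase.2 ⟨hne, Finset.mem_range.2 hd'⟩, rfl⟩
    have h2 : (U.filter (fun b => !Hm b)).length ≤
        (((Finset.range m).erase d).image (fun i => 3 * i + 1)).card := by
      rw [← List.toFinset_card_of_nodup hnd]
      exact Finset.card_le_card (fun a ha => hs a (List.mem_toFinset.1 ha))
    have h3 : (((Finset.range m).erase d).image (fun i => 3 * i + 1)).card ≤
        ((Finset.range m).erase d).card := Finset.card_image_le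
    rw [Finset.card_erase_of_mem (Finset.mem_range.2 hd), Finset.card_range] at h3
    omega
  have hnH : ∀ {a : ℕ}, Hm a = false → ∀ {w : List ℕ}, a ∈ w →
      a ∈ Helper96_MWV.DH n Hm w := fun h _ ha => Helper96_MWV.DH_mem h ha
  have key := Helper96_MWV.lt1 S.wo.ap S.wo.hn S.wo.cm S.lt Hm (Helper96_MWV.DH n Hm X) U
    (Helper96_MWV.DH n Hm Y) 0 hU hnd hlen (by
      intro a ha hH
      rcases hl a ha with h | ⟨d', hd', rfl⟩
      · rw [h] at hH
        exact absurd hH (by simp)
      · rcases ho d' hd' ha with h | h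
        · exact Or.inl (hnH hH h)
        · exact Or.inr (hnH hH h))
  have e0 : Helper96_MWV.DH n Hm [0] = [0] := Helper96_MWV.DH_id n Hm [0] (by
    intro a ha
    rw [List.mem_singleton] at ha
    rw [hm_f]
    omega)
  have m0 : ∀ {w : List ℕ}, 0 ∉ w → 0 ∉ Helper96_MWV.DH n Hm w := by
    intro w hw h
    unfold Helper96_MWV.DH at h
    rw [List.mem_flatMap] at h
    obtain ⟨a, ha, h'⟩ := h
    by_cases hH : Hm a = true
    · rw [if_pos hH] at h'
      exact hw ((List.eq_of_mem_replicate h') ▸ ha)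
    · rw [if_neg hH, List.mem_singleton] at h'
      exact hw (h' ▸ ha)
  have e1 : Helper96_MWV.DH n Hm (X ++ 0 :: (U ++ 0 :: Y)) = Helper96_MWV.DH n Hm X ++
      ([0] ++ (Helper96_MWV.DH n Hm U ++ ([0] ++ Helper96_MWV.DH n Hm Y))) := by
    have e2 : X ++ 0 :: (U ++ 0 :: Y) = X ++ ([0] ++ (U ++ ([0] ++ Y))) := rfl
    rw [e2, Helper96_MWV.DH_app, Helper96_MWV.DH_app, Helper96_MWV.DH_app, Helper96_MWV.DH_app, e0]
  rw [e1, Helper96_MWV.hv_app, Helper96_MWV.hv_app, Helper96_MWV.hv_app, Helper96_MWV.hv_app,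
    Helper96_MWV.hv_one, Helper96_MWV.hv_id n 0 _ (m0 hX), Helper96_MWV.hv_id n 0 _ (m0 hU),
    Helper96_MWV.hv_id n 0 _ (m0 hY)]
  exact key

/-- insertion of a word at the left end of the main block -/
theorem ins_left (hp : Pl m R pl) {L L' u : List ℕ} (hL : SFr L) (hL' : SFr L')
    (h : RR β (Bp R pl L) (Bp R pl L')) : RR β (Bp R pl (u ++ L)) (Bp R pl (u ++ L')) := by
  have hs : ∀ M : List ℕ, SFr M → ∀ r ∈ R, SFr (Bb pl M r) := by
    intro M hM r hr
    unfold Bb
    by_cases h0 : r = 0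
    · rw [if_pos h0]
      exact hM
    · rw [if_neg h0]
      intro a ha
      obtain ⟨d, _, rfl⟩ := pl_mem hp hr h0 ha
      omega
  have h1 := MWE.H11.trg β R (Bb pl L) (Bb pl L') (fun r => if r = 0 then u else [])
    (fun _ => []) [] hp.nd (hs L hL) (hs L' hL') (fun a ha => absurd ha List.not_mem_nil)
    (by rw [List.append_nil]; exact h)
  rw [List.append_nil] at h1
  have e : ∀ M : List ℕ, Bw R (fun r => (if r = 0 then u else []) ++ (Bb pl M r ++ [])) =
      Bp R pl (u ++ M) := by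
    intro M
    rw [bp_eq]
    apply bw_eq
    intro r _
    unfold Bb
    by_cases h0 : r = 0
    · rw [if_pos h0, if_pos h0, if_pos h0, List.append_nil]
    · rw [if_neg h0, if_neg h0, if_neg h0, List.append_nil, List.nil_append]
  rw [e, e] at h1
  exact h1

theorem sfr_P (k a : ℕ) (ha : a % 3 ≠ 2) : SFr (P k a) := by
  intro b hb
  rw [List.eq_of_mem_replicate hb]
  exact ha

theorem sfr_c (hc : Cn n m c) : SFr c := fun _ ha => (cn_mem hc ha).2.2

theorem sfr_app {u v : List ℕ} (hu : SFr u) (hv : SFr v) : SFr (u ++ v) := by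
  intro a ha
  rcases List.mem_append.1 ha with h | h
  · exact hu a h
  · exact hv a h

/-- a marker -/
theorem ex_marker (S : Sx n β m R pl c) (hm : m = 1) : ∃ a ∈ c, a % 3 = 0 := by
  by_contra hno
  push Not at hno
  have hsub : c.toFinset ⊆ {1} := by
    intro a ha
    rw [List.mem_toFinset] at ha
    rcases S.cn.lo a ha with ⟨d, hd, rfl⟩ | ⟨h3, _⟩
    · rw [Finset.mem_singleton]
      omega
    · exact absurd h3 (hno a ha)
  have h1 := Finset.card_le_card hsub
  have h2 := S.k2
  unfold nd at h2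
  rw [Finset.card_singleton] at h1
  omega

/-- every letter different from `1` stands in one block of `n + 1` letters -/
def Bk (n : ℕ) (L : List ℕ) : Prop :=
  ∀ b ∈ L, b ≠ 1 → ∃ A C, L = A ++ (P (n + 1) b ++ C) ∧ b ∉ A ∧ b ∉ C

theorem bk_tail1 {L : List ℕ} (h : Bk n (1 :: L)) : Bk n L := by
  intro b hb h1
  obtain ⟨A, C, e, hA, hC⟩ := h b (List.mem_cons_of_mem _ hb) h1
  cases A with
  | nil =>
    exfalso
    have e' : 1 :: L = b :: (P n b ++ C) := e
    injection e' with e1 e2
    exact h1 e1.symm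
  | cons a A =>
    have e' : 1 :: L = a :: (A ++ (P (n + 1) b ++ C)) := e
    injection e' with e1 e2
    exact ⟨A, C, e2, fun h => hA (List.mem_cons_of_mem _ h), hC⟩

theorem bk_tail {L : List ℕ} {a : ℕ} (h : Bk n (P (n + 1) a ++ L)) (ha : a ∉ L) : Bk n L := by
  intro b hb h1
  have hab : b ≠ a := fun e => ha (e ▸ hb)
  obtain ⟨A, C, e, hA, hC⟩ := h b (List.mem_append_right _ hb) h1
  rcases List.append_eq_append_iff.1 e with ⟨D, e1, e2⟩ | ⟨D, e1, e2⟩
  · exact ⟨D, C, e2, fun h => hA (by rw [e1]; exact List.mem_append_right _ h), hC⟩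
  · cases D with
    | nil =>
      rw [List.nil_append] at e2
      exact ⟨[], C, e2.symm, List.not_mem_nil, hC⟩
    | cons d D =>
      exfalso
      have e' : b :: (P n b ++ C) = d :: (D ++ L) := e2
      injection e' with e3 e4
      have h2 : d ∈ P (n + 1) a := by rw [e1]; simp
      rw [List.eq_of_mem_replicate h2] at e3
      exact hab e3

theorem bk_head {L : List ℕ} {a : ℕ} (h : Bk n (a :: L)) (h1 : a ≠ 1) :
    ∃ C, a :: L = P (n + 1) a ++ C ∧ a ∉ C := by
  obtain ⟨A, C, e, hA, hC⟩ := h a List.mem_cons_self h1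
  cases A with
  | nil => exact ⟨C, e, hC⟩
  | cons b A =>
    exfalso
    have e' : a :: L = b :: (A ++ (P (n + 1) a ++ C)) := e
    injection e' with e1 e2
    exact hA (by rw [e1]; exact List.mem_cons_self)

theorem bk_hp : ∀ (k : ℕ) (L : List ℕ), L.length = k → Bk n L → 1 ∉ L →
    ∃ B, L = Helper96_MWV.hp n B := by
  intro k
  induction k using Nat.strong_induction_on with
  | _ k ih =>
  intro L hk h h1
  cases L with
  | nil => exact ⟨[], rfl⟩
  | cons a L =>
    have ha : a ≠ 1 := fun e => h1 (by rw [e]; exact List.mem_cons_self)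
    obtain ⟨C, e, hC⟩ := bk_head h ha
    rw [e] at h h1 hk ⊢
    have h1' : 1 ∉ C := fun hh => h1 (List.mem_append_right _ hh)
    obtain ⟨B, hB⟩ := ih C.length (by
      rw [List.length_append, List.length_replicate] at hk
      omega) C rfl (bk_tail h hC) h1'
    exact ⟨a :: B, by rw [hB]; rfl⟩

theorem bk_hp1 : ∀ (k : ℕ) (L : List ℕ), L.length = k → Bk n L → L.count 1 = 1 →
    ∃ A B, L = Helper96_MWV.hp n A ++ 1 :: Helper96_MWV.hp n B := by
  intro k
  induction k using Nat.strong_induction_on with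
  | _ k ih =>
  intro L hk h h1
  cases L with
  | nil => simp at h1
  | cons a L =>
    by_cases ha : a = 1
    · subst ha
      rw [List.count_cons_self] at h1
      obtain ⟨B, hB⟩ := bk_hp L.length L rfl (bk_tail1 h) (List.count_eq_zero.1 (by omega))
      exact ⟨[], B, by rw [hB]; rfl⟩
    · obtain ⟨C, e, hC⟩ := bk_head h ha
      rw [e] at h h1 hk ⊢
      have h0 : (P (n + 1) a).count 1 = 0 := List.count_eq_zero.2 (fun hh =>
        ha (List.eq_of_mem_replicate hh).symm)
      rw [List.count_append, h0, Nat.zero_add] at h1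
      obtain ⟨A, B, hB⟩ := ih C.length (by
        rw [List.length_append, List.length_replicate] at hk
        omega) C rfl (bk_tail h hC) h1
      refine ⟨a :: A, B, ?_⟩
      have e2 : Helper96_MWV.hp n (a :: A) = P (n + 1) a ++ Helper96_MWV.hp n A := rfl
      rw [hB, e2, List.append_assoc]

/-- with `x²t ≈ tx²` and one light the word is thick -/
theorem sq_one (S : Sx n β m R pl c) (hq : SQ β) (hm : m = 1) : False := by
  apply S.no
  obtain ⟨R1, R2, eR, h1, h2, hsp⟩ := bp_split S.pc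
  have hbk : Bk n c := by
    intro b hb hb1
    rcases S.cn.lo b hb with ⟨d, hd, rfl⟩ | ⟨hb3, _⟩
    · exfalso
      have : d = 0 := by omega
      rw [this] at hb1
      exact hb1 rfl
    · exact S.cn.bl b hb hb3
  have hc1 : c.count 1 = 1 := by
    have := S.cn.li 0 (by omega)
    exact this
  obtain ⟨A, B, e⟩ := bk_hp1 c.length c rfl hbk hc1
  have hz : 1 ∈ Bw R1 pl ∨ 1 ∈ 2 :: Bw R2 pl := by
    obtain ⟨r, hr, hr0, hrp, _⟩ := S.pc.ex 0 (by omega)
    rw [eR] at hr
    rcases List.mem_append.1 hr with h | h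
    · exact Or.inl (MWE.H10.mem_bw.2 ⟨r, h, Or.inl (by rw [hrp]; simp)⟩)
    · rcases List.mem_cons.1 h with h | h
      · exact absurd h hr0
      · exact Or.inr (List.mem_cons_of_mem _
          (MWE.H10.mem_bw.2 ⟨r, h, Or.inl (by rw [hrp]; simp)⟩))
  have key := Helper96_MWQ.sq_th hq S.wo.ap S.wo.hn S.wo.cm S.wo.b1 (Bw R1 pl) (2 :: Bw R2 pl)
    A B 0 1 hz
  unfold Th
  rw [hsp, hsp, e]
  have e1 : ∀ l : List ℕ, Helper96_MWV.P 1 0 ++ l = 0 :: l := fun _ => rfl
  simpa only [List.append_assoc, List.cons_append, List.nil_append, e1] using key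

end Pool.Agent.MWTQ.H11
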