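import Pool.Agent.Helper96_MWQ.H11_FUN

/-!
# Squad MWTQ, row FUN: a marker is missing; the theorem
-/

set_option autoImplicit false

namespace Pool.Agent.MWTQ.H11

open Pool.Agent.Helper14_MV Pool.Agent.Helper2_MV Pool.Agent.MVD Pool.Agent.MWTQ

variable {n m : ℕ} {β : FIC} {R c : List ℕ} {pl : ℕ → List ℕ}

/-! ### heavy words commute -/

theorem dh_hp {w : List ℕ} (h : ∀ a ∈ w, Hm a = true) :
    Helper96_MWV.DH n Hm w = Helper96_MWV.hp n w := by
  unfold Helper96_MWV.DH Helper96_MWV.hp
  exact List.flatMap_congr (fun a ha => by rw [if_pos (h a ha)])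

theorem pull_l (hw : Wo n β) (a : ℕ) : ∀ w : List ℕ, (∀ b ∈ w, Hm b = true) →
    RR β (Helper96_MWV.DH n Hm w) (P (w.count a * (n + 1)) a ++ Helper96_MWV.DH n Hm (dl a w))
  | [], _ => by
    rw [List.count_nil, Nat.zero_mul]
    exact RR.refl _
  | b :: w, h => by
    have ih := pull_l hw a w (fun d hd => h d (List.mem_cons_of_mem _ hd))
    have hb := h b List.mem_cons_self
    have e1 : Helper96_MWV.DH n Hm (b :: w) = P (n + 1) b ++ Helper96_MWV.DH n Hm w := by
      change (if Hm b = true then P (n + 1) b else [b]) ++ Helper96_MWV.DH n Hm w = _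
      rw [if_pos hb]
    by_cases hba : b = a
    · subst hba
      have e2 : dl b (b :: w) = dl b w := by
        unfold dl
        rw [List.filter_cons_of_neg (by simp)]
      rw [e1, e2, List.count_cons_self]
      have e3 : P ((w.count b + 1) * (n + 1)) b = P (n + 1) b ++ P (w.count b * (n + 1)) b := by
        rw [Nat.succ_mul, Nat.add_comm]
        exact List.replicate_add _ _ b
      rw [e3, List.append_assoc]
      exact (RR.refl _).append ih
    · have e2 : dl a (b :: w) = b :: dl a w := by
        unfold dl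
        rw [List.filter_cons_of_pos (by simpa using hba)]
      have e4 : Helper96_MWV.DH n Hm (b :: dl a w) =
          P (n + 1) b ++ Helper96_MWV.DH n Hm (dl a w) := by
        change (if Hm b = true then P (n + 1) b else [b]) ++ Helper96_MWV.DH n Hm (dl a w) = _
        rw [if_pos hb]
      rw [e1, e2, e4, List.count_cons_of_ne hba]
      have h1 : RR β (P (n + 1) b ++ P (w.count a * (n + 1)) a)
          (P (w.count a * (n + 1)) a ++ P (n + 1) b) := by
        have h2 := (hw.cm b a).pw (w.count a)
        rw [Helper96_MWV.pwd_P] at h2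
        exact h2
      have h3 := (RR.refl (P (n + 1) b)).append ih
      have h4 := h1.append (RR.refl (Helper96_MWV.DH n Hm (dl a w)))
      rw [List.append_assoc, List.append_assoc] at h4
      exact tr h3 h4

theorem pull_r (hw : Wo n β) (a : ℕ) (w : List ℕ) (h : ∀ b ∈ w, Hm b = true) :
    RR β (Helper96_MWV.DH n Hm w) (Helper96_MWV.DH n Hm (dl a w) ++ P (w.count a * (n + 1)) a) := by
  have h1 := pull_l hw a w h
  have h2 : RR β (P (w.count a * (n + 1)) a ++ Helper96_MWV.DH n Hm (dl a w))
      (Helper96_MWV.DH n Hm (dl a w) ++ P (w.count a * (n + 1)) a) := by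
    rw [dh_hp (fun b hb => h b (mem_dl.1 hb).1)]
    have h3 := (Helper96_MWV.hp_co hw.cm a (dl a w)).symm.pw (w.count a)
    rw [Helper96_MWV.pwd_P] at h3
    exact h3.symm
  exact tr h1 h2

/-! ### a marker is missing -/

theorem cn_dl (hc : Cn n m c) {a : ℕ} (ha : a % 3 = 0) : Cn n m (dl a c) := by
  refine ⟨?_, ?_, ?_⟩
  · intro d hd
    unfold dl
    rw [List.count_filter (by simp; omega)]
    exact hc.li d hd
  · intro b hb
    exact hc.lo b (mem_dl.1 hb).1
  · intro b hb hb3
    obtain ⟨hb1, hb2⟩ := mem_dl.1 hb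
    obtain ⟨A, C, e, hA, hC⟩ := hc.bl b hb1 hb3
    refine ⟨dl a A, dl a C, ?_, fun h => hA (mem_dl.1 h).1, fun h => hC (mem_dl.1 h).1⟩
    rw [e, dl_app, dl_app, dl_id (u := List.replicate (n + 1) b) (fun h => by
      have := List.eq_of_mem_replicate h
      omega)]

theorem nd_dl {a : ℕ} (ha : a ∈ c) : nd (dl a c) < nd c := by
  unfold nd
  apply Finset.card_lt_card
  rw [Finset.ssubset_iff_of_subset]
  · exact ⟨a, List.mem_toFinset.2 ha, fun h => (mem_dl.1 (List.mem_toFinset.1 h)).2 rfl⟩
  · intro b hb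
    exact List.mem_toFinset.2 (mem_dl.1 (List.mem_toFinset.1 hb)).1

theorem dh_dl (a : ℕ) (w : List ℕ) :
    Helper96_MWV.DH n Hm (dl a w) = dl a (Helper96_MWV.DH n Hm w) := by
  induction w with
  | nil => rfl
  | cons b w ih =>
    have e1 : Helper96_MWV.DH n Hm (b :: w) =
        (if Hm b = true then P (n + 1) b else [b]) ++ Helper96_MWV.DH n Hm w := rfl
    rw [e1, dl_app, ← ih]
    by_cases hba : b = a
    · subst hba
      have e2 : dl b (b :: w) = dl b w := by
        unfold dl
        rw [List.filter_cons_of_neg (by simp)]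
      rw [e2]
      by_cases hH : Hm b = true
      · rw [if_pos hH, dl_P, List.nil_append]
      · rw [if_neg hH]
        have e3 : dl b [b] = [] := dl_P b 1
        rw [e3, List.nil_append]
    · have e2 : dl a (b :: w) = b :: dl a w := by
        unfold dl
        rw [List.filter_cons_of_pos (by simpa using hba)]
      have e3 : dl a (if Hm b = true then P (n + 1) b else [b]) =
          if Hm b = true then P (n + 1) b else [b] := by
        apply dl_id
        intro h
        by_cases hH : Hm b = true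
        · rw [if_pos hH] at h
          exact hba (List.eq_of_mem_replicate h).symm
        · rw [if_neg hH, List.mem_singleton] at h
          exact hba h.symm
      rw [e2, e3]
      rfl

/-- a marker is missing between the two letters `0` -/
theorem marker_missing (S : Sx n β m R pl c) {B : ℕ → List ℕ} {e p U q : List ℕ}
    (hB : ∀ r, SFr (B r)) (he : SFr e) (hv : RR β (Bp R pl (0 :: (c ++ [0]))) (Bw R B ++ e))
    (e0 : B 0 = p ++ 0 :: (U ++ 0 :: q)) (hp0 : 0 ∉ p) (hq0 : 0 ∉ q)
    (ho : ∀ r ∈ R, r ≠ 0 → 0 ∉ B r) (hoe : 0 ∉ e)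
    (hlU : ∀ d < m, 3 * d + 1 ∈ U) {a : ℕ} (ha : a ∈ c) (ha3 : a % 3 = 0) (haU : a ∉ U) :
    False := by
  apply S.no
  have hal := cn_mem S.cn ha
  have hbs := bs S.wo S.cn S.pc hB he hv
  have hnd := S.pc.nd
  -- letters
  have hcase : ∀ b, b ≠ 0 → b % 3 ≠ 2 → b ∈ Bw R B ++ e → Hm b = true ∨ ∃ d < m, b = 3 * d + 1 := by
    intro b hb0 hb2 hb
    rcases hbs.ct b hb hb2 with h | h
    · exact absurd h hb0
    · rcases S.cn.lo b h with h | h
      · exact Or.inr h
      · exact Or.inl (hm_iff.2 h)
  -- decomposition of the blocks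
  have hdec : ∀ r ∈ R, ∃ l M k : List ℕ, B r = l ++ (M ++ k) ∧ (∀ b ∈ l, Hm b = true) ∧
      (∀ b ∈ k, Hm b = true) ∧ a ∉ M := by
    intro r hr
    have hin : ∀ b ∈ B r, b ∈ Bw R B ++ e := fun b hb =>
      List.mem_append_left _ (MWE.H10.mem_bw.2 ⟨r, hr, Or.inl hb⟩)
    by_cases hr0 : r = 0
    · subst hr0
      have hcnt : ∀ d < m, (B 0).count (3 * d + 1) = 1 := by
        intro d hd
        obtain ⟨r', _, _, _, h1, _⟩ := hbs.li d hd
        rw [h1 0 hr, if_pos (Or.inl rfl)]
      have hpq : ∀ d < m, 3 * d + 1 ∉ p ∧ 3 * d + 1 ∉ q := by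
        intro d hd
        have h1 := hcnt d hd
        have h2 := List.count_pos_iff.2 (hlU d hd)
        rw [e0, List.count_append, List.count_cons_of_ne (by omega), List.count_append,
          List.count_cons_of_ne (by omega)] at h1
        exact ⟨List.count_eq_zero.1 (by omega), List.count_eq_zero.1 (by omega)⟩
      refine ⟨p, 0 :: (U ++ [0]), q, by rw [e0]; simp, ?_, ?_, ?_⟩
      · intro b hb
        have hbB : b ∈ B 0 := by rw [e0]; simp [hb]
        rcases hcase b (fun h => hp0 (h ▸ hb)) (hB 0 b hbB) (hin b hbB) with h | ⟨d, hd, rfl⟩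
        · exact h
        · exact absurd hb (hpq d hd).1
      · intro b hb
        have hbB : b ∈ B 0 := by rw [e0]; simp [hb]
        rcases hcase b (fun h => hq0 (h ▸ hb)) (hB 0 b hbB) (hin b hbB) with h | ⟨d, hd, rfl⟩
        · exact h
        · exact absurd hb (hpq d hd).2
      · intro h
        rw [List.mem_cons, List.mem_append, List.mem_singleton] at h
        rcases h with h | h | h
        · exact hal.1 h
        · exact haU h
        · exact hal.1 h
    · by_cases hlr : ∃ d < m, 3 * d + 1 ∈ B r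
      · obtain ⟨d, hd, hdr⟩ := hlr
        have hplr : ∀ d' < m, 3 * d' + 1 ∈ B r → pl r = [3 * d' + 1] ∧
            (B r).count (3 * d' + 1) = 1 := by
          intro d' hd' hdr'
          obtain ⟨r', _, _, h3, h1, _⟩ := hbs.li d' hd'
          have h2 := h1 r hr
          have h4 := List.count_pos_iff.2 hdr'
          by_cases hrr : r = r'
          · subst hrr
            rw [if_pos (Or.inr rfl)] at h2
            exact ⟨h3, h2⟩
          · rw [if_neg (by tauto)] at h2
            omega
        obtain ⟨l, k, elk⟩ := List.append_of_mem hdr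
        have h1 := (hplr d hd hdr).2
        rw [elk, List.count_append, List.count_cons_self] at h1
        have hl0 : 3 * d + 1 ∉ l := List.count_eq_zero.1 (by omega)
        have hk0 : 3 * d + 1 ∉ k := List.count_eq_zero.1 (by omega)
        have key : ∀ b ∈ B r, b ≠ 3 * d + 1 → Hm b = true := by
          intro b hb hbd
          rcases hcase b (fun h => ho r hr hr0 (h ▸ hb)) (hB r b hb) (hin b hb) with h | ⟨d', hd', rfl⟩
          · exact h
          · exfalso
            have e1 := (hplr d' hd' hb).1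
            have e2 := (hplr d hd hdr).1
            rw [e1] at e2
            injection e2 with e3
            exact hbd e3
        refine ⟨l, [3 * d + 1], k, by rw [elk]; simp, ?_, ?_, ?_⟩
        · intro b hb
          exact key b (by rw [elk]; simp [hb]) (fun h => hl0 (h ▸ hb))
        · intro b hb
          exact key b (by rw [elk]; simp [hb]) (fun h => hk0 (h ▸ hb))
        · rw [List.mem_singleton]
          omega
      · push Not at hlr
        refine ⟨B r, [], [], by simp, ?_, by simp, by simp⟩
        intro b hb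
        rcases hcase b (fun h => ho r hr hr0 (h ▸ hb)) (hB r b hb) (hin b hb) with h | ⟨d', hd', rfl⟩
        · exact h
        · exact absurd hb (hlr d' hd')
  have hE : ∀ b ∈ e, Hm b = true := by
    intro b hb
    rcases hcase b (fun h => hoe (h ▸ hb)) (he b hb) (List.mem_append_right _ hb) with h | ⟨d, hd, rfl⟩
    · exact h
    · obtain ⟨_, _, _, _, _, h2⟩ := hbs.li d hd
      exact absurd hb h2
  -- the powers of `a` at the ends of the blocks
  have hch : ∀ r, ∃ lk : ℕ × ℕ, r ∈ R → RR β (Helper96_MWV.DH n Hm (B r))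
      (P lk.1 a ++ (Helper96_MWV.DH n Hm (dl a (B r)) ++ P lk.2 a)) := by
    intro r
    by_cases hr : r ∈ R
    · obtain ⟨l, M, k, e1, h1, h2, h3⟩ := hdec r hr
      refine ⟨(l.count a * (n + 1), k.count a * (n + 1)), fun _ => ?_⟩
      rw [e1, dl_app, dl_app, Helper96_MWV.DH_app, Helper96_MWV.DH_app, Helper96_MWV.DH_app,
        Helper96_MWV.DH_app, dl_id h3]
      have g1 := pull_l S.wo a l h1
      have g2 := pull_r S.wo a k h2
      have g3 := g1.append ((RR.refl (Helper96_MWV.DH n Hm M)).append g2)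
      simpa only [List.append_assoc] using g3
    · exact ⟨(0, 0), fun h => absurd h hr⟩
  choose lk hlk using hch
  -- the words without `a`
  have hSR : ∀ M : List ℕ, SFr M → ∀ r ∈ R, SFr (Bb pl M r) := by
    intro M hM r hr
    unfold Bb
    by_cases h0 : r = 0
    · rw [if_pos h0]
      exact hM
    · rw [if_neg h0]
      intro b hb
      obtain ⟨d, _, rfl⟩ := pl_mem S.pc hr h0 hb
      omega
  have hsd : SFr (dl a c) := fun b hb => sfr_c S.cn b (mem_dl.1 hb).1
  have sfD : ∀ {w : List ℕ}, SFr w → SFr (Helper96_MWV.DH n Hm w) := by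
    intro w hw b hb
    unfold Helper96_MWV.DH at hb
    rw [List.mem_flatMap] at hb
    obtain ⟨d, hd, h'⟩ := hb
    by_cases hH : Hm d = true
    · rw [if_pos hH] at h'
      rw [List.eq_of_mem_replicate h']
      exact hw d hd
    · rw [if_neg hH, List.mem_singleton] at h'
      rw [h']
      exact hw d hd
  have sfd : ∀ {w : List ℕ}, SFr w → SFr (dl a w) := fun hw b hb => hw b (mem_dl.1 hb).1
  have hplr : ∀ r ∈ R, r ≠ 0 → Helper96_MWV.DH n Hm (dl a (pl r)) = pl r := by
    intro r hr hr0
    rw [dl_id (fun h => by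
      obtain ⟨d, _, rfl⟩ := pl_mem S.pc hr hr0 h
      omega)]
    apply Helper96_MWV.DH_id
    intro b hb
    obtain ⟨d, _, rfl⟩ := pl_mem S.pc hr hr0 hb
    rw [hm_f]
    omega
  have hfilt : RR β (Bw R (Bb pl (0 :: (dl a c ++ [0])))) (Bw R (fun r => dl a (B r)) ++ dl a e) := by
    have h := hv.filter (fun b => decide (b ≠ a))
    rw [bp_eq, bw_filter _ _ (fun r _ => by
      rw [decide_eq_true_eq]
      omega), List.filter_append, bw_filter _ _ (fun r _ => by
      rw [decide_eq_true_eq]
      omega)] at h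
    have e1 : Bw R (fun r => (Bb pl (0 :: (c ++ [0])) r).filter (fun b => decide (b ≠ a))) =
        Bw R (Bb pl (0 :: (dl a c ++ [0]))) := by
      apply bw_eq
      intro r hr
      unfold Bb
      by_cases h0 : r = 0
      · rw [if_pos h0, if_pos h0]
        change dl a (0 :: (c ++ [0])) = _
        have e2 : dl a (0 :: (c ++ [0])) = dl a [0] ++ (dl a c ++ dl a [0]) := by
          rw [← dl_app, ← dl_app]
          rfl
        have e3 : dl a [0] = [0] := dl_id (by
          rw [List.mem_singleton]
          exact hal.1)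
        rw [e2, e3]
        rfl
      · rw [if_neg h0, if_neg h0]
        change dl a (pl r) = _
        exact dl_id (fun h => by
          obtain ⟨d, _, rfl⟩ := pl_mem S.pc hr h0 h
          omega)
    rw [e1] at h
    exact h
  have hth := S.h2 a ha ha3
  unfold Th at hth
  rw [bp_eq, bp_eq] at hth
  -- apply `DH` and insert the powers of `a`
  let Lf : ℕ → List ℕ := fun r => P (lk r).1 a
  let Rt : ℕ → List ℕ := fun r => P (lk r).2 a
  have t1 := dh_rr (n := n) Hm hfilt
  rw [Helper96_MWV.DH_app, dh_bw, dh_bw] at t1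
  have t2 := dh_rr (n := n) Hm hth
  rw [dh_bw, dh_bw] at t2
  have sfP : ∀ k, SFr (P k 0) := fun k => sfr_P k 0 (by omega)
  have sf1 : SFr (0 :: (dl a c ++ [0])) := sfr_app (u := P 1 0) (sfP 1) (sfr_app hsd (sfP 1))
  have sf2 : SFr (P (n + 1) 0 ++ (dl a c ++ P (n + 1) 0)) :=
    sfr_app (sfP _) (sfr_app hsd (sfP _))
  have u1 := MWE.H11.trg β R _ _ Lf Rt (Helper96_MWV.DH n Hm (dl a e)) hnd
    (fun r hr => sfD (hSR _ sf1 r hr)) (fun r hr => sfD (sfd (hB r))) (sfD (sfd he)) t1
  have u2 := MWE.H11.trg β R _ _ Lf Rt [] hnd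
    (fun r hr => sfD (hSR _ sf1 r hr)) (fun r hr => sfD (hSR _ sf2 r hr))
    (fun b hb => absurd hb List.not_mem_nil) (by rw [List.append_nil]; exact t2)
  rw [List.append_nil] at u2
  -- the word `v`
  have hvD := dh_v S.wo S.cn S.pc hv
  rw [Helper96_MWV.DH_app, dh_bw] at hvD
  have g1 : RR β (Bw R (fun r => Helper96_MWV.DH n Hm (B r)))
      (Bw R (fun r => Lf r ++ (Helper96_MWV.DH n Hm (dl a (B r)) ++ Rt r))) :=
    bw_congr (fun r hr => hlk r hr)
  have g2 := pull_r S.wo a e hE
  have g3 := tr hvD (g1.append g2)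
  have g4 := u1.append (RR.refl (P (e.count a * (n + 1)) a))
  rw [List.append_assoc] at g4
  have g5 := tr hv (tr g3 g4.symm)
  -- the word with powers of `a` at the ends of the blocks is thick
  refine th_of (fun b hb => (cn_mem S.cn hb).1) S.pc g5 ?_
  have g6 := u2.append (RR.refl (P (e.count a * (n + 1)) a))
  have e9 : Helper96_MWV.hv n 0 (Bw R (fun r => Lf r ++ (Helper96_MWV.DH n Hm
      (Bb pl (0 :: (dl a c ++ [0])) r) ++ Rt r)) ++ P (e.count a * (n + 1)) a) =
      Bw R (fun r => Lf r ++ (Helper96_MWV.DH n Hm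
        (Bb pl (P (n + 1) 0 ++ (dl a c ++ P (n + 1) 0)) r) ++ Rt r)) ++
        P (e.count a * (n + 1)) a := by
    have hPa : ∀ k, Helper96_MWV.hv n 0 (P k a) = P k a := fun k =>
      Helper96_MWV.hv_id n 0 _ (fun h => hal.1 (List.eq_of_mem_replicate h).symm)
    rw [Helper96_MWV.hv_app, hPa, hv_bw]
    congr 1
    apply bw_eq
    intro r hr
    rw [Helper96_MWV.hv_app, Helper96_MWV.hv_app]
    change Helper96_MWV.hv n 0 (P (lk r).1 a) ++ (_ ++ Helper96_MWV.hv n 0 (P (lk r).2 a)) = _
    rw [hPa, hPa]
    have e10 : Helper96_MWV.hv n 0 (Helper96_MWV.DH n Hm (Bb pl (0 :: (dl a c ++ [0])) r)) =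
        Helper96_MWV.DH n Hm (Bb pl (P (n + 1) 0 ++ (dl a c ++ P (n + 1) 0)) r) := by
      unfold Bb
      by_cases h0 : r = 0
      · rw [if_pos h0, if_pos h0]
        have d0 : ∀ k, Helper96_MWV.DH n Hm (P k 0) = P k 0 := fun k =>
          Helper96_MWV.DH_id n Hm _ (by
            intro b hb
            rw [List.eq_of_mem_replicate hb, hm_f]
            omega)
        have e11 : (0 :: (dl a c ++ [0]) : List ℕ) = P 1 0 ++ (dl a c ++ P 1 0) := rfl
        have e12 : 0 ∉ Helper96_MWV.DH n Hm (dl a c) := by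
          intro h
          unfold Helper96_MWV.DH at h
          rw [List.mem_flatMap] at h
          obtain ⟨d, hd, h'⟩ := h
          have hd0 := (cn_mem S.cn (mem_dl.1 hd).1).1
          by_cases hH : Hm d = true
          · rw [if_pos hH] at h'
            exact hd0 (List.eq_of_mem_replicate h').symm
          · rw [if_neg hH, List.mem_singleton] at h'
            exact hd0 h'.symm
        rw [e11, Helper96_MWV.DH_app, Helper96_MWV.DH_app, Helper96_MWV.DH_app,
          Helper96_MWV.DH_app, d0, d0, Helper96_MWV.hv_app, Helper96_MWV.hv_app, hv_P,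
          Helper96_MWV.hv_id n 0 _ e12, Nat.one_mul]
      · rw [if_neg h0, if_neg h0]
        apply Helper96_MWV.hv_id
        have h7 := hplr r hr h0
        rw [dl_id (fun h => by
          obtain ⟨d, _, rfl⟩ := pl_mem S.pc hr h0 h
          omega)] at h7
        rw [h7]
        intro h
        obtain ⟨d, _, hd⟩ := pl_mem S.pc hr h0 h
        omega
    rw [e10]
  rw [e9]
  exact g6

/-! ### the theorem -/

theorem split2 {w : List ℕ} (h : w.count 0 = 2) : ∃ p U q : List ℕ, w = p ++ 0 :: (U ++ 0 :: q) ∧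
    0 ∉ p ∧ 0 ∉ U ∧ 0 ∉ q := by
  have h1 : 0 ∈ w := List.count_pos_iff.1 (by omega)
  obtain ⟨p, w', rfl, hp⟩ := List.eq_append_cons_of_mem h1
  rw [List.count_append, List.count_eq_zero_of_not_mem hp, List.count_cons_self] at h
  have h2 : 0 ∈ w' := List.count_pos_iff.1 (by omega)
  obtain ⟨U, q, rfl, hU⟩ := List.eq_append_cons_of_mem h2
  rw [List.count_append, List.count_eq_zero_of_not_mem hU, List.count_cons_self] at h
  exact ⟨p, U, q, rfl, hp, hU, List.count_eq_zero.1 (by omega)⟩

theorem funx (S : Sx n β m R pl c) {B : ℕ → List ℕ} {e : List ℕ} (hB : ∀ r, SFr (B r))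
    (he : SFr e) (h : RR β (Bp R pl (0 :: (c ++ [0]))) (Bw R B ++ e)) :
    (∃ p U q : List ℕ, B 0 = p ++ 0 :: (U ++ 0 :: q) ∧ 0 ∉ p ∧ 0 ∉ U ∧ 0 ∉ q ∧
        (∀ a ∈ c, a ∈ U) ∧ ∀ a ∈ p ++ (U ++ q), a ∈ c) ∧
      (∀ r ∈ R, r ≠ 0 → 0 ∉ B r) ∧ 0 ∉ e := by
  have hc2 := cnt0 S.wo S.cn S.pc S.no hB he h
  have hbs := bs S.wo S.cn S.pc hB he h
  have hnd := S.pc.nd
  have hk := Pool.Agent.MWD.H11.kpl3 β S.wo.i3 R (Bb pl (0 :: (c ++ [0]))) B e hnd
    (bb_sfr S.cn S.pc) (fun r _ => hB r) he h 0 0 (by omega) S.pc.z hc2 (bb_c0 S.cn S.pc)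
  rcases hk with ⟨⟨s, hs, hcnt, hsq⟩, hce⟩ | ⟨hcnt, hce, hsq⟩
  · -- both letters in the block `s`
    have he0 : 0 ∉ e := List.count_eq_zero.1 hce
    have hoth : ∀ r ∈ R, r ≠ s → 0 ∉ B r := by
      intro r hr hrs
      have := hcnt r hr
      rw [if_neg hrs] at this
      exact List.count_eq_zero.1 this
    have h2 := hcnt s hs
    rw [if_pos rfl] at h2
    obtain ⟨p, U, q, eB, hp, hU, hq⟩ := split2 h2
    obtain ⟨R1, R2, eR⟩ := List.append_of_mem hs
    have hnd' := hnd
    rw [eR, List.nodup_append, List.nodup_cons] at hnd'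
    have hs1 : s ∉ R1 := fun h => hnd'.2.2 _ h _ List.mem_cons_self rfl
    have hs2 : s ∉ R2 := hnd'.2.1.1
    have ev : Bw R B ++ e = (Bw R1 B ++ p) ++ 0 :: (U ++ 0 :: (q ++ (3 * s + 2) :: (Bw R2 B ++ e))) := by
      rw [eR]
      unfold Bw
      rw [List.flatMap_append, List.flatMap_cons, eB]
      simp only [List.append_assoc, List.cons_append, List.nil_append]
    have h01 : 0 ∉ Bw R1 B := by
      intro h'
      obtain ⟨r, hr, h''⟩ := MWE.H10.mem_bw.1 h'
      rcases h'' with h'' | h''
      · exact hoth r (by rw [eR]; simp [hr]) (fun e' => hs1 (e' ▸ hr)) h''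
      · omega
    have h02 : 0 ∉ Bw R2 B := by
      intro h'
      obtain ⟨r, hr, h''⟩ := MWE.H10.mem_bw.1 h'
      rcases h'' with h'' | h''
      · exact hoth r (by rw [eR]; simp [hr]) (fun e' => hs2 (e' ▸ hr)) h''
      · omega
    have hUB : ∀ a ∈ U, a ∈ B s := fun a ha => by rw [eB]; simp [ha]
    have hcU : ∀ a ∈ U, a ∈ c := by
      intro a ha
      rcases hbs.ct a (by rw [ev]; simp [ha]) (hB s a (hUB a ha)) with h' | h'
      · exact absurd (h' ▸ ha) hU
      · exact h'
    have hlU : ∀ d < m, 3 * d + 1 ∈ U := by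
      intro d hd
      by_contra hdU
      refine light_missing S (X := Bw R1 B ++ p) (U := U)
        (Y := q ++ (3 * s + 2) :: (Bw R2 B ++ e)) h ev ?_ hU ?_ ?_ ?_ ?_ hd hdU
      · rw [List.mem_append, not_or]
        exact ⟨h01, hp⟩
      · rw [List.mem_append, List.mem_cons, List.mem_append]
        rintro (h' | h' | h' | h')
        · exact hq h'
        · omega
        · exact h02 h'
        · exact he0 h'
      · intro a ha
        rcases S.cn.lo a (hcU a ha) with h' | h'
        · exact Or.inr h'
        · exact Or.inl (hm_iff.2 h')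
      · intro d' hd'
        obtain ⟨r', _, _, _, h1, _⟩ := hbs.li d' hd'
        have h3 := h1 s hs
        rw [eB, List.count_append, List.count_cons_of_ne (by omega), List.count_append,
          List.count_cons_of_ne (by omega)] at h3
        split_ifs at h3 <;> omega
      · intro d' hd' hdU'
        obtain ⟨r', hr', hr0, _, h1, _⟩ := hbs.li d' hd'
        have h3 := h1 s hs
        have h4 := List.count_pos_iff.2 (hUB _ hdU')
        have key : ∀ t ∈ R, t ≠ s → 3 * d' + 1 ∈ B t →
            3 * d' + 1 ∈ Bw R1 B ++ p ∨ 3 * d' + 1 ∈ q ++ (3 * s + 2) :: (Bw R2 B ++ e) := by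
          intro t ht hts htB
          rw [eR] at ht
          rcases List.mem_append.1 ht with h' | h'
          · exact Or.inl (List.mem_append_left _ (MWE.H10.mem_bw.2 ⟨t, h', Or.inl htB⟩))
          · rcases List.mem_cons.1 h' with h' | h'
            · exact absurd h' hts
            · refine Or.inr (List.mem_append_right _ (List.mem_cons_of_mem _
                (List.mem_append_left _ (MWE.H10.mem_bw.2 ⟨t, h', Or.inl htB⟩))))
        by_cases hs0 : s = 0
        · refine key r' hr' (fun e' => hr0 (e'.trans hs0)) (List.count_pos_iff.1 ?_)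
          rw [h1 r' hr', if_pos (Or.inr rfl)]
          omega
        · refine key 0 S.pc.z (fun e' => hs0 e'.symm) (List.count_pos_iff.1 ?_)
          rw [h1 0 S.pc.z, if_pos (Or.inl rfl)]
          omega
    by_cases hs0 : s = 0
    · subst hs0
      have hoth' : ∀ r ∈ R, r ≠ 0 → 0 ∉ B r := hoth
      refine ⟨⟨p, U, q, eB, hp, hU, hq, ?_, ?_⟩, hoth', he0⟩
      · intro a ha
        rcases S.cn.lo a ha with ⟨d, hd, rfl⟩ | ⟨ha3, _⟩
        · exact hlU d hd
        · by_contra haU
          exact marker_missing S hB he h eB hp hq hoth' he0 hlU ha ha3 haU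
      · intro a ha
        have haB : a ∈ B 0 := by
          rw [eB]
          rcases List.mem_append.1 ha with h' | h'
          · simp [h']
          · rcases List.mem_append.1 h' with h' | h' <;> simp [h']
        have ha0 : a ≠ 0 := by
          rintro rfl
          rcases List.mem_append.1 ha with h' | h'
          · exact hp h'
          · rcases List.mem_append.1 h' with h' | h'
            · exact hU h'
            · exact hq h'
        rcases hbs.ct a (List.mem_append_left _ (MWE.H10.mem_bw.2 ⟨0, hs, Or.inl haB⟩))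
          (hB 0 a haB) with h' | h'
        · exact absurd h' ha0
        · exact h'
    · exfalso
      have hSQ : SQ β := by
        rcases hsq with h' | h'
        · exact absurd h' hs0
        · exact h'
      have hpl : ∀ d < m, pl s = [3 * d + 1] := by
        intro d hd
        obtain ⟨r', hr', hr0, hrp, h1, _⟩ := hbs.li d hd
        have h3 := h1 s hs
        have h4 := List.count_pos_iff.2 (hUB _ (hlU d hd))
        by_cases hsr : s = r'
        · rw [hsr]
          exact hrp
        · rw [if_neg (by tauto)] at h3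
          omega
      have hm1 : m = 1 := by
        by_contra hne
        have hm := S.m1
        have h5 := hpl 0 (by omega)
        have h6 := hpl 1 (by omega)
        rw [h5] at h6
        injection h6 with h7
        omega
      exact sq_one S hSQ hm1
  · -- both letters behind the last separator
    exfalso
    obtain ⟨p, U, q, eE, hp, hU, hq⟩ := split2 hce
    have hm := S.m1
    have h0B : 0 ∉ Bw R B := by
      intro h'
      obtain ⟨r, hr, h''⟩ := MWE.H10.mem_bw.1 h'
      rcases h'' with h'' | h''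
      · exact absurd h'' (List.count_eq_zero.1 (hcnt r hr))
      · omega
    have hle : ∀ d < m, 3 * d + 1 ∉ e := by
      intro d hd
      obtain ⟨_, _, _, _, _, h1⟩ := hbs.li d hd
      exact h1
    have hleU : ∀ d < m, 3 * d + 1 ∉ U := by
      intro d hd h'
      exact hle d hd (by rw [eE]; simp [h'])
    refine light_missing S (X := Bw R B ++ p) (U := U) (Y := q) (d := 0) h
      (by rw [eE]; simp only [List.append_assoc]) ?_ hU hq ?_ ?_ ?_ (by omega) (hleU 0 (by omega))
    · rw [List.mem_append, not_or]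
      exact ⟨h0B, hp⟩
    · intro a ha
      have haE : a ∈ e := by rw [eE]; simp [ha]
      rcases hbs.ct a (List.mem_append_right _ haE) (he a haE) with h' | h'
      · exact absurd (h' ▸ ha) hU
      · rcases S.cn.lo a h' with h' | h'
        · exact Or.inr h'
        · exact Or.inl (hm_iff.2 h')
    · intro d hd
      rw [List.count_eq_zero_of_not_mem (hleU d hd)]
      omega
    · intro d hd h'
      exact absurd h' (hleU d hd)

theorem sx_of (S : St n β m R pl c) : Sx n β m R pl c :=
  ⟨S.wo, S.lt, fun _ ha ha3 => S.h2 _ (cn_dl S.cn ha3) (nd_dl ha) R pl S.pc, S.cn, S.m1, S.k2,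
    S.pc, S.no⟩

/-- **FUN.** -/
theorem funT : FunStmt := by
  intro n β m R pl c B e S hB he h
  exact funx (sx_of S) hB he h

end Pool.Agent.MWTQ.H11
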