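import Pool.Agent.Helper96_MWQ.Stmts

/-!
# Row SWX of block MWTQ: the positions of `x` and `y` in the big words
-/

set_option autoImplicit false

namespace Pool.Agent.MWTQ.H19

open Pool.Agent.Helper14_MV Pool.Agent.Helper2_MV Pool.Agent.MVD Pool.Agent.MWTQ

theorem Bw_congr {B B' : ℕ → List ℕ} : ∀ {R : List ℕ}, (∀ r ∈ R, B r = B' r) → Bw R B = Bw R B'
  | [], _ => rfl
  | r :: R, h => by
    have e1 : Bw (r :: R) B = B r ++ [3 * r + 2] ++ Bw R B := rfl
    have e2 : Bw (r :: R) B' = B' r ++ [3 * r + 2] ++ Bw R B' := rfl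
    rw [e1, e2, h r List.mem_cons_self,
      Bw_congr (R := R) (fun s hs => h s (List.mem_cons_of_mem _ hs))]

theorem not_mem_pl {x : ℕ} (hx : x % 3 = 0) (R : List ℕ) : x ∉ Bw R pl0 := by
  intro h
  unfold Bw at h
  obtain ⟨r, -, hr⟩ := List.mem_flatMap.mp h
  unfold pl0 at hr
  simp only [List.mem_append, List.mem_singleton] at hr
  omega

theorem not_mem_cp {n m k x : ℕ} {c : List ℕ} (hC : Cn n m c) (hx : x % 3 = 0) (hx2 : x < 42) :
    x ∉ cp k c := by
  intro h
  unfold cp at h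
  obtain ⟨a, ha, hax⟩ := List.mem_map.mp h
  unfold cl at hax
  rcases hC.lo a ha with ⟨d, -, hd⟩ | ⟨h1, h2⟩
  · omega
  · omega

theorem not_mem_P {k x y : ℕ} (h : x ≠ y) : x ∉ P k y :=
  fun hm => h (List.eq_of_mem_replicate hm)

theorem swx (h1 : PerStmt) : SwxStmt := by
  intro n m R c b hR hC
  obtain ⟨hnd, h0, -, -⟩ := h1 m R hR
  obtain ⟨R1, R2, hRR⟩ := List.append_of_mem h0
  have h01 : 0 ∉ R1 ++ R2 := by
    rw [hRR, List.nodup_middle, List.nodup_cons] at hnd
    exact hnd.1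
  have hW : ∀ a b : ℕ, Ww R c a b = Bw R1 pl0 ++ (Lw a b c ++ (2 :: Bw R2 pl0)) := by
    intro a b
    have e1 : Ww R c a b = Bw (R7 R) (fun r => if r = 0 then Lw a b c else pl0 r) := rfl
    have e2 : Bw R1 (fun r => if r = 0 then Lw a b c else pl0 r) = Bw R1 pl0 := by
      apply Bw_congr
      intro r hr
      rw [if_neg]
      intro h
      exact h01 (List.mem_append_left _ (h ▸ hr))
    have e3 : Bw R2 (fun r => if r = 0 then Lw a b c else pl0 r) = Bw R2 pl0 := by
      apply Bw_congr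
      intro r hr
      rw [if_neg]
      intro h
      exact h01 (List.mem_append_right _ (h ▸ hr))
    rw [← e2, ← e3, e1, hRR]
    unfold Bw
    rw [List.flatMap_append, List.flatMap_cons]
    simp only [↓reduceIte, List.append_assoc, List.cons_append, List.nil_append, Nat.mul_zero,
      Nat.zero_add]
  have c0 : ∀ k, 0 ∉ cp k c := fun k => not_mem_cp hC (by norm_num) (by norm_num)
  have c6 : ∀ k, 6 ∉ cp k c := fun k => not_mem_cp hC (by norm_num) (by norm_num)
  have r0 : ∀ R : List ℕ, 0 ∉ Bw R pl0 := fun R => not_mem_pl (by norm_num) R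
  have r6 : ∀ R : List ℕ, 6 ∉ Bw R pl0 := fun R => not_mem_pl (by norm_num) R
  have q0 : 0 ∉ P b 6 := not_mem_P (by norm_num)
  have q6 : 6 ∉ P b 0 := not_mem_P (by norm_num)
  constructor
  · refine ⟨Bw R1 pl0, cp 0 c ++ 3 :: (cp 1 c ++ (cp 2 c ++ (P b 6 ++ cp 3 c))),
      cp 4 c ++ 3 :: (cp 5 c ++ (cp 6 c ++ (P b 6 ++ 2 :: Bw R2 pl0))), r0 R1, ?_, ?_, ?_⟩
    · simp only [List.mem_append, List.mem_cons, not_or]
      exact ⟨c0 0, by norm_num, c0 1, c0 2, q0, c0 3⟩
    · simp only [List.mem_append, List.mem_cons, not_or]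
      exact ⟨c0 4, by norm_num, c0 5, c0 6, q0, by norm_num, r0 R2⟩
    · intro a
      rw [hW a b]
      unfold Lw
      simp only [List.append_assoc, List.cons_append]
  · refine ⟨Bw R1 pl0 ++ (P b 0 ++ (cp 0 c ++ 3 :: (cp 1 c ++ cp 2 c))),
      cp 3 c ++ (P b 0 ++ (cp 4 c ++ 3 :: (cp 5 c ++ cp 6 c))), 2 :: Bw R2 pl0, ?_, ?_, ?_, ?_⟩
    · simp only [List.mem_append, List.mem_cons, not_or]
      exact ⟨r6 R1, q6, c6 0, by norm_num, c6 1, c6 2⟩
    · simp only [List.mem_append, List.mem_cons, not_or]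
      exact ⟨c6 3, q6, c6 4, by norm_num, c6 5, c6 6⟩
    · simp only [List.mem_cons, not_or]
      exact ⟨by norm_num, r6 R2⟩
    · intro a
      rw [hW b a]
      unfold Lw
      simp only [List.append_assoc, List.cons_append]

end Pool.Agent.MWTQ.H19
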