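import Pool.Agent.Helper96_MWQ.TG3N
import Pool.Agent.Helper96_MWQ.H11_FUN2
import Pool.Agent.Helper96_MWQ.H77_THX

/-!
# One additional rigid light letter (MP_23468a_al)

If `T(c)` fails in the context `R` then it fails for `c z` with one new light letter `z = 3 m + 1` whose
place is at the right end (if `SR` fails) or at the left end (if `SL` fails).
-/

set_option autoImplicit false

namespace Pool.Agent.MWTQ

open Pool.Agent.Helper14_MV Pool.Agent.Helper2_MV Pool.Agent.MVD Pool.Agent.Helper96_MWQ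

/-- the situation of the induction step -/
structure S6 (n : ℕ) (β : FIC) (m : ℕ) (R c : List ℕ) : Prop where
  wo : Wo n β
  lt : ∀ m' < m, Helper96_MWV.LfBm n m' β
  h2 : ∀ c' : List ℕ, Cn n m c' → nd c' < nd c → ∀ (R' : List ℕ) (pl' : ℕ → List ℕ),
    Pl m R' pl' → Th n β R' pl' c'
  fl : Helper96_MWV.Fil n β
  cn : Cn n m c
  m1 : 1 ≤ m
  k2 : 2 ≤ nd c
  pR : R.Perm (List.range (m + 1))
  no : ¬ Th n β R pl0 c

variable {n m : ℕ} {β : FIC} {R c : List ℕ}

theorem cn_hat (h : Cn n m c) : Cn n (m + 1) (c ++ [3 * m + 1]) := by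
  constructor
  · intro d hd
    rw [List.count_append]
    by_cases hdm : d = m
    · subst hdm
      have h0 : c.count (3 * d + 1) = 0 := by
        rw [List.count_eq_zero]
        intro h1
        rcases h.lo _ h1 with ⟨d', hd', h2⟩ | ⟨h2, -⟩
        · omega
        · omega
      rw [h0]
      simp
    · have h0 : [3 * m + 1].count (3 * d + 1) = 0 := by
        rw [List.count_eq_zero, List.mem_singleton]
        omega
      rw [h0, h.li d (by omega)]
  · intro a ha
    rcases List.mem_append.1 ha with h1 | h1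
    · rcases h.lo a h1 with ⟨d, hd, h2⟩ | h2
      · exact Or.inl ⟨d, by omega, h2⟩
      · exact Or.inr h2
    · rw [List.mem_singleton] at h1
      exact Or.inl ⟨m, by omega, h1⟩
  · intro a ha h3
    rcases List.mem_append.1 ha with h1 | h1
    · obtain ⟨A, C, e, hA, hC⟩ := h.bl a h1 h3
      refine ⟨A, C ++ [3 * m + 1], ?_, hA, ?_⟩
      · rw [e]
        simp only [List.append_assoc]
      · rw [List.mem_append, List.mem_singleton, not_or]
        exact ⟨hC, by omega⟩
    · rw [List.mem_singleton] at h1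
      omega

theorem bp_filt (δ : ℕ → Bool) (R : List ℕ) (pl : ℕ → List ℕ) (L : List ℕ)
    (h : ∀ r ∈ R, δ (3 * r + 2) = true) :
    (Bp R pl L).filter δ = Bp R (fun r => (pl r).filter δ) (L.filter δ) := by
  unfold Bp Bw
  rw [List.filter_flatMap]
  refine List.flatMap_congr (fun r hr => ?_)
  rw [List.filter_append]
  have e : [3 * r + 2].filter δ = [3 * r + 2] := by
    rw [List.filter_cons_of_pos (h r hr)]
    rfl
  rw [e]
  beta_reduce
  by_cases h0 : r = 0
  · rw [if_pos h0, if_pos h0]
  · rw [if_neg h0, if_neg h0]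

theorem bp_ext {R : List ℕ} {pl pl' : ℕ → List ℕ} {L : List ℕ}
    (h : ∀ r ∈ R, r ≠ 0 → pl r = pl' r) : Bp R pl L = Bp R pl' L := by
  unfold Bp Bw
  refine List.flatMap_congr (fun r hr => ?_)
  beta_reduce
  by_cases h0 : r = 0
  · rw [if_pos h0, if_pos h0]
  · rw [if_neg h0, if_neg h0, h r hr h0]

theorem filt_self {δ : ℕ → Bool} {l : List ℕ} (h : ∀ a ∈ l, δ a = true) : l.filter δ = l :=
  List.filter_eq_self.2 h

theorem bp_app (S T : List ℕ) (pl : ℕ → List ℕ) (L : List ℕ) :
    Bp (S ++ T) pl L = Bp S pl L ++ Bp T pl L := by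
  unfold Bp
  rw [bw_app]

/-- without the new light letter -/
def nz (m : ℕ) (a : ℕ) : Bool := !decide (a = 3 * m + 1)
/-- without the new light letter and its separator -/
def nzs (m : ℕ) (a : ℕ) : Bool := !decide (a = 3 * m + 1 ∨ a = 3 * (m + 1) + 2)
/-- without the separators of the new places -/
def ns (m : ℕ) (a : ℕ) : Bool := !decide (a % 3 = 2 ∧ 21 * m + 5 ≤ a)

theorem c_nz (h : Cn n m c) : ∀ a ∈ c, nz m a = true ∧ nzs m a = true ∧ ns m a = true := by
  intro a ha
  unfold nz nzs ns
  rcases h.lo a ha with ⟨d, hd, h2⟩ | ⟨h2, -⟩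
  · refine ⟨?_, ?_, ?_⟩ <;> simp <;> omega
  · refine ⟨?_, ?_, ?_⟩ <;> simp <;> omega

theorem r_le (h : R.Perm (List.range (m + 1))) : ∀ r ∈ R, r ≤ m := by
  intro r hr
  have := List.mem_range.1 (h.mem_iff.1 hr)
  omega

/-- `T` fails for the longer run -/
theorem no_hat (hc : Cn n m c) (hR : R.Perm (List.range (m + 1))) (hno : ¬ Th n β R pl0 c)
    {R' : List ℕ} (hR' : R' = R ++ [m + 1] ∨ R' = (m + 1) :: R) :
    ¬ Th n β R' pl0 (c ++ [3 * m + 1]) := by
  intro hT
  apply hno
  unfold Th at hT ⊢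
  have h1 := hT.filter (nzs m)
  have hle := r_le hR
  have e1 : ∀ L : List ℕ, (∀ a ∈ L, nzs m a = true) → (Bp R pl0 L).filter (nzs m) = Bp R pl0 L := by
    intro L hL
    rw [bp_filt (nzs m) R pl0 L (fun r hr => by
      have := hle r hr
      unfold nzs
      simp
      omega), filt_self hL]
    refine bp_ext (fun r hr hr0 => filt_self ?_)
    intro a ha
    have := hle r hr
    unfold pl0 at ha
    rw [List.mem_singleton] at ha
    unfold nzs
    simp
    omega
  have e2 : ∀ L : List ℕ, (Bp [m + 1] pl0 L).filter (nzs m) = [] := by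
    intro L
    have e : Bp [m + 1] pl0 L = [3 * m + 1, 3 * (m + 1) + 2] := by
      unfold Bp Bw pl0
      rw [List.flatMap_cons]
      beta_reduce
      rw [if_neg (by omega)]
      simp
    rw [e]
    unfold nzs
    simp
  have e3 : ∀ L : List ℕ, (Bp R' pl0 L).filter (nzs m) = (Bp R pl0 L).filter (nzs m) := by
    intro L
    rcases hR' with rfl | rfl
    · rw [bp_app, List.filter_append, e2, List.append_nil]
    · have e : (m + 1) :: R = [m + 1] ++ R := rfl
      rw [e, bp_app, List.filter_append, e2, List.nil_append]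
  have e4 : ∀ L : List ℕ, (Bp R pl0 L).filter (nzs m) = (Bp R pl0 (L.filter (nzs m))).filter (nzs m) := by
    intro L
    rw [bp_filt (nzs m) R pl0 L (fun r hr => by
      have := hle r hr
      unfold nzs
      simp
      omega), bp_filt (nzs m) R pl0 (L.filter (nzs m)) (fun r hr => by
      have := hle r hr
      unfold nzs
      simp
      omega), List.filter_filter]
    congr 1
    refine List.filter_congr (fun a _ => ?_)
    simp
  have hz0 : nzs m 0 = true := by unfold nzs; simp
  have e5 : ∀ j : ℕ, (P j 0 ++ ((c ++ [3 * m + 1]) ++ P j 0)).filter (nzs m) =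
      P j 0 ++ (c ++ P j 0) := by
    intro j
    have hp : (P j 0).filter (nzs m) = P j 0 := filt_self (fun a ha => by
      rw [List.eq_of_mem_replicate ha]
      exact hz0)
    have hs : [3 * m + 1].filter (nzs m) = [] := by unfold nzs; simp
    rw [List.filter_append, List.filter_append, List.filter_append, hp, hs,
      filt_self (fun a ha => (c_nz hc a ha).2.1), List.append_nil]
  have e6 : ∀ j : ℕ, ∀ a ∈ P j 0 ++ (c ++ P j 0), nzs m a = true := by
    intro j a ha
    rcases List.mem_append.1 ha with h2 | h2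
    · rw [List.eq_of_mem_replicate h2]
      exact hz0
    · rcases List.mem_append.1 h2 with h2 | h2
      · exact (c_nz hc a h2).2.1
      · rw [List.eq_of_mem_replicate h2]
        exact hz0
  have f1 : (0 :: ((c ++ [3 * m + 1]) ++ [0])) = P 1 0 ++ ((c ++ [3 * m + 1]) ++ P 1 0) := rfl
  rw [f1, e3, e3, e4 (P 1 0 ++ ((c ++ [3 * m + 1]) ++ P 1 0)),
    e4 (P (n + 1) 0 ++ ((c ++ [3 * m + 1]) ++ P (n + 1) 0)), e5, e5, e1 _ (e6 1),
    e1 _ (e6 (n + 1))] at h1
  exact h1

/-- the places without the new light letter -/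
def pl2 (m k : ℕ) (r : ℕ) : List ℕ := (plk (fun _ => k) r).filter (nz m)

theorem R7_app (S T : List ℕ) : R7 (S ++ T) = R7 S ++ R7 T := by
  unfold R7
  rw [List.flatMap_append]

/-- the new places -/
theorem bp_new {k : ℕ} (L : List ℕ) : (Bp (R7 [m + 1]) (pl2 m k) L).filter (ns m) = [] := by
  have e : R7 [m + 1] = (List.range 7).map (fun k => 7 * m + k + 1) := by
    unfold R7
    rw [List.flatMap_cons, List.flatMap_nil, List.append_nil, if_neg (by omega)]
    rfl
  rw [e]
  unfold Bp Bw
  rw [List.filter_flatMap, List.flatMap_map]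
  rw [List.flatMap_eq_nil_iff]
  intro j hj
  have hj7 := List.mem_range.1 hj
  beta_reduce
  rw [if_neg (by omega), List.filter_append]
  have e1 : pl2 m k (7 * m + j + 1) = [] := by
    unfold pl2 plk
    have h1 : (7 * m + j + 1 - 1) / 7 = m := by omega
    rw [h1]
    split_ifs
    · unfold nz
      simp
    · rfl
  have e2 : [3 * (7 * m + j + 1) + 2].filter (ns m) = [] := by
    unfold ns
    rw [List.filter_cons_of_neg]
    · rfl
    · simp
      omega
  rw [e1, e2]
  rfl

theorem bp_old {k : ℕ} (hper : PerStmt) (hR : R.Perm (List.range (m + 1))) (L : List ℕ)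
    (hL : ∀ a ∈ L, ns m a = true) :
    (Bp (R7 R) (pl2 m k) L).filter (ns m) = Bp (R7 R) (plk (fun _ => k)) L := by
  obtain ⟨-, -, -, p4⟩ := hper m R hR
  rw [bp_filt (ns m) (R7 R) _ L (fun r hr => by
    rcases p4 r hr with h | ⟨b, hb, h⟩
    · unfold ns
      simp
      omega
    · unfold ns
      simp
      omega), filt_self hL]
  refine bp_ext (fun r hr hr0 => ?_)
  rcases p4 r hr with h | ⟨b, hb, h⟩
  · exact absurd h hr0
  · have h1 : (r - 1) / 7 < m := by omega
    have h2 : pl2 m k r = plk (fun _ => k) r := by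
      unfold pl2
      refine filt_self (fun a ha => ?_)
      unfold plk at ha
      split_ifs at ha
      · rw [List.mem_singleton] at ha
        unfold nz
        simp
        omega
      · simp at ha
    rw [h2]
    refine filt_self (fun a ha => ?_)
    unfold plk at ha
    split_ifs at ha
    · rw [List.mem_singleton] at ha
      unfold ns
      simp
      omega
    · simp at ha

theorem bp_both {k : ℕ} (hper : PerStmt) (hR : R.Perm (List.range (m + 1)))
    {R' : List ℕ} (hR' : R' = R ++ [m + 1] ∨ R' = (m + 1) :: R) (L : List ℕ)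
    (hL : ∀ a ∈ L, ns m a = true) :
    (Bp (R7 R') (pl2 m k) L).filter (ns m) = Bp (R7 R) (plk (fun _ => k)) L := by
  rcases hR' with rfl | rfl
  · rw [R7_app, bp_app, List.filter_append, bp_new, List.append_nil, bp_old hper hR L hL]
  · have e : (m + 1) :: R = [m + 1] ++ R := rfl
    rw [e, R7_app, bp_app, List.filter_append, bp_new, List.nil_append, bp_old hper hR L hL]

theorem no2 {k : ℕ} (hper : PerStmt) (hthx : ThxStmt) (hk : k < 7) (hc : Cn n m c)
    (hR : R.Perm (List.range (m + 1))) (hno : ¬ Th n β R pl0 c)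
    {R' : List ℕ} (hR' : R' = R ++ [m + 1] ∨ R' = (m + 1) :: R) :
    ¬ Th n β (R7 R') (pl2 m k) c := by
  intro hT
  apply hno
  apply (hthx n β m R c (fun _ => k) hc hR (fun _ _ => hk)).2
  unfold Th at hT ⊢
  have h1 := hT.filter (ns m)
  have hz0 : ns m 0 = true := by unfold ns; simp
  rw [bp_both hper hR hR' _ (by
    intro a ha
    rcases List.mem_cons.1 ha with h2 | h2
    · rw [h2]
      exact hz0
    · rcases List.mem_append.1 h2 with h2 | h2
      · exact (c_nz hc a h2).2.2
      · rw [List.mem_singleton.1 h2]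
        exact hz0), bp_both hper hR hR' _ (by
    intro a ha
    rcases List.mem_append.1 ha with h2 | h2
    · rw [List.eq_of_mem_replicate h2]
      exact hz0
    · rcases List.mem_append.1 h2 with h2 | h2
      · exact (c_nz hc a h2).2.2
      · rw [List.eq_of_mem_replicate h2]
        exact hz0)] at h1
  exact h1

theorem perm_hat (hR : R.Perm (List.range (m + 1)))
    {R' : List ℕ} (hR' : R' = R ++ [m + 1] ∨ R' = (m + 1) :: R) :
    R'.Perm (List.range (m + 1 + 1)) := by
  rw [List.range_succ]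
  rcases hR' with rfl | rfl
  · exact hR.append_right _
  · exact (List.perm_append_singleton (m + 1) R).symm.trans (hR.append_right _)

theorem pl_hat (β : FIC) {k : ℕ} (hthx : ThxStmt) (hk : k < 7) (hc : Cn n m c)
    (hR : R.Perm (List.range (m + 1)))
    {R' : List ℕ} (hR' : R' = R ++ [m + 1] ∨ R' = (m + 1) :: R) :
    Pl m (R7 R') (pl2 m k) := by
  obtain ⟨h1, -⟩ := hthx n β (m + 1) R' (c ++ [3 * m + 1]) (fun _ => k) (cn_hat hc)
    (perm_hat hR hR') (fun _ _ => hk)
  refine ⟨h1.nd, h1.z, ?_, ?_⟩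
  · intro d hd
    obtain ⟨r, hr, hr0, h2, h3⟩ := h1.ex d (by omega)
    refine ⟨r, hr, hr0, ?_, ?_⟩
    · unfold pl2
      rw [h2]
      refine filt_self (fun a ha => ?_)
      rw [List.mem_singleton] at ha
      unfold nz
      simp
      omega
    · intro s hs hs0 hsr h4
      unfold pl2 at h4
      exact h3 s hs hs0 hsr (List.mem_filter.1 h4).1
  · intro r hr hr0
    rcases h1.em r hr hr0 with h2 | ⟨d, hd, h2⟩
    · left
      unfold pl2
      rw [h2]
      rfl
    · by_cases hdm : d = m
      · left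
        unfold pl2
        rw [h2, hdm]
        unfold nz
        simp
      · right
        refine ⟨d, by omega, ?_⟩
        unfold pl2
        rw [h2]
        refine filt_self (fun a ha => ?_)
        rw [List.mem_singleton] at ha
        unfold nz
        simp
        omega

/-- **The thin runs of the projections are thin.** -/
theorem fu_hat (hper : PerStmt) (hthx : ThxStmt) (S : S6 n β m R c) {R' : List ℕ}
    (hR' : R' = R ++ [m + 1] ∨ R' = (m + 1) :: R)
    (hrg : (¬ Helper96_MWV.SR β ∧ ∃ R1 R2, R' = R1 ++ 0 :: R2 ∧ m + 1 ∈ R2) ∨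
      (¬ Helper96_MWV.SL β ∧ ∃ R1 R2, R' = R1 ++ 0 :: R2 ∧ m + 1 ∈ R1)) :
    ∀ k < 7, ∀ (B : ℕ → List ℕ) (e : List ℕ), (∀ r, SFr (B r)) → SFr e →
    RR β (Bp (R7 R') (plk (fun _ => k)) (0 :: ((c ++ [3 * m + 1]) ++ [0]))) (Bw (R7 R') B ++ e) →
      (∃ p U q : List ℕ, B 0 = p ++ 0 :: (U ++ 0 :: q) ∧ 0 ∉ p ∧ 0 ∉ U ∧ 0 ∉ q ∧
        (∀ a ∈ c ++ [3 * m + 1], a ∈ U) ∧ ∀ a ∈ p ++ (U ++ q), a ∈ c ++ [3 * m + 1]) ∧
      (∀ r ∈ R7 R', r ≠ 0 → 0 ∉ B r) ∧ 0 ∉ e := by
  intro k hk B e hB he h
  have hz0 : nz m 0 = true := by unfold nz; simp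
  have h1 := h.filter (nz m)
  have hsep : ∀ r : ℕ, nz m (3 * r + 2) = true := by
    intro r
    unfold nz
    simp
    omega
  have e1 : (Bp (R7 R') (plk (fun _ => k)) (0 :: ((c ++ [3 * m + 1]) ++ [0]))).filter (nz m) =
      Bp (R7 R') (pl2 m k) (0 :: (c ++ [0])) := by
    rw [bp_filt (nz m) _ _ _ (fun r _ => hsep r)]
    have f1 : (0 :: ((c ++ [3 * m + 1]) ++ [0])).filter (nz m) = 0 :: (c ++ [0]) := by
      rw [List.filter_cons_of_pos hz0, List.filter_append, List.filter_append,
        filt_self (fun a ha => (c_nz S.cn a ha).1)]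
      have g1 : [3 * m + 1].filter (nz m) = [] := by unfold nz; simp
      have g2 : [0].filter (nz m) = [0] := filt_self (fun a ha => by
        rw [List.mem_singleton] at ha
        rw [ha]
        exact hz0)
      rw [g1, g2, List.append_nil]
    rw [f1]
    rfl
  have e2 : (Bw (R7 R') B ++ e).filter (nz m) =
      Bw (R7 R') (fun r => (B r).filter (nz m)) ++ e.filter (nz m) := by
    rw [List.filter_append]
    congr 1
    unfold Bw
    rw [List.filter_flatMap]
    refine List.flatMap_congr (fun r _ => ?_)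
    rw [List.filter_append, List.filter_cons_of_pos (hsep r)]
    rfl
  rw [e1, e2] at h1
  have hSt : St n β m (R7 R') (pl2 m k) c :=
    { wo := S.wo, lt := S.lt, h2 := S.h2, fl := S.fl, cn := S.cn, m1 := S.m1, k2 := S.k2,
      pc := pl_hat β hthx hk S.cn S.pR hR', no := no2 hper hthx hk S.cn S.pR S.no hR' }
  obtain ⟨⟨p, U, q, f1, f2, f3, f4, f5, f6⟩, f7, f8⟩ := H11.funT n β m (R7 R') (pl2 m k) c
    (fun r => (B r).filter (nz m)) (e.filter (nz m)) hSt
    (fun r a ha => hB r a (List.mem_filter.1 ha).1) (fun a ha => he a (List.mem_filter.1 ha).1) h1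
  have f1' : (B 0).filter (nz m) = p ++ 0 :: (U ++ 0 :: q) := f1
  have hmem : ∀ l : List ℕ, 0 ∉ l.filter (nz m) → 0 ∉ l := fun l h1 h2 =>
    h1 (List.mem_filter.2 ⟨h2, hz0⟩)
  have hcnt : (B 0).count 0 = 2 := by
    have h2 : ((B 0).filter (nz m)).count 0 = (B 0).count 0 := by
      rw [List.count_filter hz0]
    rw [← h2, f1', List.count_append, List.count_cons_self, List.count_append,
      List.count_cons_self, List.count_eq_zero_of_not_mem f2, List.count_eq_zero_of_not_mem f3,
      List.count_eq_zero_of_not_mem f4]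
  obtain ⟨p', U', q', g1, g2, g3, g4⟩ := H11.split2 hcnt
  have g5 : U = U'.filter (nz m) := by
    rw [g1, List.filter_append, List.filter_cons_of_pos hz0, List.filter_append,
      List.filter_cons_of_pos hz0] at f1'
    exact (H95.cut0 f1' (fun h => g2 (List.mem_filter.1 h).1)
      (fun h => g3 (List.mem_filter.1 h).1) f2 f3).symm
  have hr0 : ∀ r ∈ R7 R', r ≠ 0 → 0 ∉ B r := fun r hr hr0 => hmem _ (f7 r hr hr0)
  have he0 : 0 ∉ e := hmem _ f8
  have hch := cn_hat S.cn
  obtain ⟨hnd, -, -, -⟩ := hper (m + 1) R' (perm_hat S.pR hR')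
  have c0 : 0 ∉ c ++ [3 * m + 1] := by
    intro h
    rcases hch.lo 0 h with ⟨d, hd, h'⟩ | ⟨-, h'⟩
    · omega
    · omega
  have cs : SFr (c ++ [3 * m + 1]) := by
    intro a ha
    rcases hch.lo a ha with ⟨d, hd, h'⟩ | ⟨h', -⟩
    · omega
    · omega
  have cg : (c ++ [3 * m + 1]).flatMap (gg (3 * (m + 1 - 1) + 1) 2) = [1] := by
    rw [gg_rep (by omega) c0 cs, hch.li _ (by omega)]
    rfl
  have hL : SFr (0 :: ((c ++ [3 * m + 1]) ++ [0])) := by
    intro a ha
    rcases List.mem_cons.1 ha with h3 | h3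
    · omega
    · rcases List.mem_append.1 h3 with h3 | h3
      · exact cs a h3
      · rw [List.mem_singleton] at h3
        omega
  have key := rigw S.wo.i3 (by omega : 1 ≤ m + 1) hnd hrg hk (κ := fun _ => k) rfl hL
    (Or.inl rfl : X3 [0, 1, 0]) (by
      rw [List.flatMap_cons, List.flatMap_append, cg]
      rfl) hB he h g1 g2 g3 g4 hr0 he0
  have hzU : 3 * m + 1 ∈ U' := key.2 rfl
  refine ⟨⟨p', U', q', g1, g2, g3, g4, ?_, ?_⟩, hr0, he0⟩
  · intro a ha
    rcases List.mem_append.1 ha with h2 | h2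
    · have h3 := f5 a h2
      rw [g5] at h3
      exact (List.mem_filter.1 h3).1
    · rw [List.mem_singleton.1 h2]
      exact hzU
  · intro a ha
    by_cases ha2 : nz m a = true
    · refine List.mem_append_left _ (f6 a ?_)
      rw [g1, List.filter_append, List.filter_cons_of_pos hz0, List.filter_append,
        List.filter_cons_of_pos hz0] at f1'
      have g6 : a ∈ (p'.filter (nz m) ++ 0 :: (U'.filter (nz m) ++ 0 :: q'.filter (nz m))) := by
        rcases List.mem_append.1 ha with h2 | h2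
        · exact List.mem_append_left _ (List.mem_filter.2 ⟨h2, ha2⟩)
        · rcases List.mem_append.1 h2 with h2 | h2
          · exact List.mem_append_right _ (List.mem_cons_of_mem _ (List.mem_append_left _
              (List.mem_filter.2 ⟨h2, ha2⟩)))
          · exact List.mem_append_right _ (List.mem_cons_of_mem _ (List.mem_append_right _
              (List.mem_cons_of_mem _ (List.mem_filter.2 ⟨h2, ha2⟩))))
      have ha0 : a ≠ 0 := by
        rintro rfl
        rcases List.mem_append.1 ha with h2 | h2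
        · exact g2 h2
        · rcases List.mem_append.1 h2 with h2 | h2
          · exact g3 h2
          · exact g4 h2
      rw [f1'] at g6
      rcases List.mem_append.1 g6 with h2 | h2
      · exact List.mem_append_left _ h2
      · rcases List.mem_cons.1 h2 with h2 | h2
        · exact absurd h2 ha0
        · rcases List.mem_append.1 h2 with h2 | h2
          · exact List.mem_append_right _ (List.mem_append_left _ h2)
          · rcases List.mem_cons.1 h2 with h2 | h2
            · exact absurd h2 ha0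
            · exact List.mem_append_right _ (List.mem_append_right _ h2)
    · unfold nz at ha2
      simp only [Bool.not_eq_true', decide_eq_false_iff_not, not_not] at ha2
      rw [ha2]
      simp

/-- **The situation for the longer run.** -/
theorem s7_hat (hper : PerStmt) (hthx : ThxStmt) (S : S6 n β m R c)
    (h : ¬ (Helper96_MWV.SR β ∧ Helper96_MWV.SL β)) :
    ∃ R' : List ℕ, S7 n β (m + 1) R' (c ++ [3 * m + 1]) := by
  obtain ⟨R1, R2, eR⟩ := List.append_of_mem (hper m R S.pR).2.1
  have h0 : 0 ∈ R := S.pR.mem_iff.2 (List.mem_range.2 (by omega))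
  obtain ⟨T1, T2, eT⟩ := List.append_of_mem h0
  by_cases hs : Helper96_MWV.SR β
  · have hs' : ¬ Helper96_MWV.SL β := fun h' => h ⟨hs, h'⟩
    have hrg : (¬ Helper96_MWV.SR β ∧ ∃ R1 R2, (m + 1) :: R = R1 ++ 0 :: R2 ∧ m + 1 ∈ R2) ∨
        (¬ Helper96_MWV.SL β ∧ ∃ R1 R2, (m + 1) :: R = R1 ++ 0 :: R2 ∧ m + 1 ∈ R1) :=
      Or.inr ⟨hs', (m + 1) :: T1, T2, by rw [eT]; rfl, List.mem_cons_self⟩
    exact ⟨(m + 1) :: R, S.wo, cn_hat S.cn, Nat.succ_le_succ (Nat.zero_le m),
      perm_hat S.pR (Or.inr rfl), no_hat S.cn S.pR S.no (Or.inr rfl),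
      fu_hat hper hthx S (Or.inr rfl) hrg, hrg⟩
  · have hrg : (¬ Helper96_MWV.SR β ∧ ∃ R1 R2, R ++ [m + 1] = R1 ++ 0 :: R2 ∧ m + 1 ∈ R2) ∨
        (¬ Helper96_MWV.SL β ∧ ∃ R1 R2, R ++ [m + 1] = R1 ++ 0 :: R2 ∧ m + 1 ∈ R1) :=
      Or.inl ⟨hs, T1, T2 ++ [m + 1], by rw [eT]; simp, by simp⟩
    exact ⟨R ++ [m + 1], S.wo, cn_hat S.cn, Nat.succ_le_succ (Nat.zero_le m),
      perm_hat S.pR (Or.inl rfl), no_hat S.cn S.pR S.no (Or.inl rfl),
      fu_hat hper hthx S (Or.inl rfl) hrg, hrg⟩

end Pool.Agent.MWTQ
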