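import Pool.Agent.Helper96_MWQ.Pnt
import Pool.Agent.Helper29_MWV.ASM
import Pool.Agent.Helper61_MWD.Disp
import Pool.Agent.MWGR.Defs

/-!
# The families `I1`, `It` for all periods without residue crossing (MP_23468a_al)

`It n`: `p x w w' x q ≈ p x w x^n w' x q` if every letter of `w` and `w'` occurs at least twice in the
word.  World: `R0`, `L n` and the two letter instances `Q4 n`, in which the labels of the light
occurrences agree modulo `n`.
-/

set_option autoImplicit false

namespace Pool.Agent.Helper96_MWQ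

open Pool.Agent.Helper14_MV Pool.Agent.Helper2_MV Pool.Agent.Helper96_MWV
  Pool.Agent.Helper61_MWD

variable {n : ℕ} {β : FIC}

/-- the four two letter instances -/
structure Q5 (n : ℕ) (β : FIC) : Prop where
  r : RR β ((P 1 0 ++ ([1] ++ P 1 0)) ++ 2 :: [1])
      ((P (n + 1) 0 ++ ([1] ++ P (n + 1) 0)) ++ 2 :: [1])
  l : RR β ([1] ++ 2 :: (P 1 0 ++ ([1] ++ P 1 0)))
      ([1] ++ 2 :: (P (n + 1) 0 ++ ([1] ++ P (n + 1) 0)))
  c2 : Co β (P (n + 1) 0) (P (n + 1) 1)
  b0 : RR β (P 1 0 ++ (P (n + 1) 1 ++ P 1 0)) (P (n + 1) 0 ++ (P (n + 1) 1 ++ P (n + 1) 0))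

theorem q4_of (h : Q5 n β) : Q4 n β where
  c2 := h.c2
  b0 := h.b0
  b1 := by
    intro p q x z hz
    rcases hz with h' | h'
    · obtain ⟨p1, p2, rfl⟩ := List.append_of_mem h'
      have h1 := cx p1 q (h.l.sub (fun i => if i = 0 then [x] else if i = 1 then [z] else p2))
      have e : ∀ j, ([1] ++ 2 :: (P j 0 ++ ([1] ++ P j 0))).flatMap
          (fun i => if i = 0 then [x] else if i = 1 then [z] else p2) =
          [z] ++ (p2 ++ (P j x ++ ([z] ++ P j x))) := by
        intro j
        have e0 : (P j 0).flatMap (fun i => if i = 0 then [x] else if i = 1 then [z] else p2) =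
            P j x := by
          rw [flat_P]
          have := pwd_P j 1 x
          rw [Nat.mul_one] at this
          exact this
        simp only [List.flatMap_append, List.flatMap_cons, List.flatMap_nil, e0]
        simp
      rw [e, e] at h1
      simp only [List.append_assoc, List.cons_append, List.nil_append] at h1 ⊢
      exact h1
    · obtain ⟨q1, q2, rfl⟩ := List.append_of_mem h'
      have h1 := cx p q2 (h.r.sub (fun i => if i = 0 then [x] else if i = 1 then [z] else q1))
      have e : ∀ j, ((P j 0 ++ ([1] ++ P j 0)) ++ 2 :: [1]).flatMap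
          (fun i => if i = 0 then [x] else if i = 1 then [z] else q1) =
          (P j x ++ ([z] ++ P j x)) ++ (q1 ++ [z]) := by
        intro j
        have e0 : (P j 0).flatMap (fun i => if i = 0 then [x] else if i = 1 then [z] else q1) =
            P j x := by
          rw [flat_P]
          have := pwd_P j 1 x
          rw [Nat.mul_one] at this
          exact this
        rw [List.flatMap_append, List.flatMap_cons, List.flatMap_append, List.flatMap_append, e0]
        simp
      rw [e, e] at h1
      simp only [List.append_assoc, List.cons_append, List.nil_append] at h1 ⊢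
      exact h1

/-- `IT` from the insertion of `x^(2n)` -/
theorem it_of (hn : 1 ≤ n) (ap : RR β [0, 0] (List.replicate (n + 2) 0)) (hL : LT n β) (hH : HF n β)
    (hv1 : ∀ (w : List ℕ) (a : ℕ), 3 ≤ w.count a → RR β w (hv n a w)) : MWGR.It n (RR β) := by
  intro p c d q x hm
  have h := ins hn ap hL hH p c d q x hm
  by_cases h2 : 2 ≤ n
  · have h3 := pc ap (p ++ (P 1 x ++ c)) (d ++ (P 1 x ++ q)) x n (2 * n) h2 ⟨1, by omega⟩
    simp only [List.append_assoc] at h3
    exact tr h h3.symm
  · have e : n = 1 := by omega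
    subst e
    refine tr h ?_
    have hu : ∀ k, 1 ≤ k → RR β (p ++ (P 1 x ++ (c ++ (P k x ++ (d ++ (P 1 x ++ q))))))
        (hv 1 x p ++ (P 2 x ++ (hv 1 x c ++ (P (2 * k) x ++ (hv 1 x d ++ (P 2 x ++ hv 1 x q)))))) := by
      intro k hk
      have h1 := hv1 (p ++ (P 1 x ++ (c ++ (P k x ++ (d ++ (P 1 x ++ q)))))) x (by
        simp only [List.count_append, List.count_replicate_self]
        omega)
      have eP : ∀ j, hv 1 x (P j x) = P (2 * j) x := by
        intro j
        change (P j x).flatMap (fun b => if b = x then P (1 + 1) x else [b]) = _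
        rw [flat_P, if_pos rfl, pwd_P]
        have e2 : j * (1 + 1) = 2 * j := by omega
        rw [e2]
      simp only [hv_app, eP] at h1
      exact h1
    have h4 := hu 2 (by omega)
    have h5 := hu 1 (by omega)
    have h6 := pc ap (hv 1 x p ++ (P 2 x ++ hv 1 x c)) (hv 1 x d ++ (P 2 x ++ hv 1 x q)) x 2 4
      (by omega) ⟨2, by omega⟩
    simp only [List.append_assoc] at h6
    exact tr h4 (tr h6.symm h5.symm)

theorem woq_of (hw : LRW n β) (hb : Q4 n β)
    (hv1 : ∀ (w : List ℕ) (a : ℕ), 3 ≤ w.count a → RR β w (hv n a w)) : MWTQ.Wo n β where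
  hn := hw.pos
  ap := hw.per
  i3 := hw.iso
  md := hw.md
  hv := hv1
  cm := cm_q hb
  b1 := hb.b1

/-- the fill statement -/
theorem fil_q (hw : LRW n β) (hb : Q4 n β) : Fil n β := by
  intro H p q a b x hx hnd hout
  exact MWV.H29.rfil β n hw.pos hw.md hw.iso hw.per (cm_q hb 0 3) H p q a b x hx hnd hout

/-- **`I1`, `IT` from the two letter instances.** -/
theorem i1t (hw : LRW n β) (hb : Q5 n β)
    (hv1 : ∀ (w : List ℕ) (a : ℕ), 3 ≤ w.count a → RR β w (hv n a w)) :
    MWZ.I1 n (RR β) ∧ MWGR.It n (RR β) := by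
  have hq := q4_of hb
  have hC := cm_q hq
  have hF := fil_q hw hq
  have hLf := lfB_of rowT_q (woq_of hw hq hv1) hq hF
  have hL := lt_of hw.per hw.pos hC hLf
  have hH := hf_of hw.per hw.pos hC hLf (rfb_of hw.per hw.pos hF)
  exact ⟨i1 hw.pos hw.per hL hH, it_of hw.pos hw.per hL hH hv1⟩

end Pool.Agent.Helper96_MWQ
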