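import Pool.Agent.Helper96_MWQ.Hat
import Pool.Agent.Helper96_MWQ.H11_ASM
import Pool.Agent.Helper96_MWQ.Final
import Pool.Agent.Helper11_MWT.ASM

/-!
# From the pentagon to the last row (MP_23468a_al; twin of Helper96_MWV/Pnt.lean)
-/

set_option autoImplicit false

namespace Pool.Agent.Helper96_MWQ

open Pool.Agent.Helper14_MV Pool.Agent.Helper2_MV Pool.Agent.Helper96_MWV

variable {β : FIC}

/-- isolated pins in all orders give arbitrary contexts -/
theorem th_ctx {n m : ℕ} {c : List ℕ} (hc : MWTQ.Cn n m c)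
    (h : ∀ R : List ℕ, R.Perm (List.range (m + 1)) → MWTQ.Th n β R MWTQ.pl0 c) (p q : List ℕ)
    (out : ∀ d < m, 3 * d + 1 ∈ p ∨ 3 * d + 1 ∈ q) :
    RR β (p ++ (P 1 0 ++ (c ++ (P 1 0 ++ q)))) (p ++ (P (n + 1) 0 ++ (c ++ (P (n + 1) 0 ++ q)))) := by
  classical
  obtain ⟨E1, hE1⟩ : ∃ E, E = (List.range m).filter (fun e => decide (3 * e + 1 ∈ p)) := ⟨_, rfl⟩
  obtain ⟨E2, hE2⟩ : ∃ E, E = (List.range m).filter (fun e => !decide (3 * e + 1 ∈ p)) := ⟨_, rfl⟩
  have hlt2 : ∀ e ∈ E2, e < m := fun e he => by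
    rw [hE2] at he
    exact List.mem_range.1 (List.mem_filter.1 he).1
  obtain ⟨g0, T, k, hT, hpT⟩ := MVD.H97.skel (fun e => 3 * e + 1) p E1
    (by rw [hE1]; exact List.nodup_range.filter _)
    (fun a ha b hb hab => by omega)
    (fun e he => by
      rw [hE1] at he
      simpa using (List.mem_filter.1 he).2)
  obtain ⟨g1, U, k', hU, hqU⟩ := MVD.H97.skel (fun e => 3 * e + 1) q E2
    (by rw [hE2]; exact List.nodup_range.filter _)
    (fun a ha b hb hab => by omega)
    (fun e he => by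
      have he' := he
      rw [hE2] at he'
      have h1 := (List.mem_filter.1 he').2
      simp only [Bool.not_eq_true', decide_eq_false_iff_not] at h1
      exact (out e (hlt2 e he)).resolve_left h1)
  have hperm : (T ++ U).Perm (List.range m) := by
    have h1 := hT.append hU
    rw [hE1, hE2] at h1
    exact h1.trans (List.filter_append_perm _ _)
  have hnd : (T ++ U).Nodup := hperm.nodup_iff.2 List.nodup_range
  have hR : (T.map (fun e => e + 1) ++ 0 :: U.map (fun e => e + 1)).Perm (List.range (m + 1)) := by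
    have h1 : (T.map (fun e => e + 1) ++ 0 :: U.map (fun e => e + 1)).Perm
        (0 :: (T.map (fun e => e + 1) ++ U.map (fun e => e + 1))) := List.perm_middle
    rw [← List.map_append] at h1
    refine h1.trans ?_
    rw [List.range_succ_eq_map]
    exact (hperm.map _).cons 0
  -- the substitution
  obtain ⟨g, hg⟩ : ∃ g : ℕ → List ℕ, g = fun i => if i = 2 then g1 else
    if i % 3 = 2 then (if (i - 5) / 3 ∈ T then k ((i - 5) / 3) else k' ((i - 5) / 3)) else [i] :=
    ⟨_, rfl⟩
  have g_2 : g 2 = g1 := by rw [hg]; rfl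
  have g_i : ∀ i, i % 3 ≠ 2 → g i = [i] := by
    intro i hi
    rw [hg]
    simp only
    rw [if_neg (by omega), if_neg hi]
  have g_T : ∀ e ∈ T, g (3 * e + 5) = k e := by
    intro e he
    rw [hg]
    simp only
    have e1 : (3 * e + 5 - 5) / 3 = e := by omega
    rw [if_neg (by omega), if_pos (by omega), e1, if_pos he]
  have g_U : ∀ e ∈ U, g (3 * e + 5) = k' e := by
    intro e he
    rw [hg]
    simp only
    have e1 : (3 * e + 5 - 5) / 3 = e := by omega
    have e2 : e ∉ T := fun h1 => (List.disjoint_of_nodup_append hnd) h1 he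
    rw [if_neg (by omega), if_pos (by omega), e1, if_neg e2]
  have g_id : ∀ w : List ℕ, (∀ a ∈ w, a % 3 ≠ 2) → w.flatMap g = w := by
    intro w
    induction w with
    | nil => intro _; rfl
    | cons a w ih =>
      intro hw
      rw [List.flatMap_cons, g_i a (hw a List.mem_cons_self),
        ih (fun b hb => hw b (List.mem_cons_of_mem _ hb))]
      rfl
  have hflat : ∀ (V : List ℕ) (k : ℕ → List ℕ), (∀ e ∈ V, g (3 * e + 5) = k e) →
      (pq V).flatMap g = V.flatMap (fun e => (3 * e + 1) :: k e) := by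
    intro V k
    induction V with
    | nil => intro _; rfl
    | cons e V ih =>
      intro hV
      have e1 : pq (e :: V) = [3 * e + 1, 3 * e + 5] ++ pq V := rfl
      rw [e1, List.flatMap_append, ih (fun a ha => hV a (List.mem_cons_of_mem _ ha)),
        List.flatMap_cons, List.flatMap_cons, List.flatMap_nil, g_i (3 * e + 1) (by omega),
        hV e List.mem_cons_self, List.flatMap_cons, List.append_nil]
      rfl
  have hcs : ∀ a ∈ c, a % 3 ≠ 2 := by
    intro a ha
    rcases hc.lo a ha with ⟨d, -, h⟩ | ⟨h, -⟩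
    · omega
    · omega
  have h9 : RR β ((Bq (T.map (fun e => e + 1) ++ 0 :: U.map (fun e => e + 1))
      (0 :: (c ++ [0]))).flatMap g) ((Bq (T.map (fun e => e + 1) ++ 0 :: U.map (fun e => e + 1))
      (P (n + 1) 0 ++ (c ++ P (n + 1) 0))).flatMap g) := (h _ hR).sub g
  rw [bq_eq, bq_eq] at h9
  have key : ∀ j : ℕ, g0 ++ ((pq T ++ ((P j 0 ++ (c ++ P j 0)) ++
      2 :: pq U)).flatMap g ++ []) = p ++ (P j 0 ++ (c ++ (P j 0 ++ q))) := by
    intro j
    have hj : (P j 0).flatMap g = P j 0 := g_id _ (fun a ha => by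
      rw [List.eq_of_mem_replicate ha]
      omega)
    rw [List.flatMap_append, List.flatMap_append, List.flatMap_append, List.flatMap_append,
      List.flatMap_cons, hflat T k g_T, hflat U k' g_U, g_id c hcs, hj, g_2]
    conv_rhs => rw [hpT, hqU]
    simp only [List.append_assoc, List.append_nil]
  have h10 := cx g0 [] h9
  have k1 := key 1
  have k2 := key (n + 1)
  have f1 : (0 :: (c ++ [0])) = P 1 0 ++ (c ++ P 1 0) := rfl
  rw [f1, k1, k2] at h10
  exact h10

/-- **The last row from the pentagons.** -/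
theorem rowT_q : RowT := by
  intro n β m R pl c wo lt h2 fl cn m1 k2 hPl
  have h : ∀ R : List ℕ, R.Perm (List.range (m + 1)) → MWTQ.Th n β R MWTQ.pl0 c := by
    intro R' hR'
    by_contra hno
    by_cases hss : Helper96_MWV.SR β ∧ Helper96_MWV.SL β
    · refine MWT.H11.pntF n β m R' c
        { wo := ⟨wo.hn, wo.ap, wo.i3, wo.md, wo.hv, wo.cm, hss.1, hss.2⟩, lt := lt, h2 := ?_,
          fl := fl, cn := ⟨cn.li, cn.lo, cn.bl⟩, m1 := m1, k2 := k2, pR := hR', no := hno }
      intro c' hc' hlt S pl' hS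
      exact h2 c' ⟨hc'.li, hc'.lo, hc'.bl⟩ hlt S pl' ⟨hS.nd, hS.z, hS.ex, hS.em⟩
    · obtain ⟨S, hS⟩ := MWTQ.s7_hat MWTQ.H11.perF MWTQ.H11.thxF
        (⟨wo, lt, h2, fl, cn, m1, k2, hR', hno⟩ : MWTQ.S6 n β m R' c) hss
      exact MWTQ.H11.pntF n β (m + 1) S _ hS
  obtain ⟨pre, post, e, ho⟩ := bp_split R pl hPl.z hPl.nd
  have hx := th_ctx cn h pre post (fun d hd => by
    obtain ⟨r, hr, hr0, h, -⟩ := hPl.ex d hd
    refine ho _ ⟨r, hr, hr0, ?_⟩
    rw [h]
    simp)
  unfold MWTQ.Th
  rw [e, e]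
  have f1 : (0 :: (c ++ [0])) ++ post = P 1 0 ++ (c ++ (P 1 0 ++ post)) := by
    change 0 :: ((c ++ [0]) ++ post) = 0 :: (c ++ ([0] ++ post))
    rw [List.append_assoc]
  rw [f1]
  simp only [List.append_assoc]
  exact hx

end Pool.Agent.Helper96_MWQ
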