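import Pool.Agent.Helper96_MWV.Runs2

/-!
# Rigid light letters if a residue shift fails (MP_23468a_al)

`ka`: over an `xtx` isoterm the words related to `xzx·s·z`, `zxx·s·z`, `xxz·s·z` (with the two `x` left
of `s`); `kb`: the mirror image.
-/

set_option autoImplicit false

namespace Pool.Agent.Helper96_MWQ

open Pool.Agent.Helper14_MV Pool.Agent.Helper2_MV Pool.Agent.Helper96_MWV

variable {β : FIC}

/-- without the letter `0` -/
def d0 (w : List ℕ) : List ℕ := w.filter (fun a => !decide (a = 0))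

theorem d0_app (u v : List ℕ) : d0 (u ++ v) = d0 u ++ d0 v := List.filter_append ..

theorem d0_id {u : List ℕ} (h : 0 ∉ u) : d0 u = u := by
  unfold d0
  rw [List.filter_eq_self]
  intro a ha
  have : a ≠ 0 := fun e => h (e ▸ ha)
  simp [this]

theorem d0_zero (u : List ℕ) : d0 (0 :: u) = d0 u := by
  unfold d0
  rw [List.filter_cons_of_neg (by simp)]

theorem d0_two (u : List ℕ) : d0 (2 :: u) = 2 :: d0 u := by
  unfold d0
  rw [List.filter_cons_of_pos (by simp)]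

/-- `u ++ 2 :: v = [1, 2, 1]` -/
theorem c121 {u v : List ℕ} (h : u ++ 2 :: v = [1, 2, 1]) : u = [1] ∧ v = [1] := by
  rcases u with _ | ⟨a, u⟩
  · simp at h
  · rcases u with _ | ⟨b, u⟩
    · simp only [List.cons_append, List.nil_append, List.cons.injEq] at h
      exact ⟨by rw [h.1], h.2.2⟩
    · rcases u with _ | ⟨c, u⟩
      · simp at h
      · simp at h

/-- exactly one of three words is `[1]` -/
theorem c1 {P U Q : List ℕ} (h : P ++ (U ++ Q) = [1]) :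
    (P = [1] ∧ U = [] ∧ Q = []) ∨ (P = [] ∧ U = [1] ∧ Q = []) ∨ (P = [] ∧ U = [] ∧ Q = [1]) := by
  rcases List.append_eq_singleton_iff.1 h with ⟨h1, h2⟩ | ⟨h1, h2⟩
  · rcases List.append_eq_singleton_iff.1 h2 with ⟨h3, h4⟩ | ⟨h3, h4⟩
    · exact Or.inr (Or.inr ⟨h1, h3, h4⟩)
    · exact Or.inr (Or.inl ⟨h1, h3, h4⟩)
  · rw [List.append_eq_nil_iff] at h2
    exact Or.inl ⟨h1, h2.1, h2.2⟩

/-- kind A: `L = X ++ [2, 1]` -/
theorem ka_pos (hi : Iso3 β) {X P U Q V : List ℕ} (hX : d0 X = [1])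
    (h : RR β (X ++ [2, 1]) (P ++ 0 :: (U ++ 0 :: (Q ++ 2 :: V)))) (hP : 0 ∉ P) (hU : 0 ∉ U)
    (hQ : 0 ∉ Q) (hV : 0 ∉ V) : V = [1] ∧ P ++ (U ++ Q) = [1] := by
  have h1 : RR β (d0 (X ++ [2, 1])) (d0 (P ++ 0 :: (U ++ 0 :: (Q ++ 2 :: V)))) := h.filter _
  rw [d0_app, hX, d0_app, d0_zero, d0_app, d0_zero, d0_app, d0_two, d0_two, d0_id hP, d0_id hU,
    d0_id hQ, d0_id hV] at h1
  have h2 := iso_aba hi (by decide : (1 : ℕ) ≠ 2) h1
  have h3 : (P ++ (U ++ Q)) ++ 2 :: V = [1, 2, 1] := by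
    rw [← h2]
    simp only [List.append_assoc]
  obtain ⟨h4, h5⟩ := c121 h3
  exact ⟨h5, h4⟩

theorem kb_pos (hi : Iso3 β) {X P U Q V : List ℕ} (hX : d0 X = [1])
    (h : RR β ([1, 2] ++ X) (V ++ 2 :: (P ++ 0 :: (U ++ 0 :: Q)))) (hP : 0 ∉ P) (hU : 0 ∉ U)
    (hQ : 0 ∉ Q) (hV : 0 ∉ V) : V = [1] ∧ P ++ (U ++ Q) = [1] := by
  have h1 : RR β (d0 ([1, 2] ++ X)) (d0 (V ++ 2 :: (P ++ 0 :: (U ++ 0 :: Q)))) := h.filter _
  rw [d0_app, hX, d0_app, d0_two, d0_app, d0_zero, d0_app, d0_zero, d0_id hP, d0_id hU, d0_id hQ,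
    d0_id hV] at h1
  have h2 := iso_aba hi (by decide : (1 : ℕ) ≠ 2) h1
  obtain ⟨h4, h5⟩ := c121 h2
  exact ⟨h4, h5⟩

/-- insertion of `0` before `2` -/
def i02 : ℕ → List ℕ := fun i => if i = 2 then [0, 2] else [i]
/-- insertion of `0` behind `2` -/
def i20 : ℕ → List ℕ := fun i => if i = 2 then [2, 0] else [i]

theorem sr1 (h : RR β [0, 1, 0, 2, 1] [1, 0, 0, 2, 1]) : SR β := by
  have h1 := (RR.refl (β := β) [0]).append h.symm
  have h2 := (RR.refl (β := β) [0]).append h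
  exact h2

theorem sr2 (h : RR β [0, 1, 0, 2, 1] [0, 0, 1, 2, 1]) : SR β := (h.sub i02).symm

theorem sl1 (h : RR β [1, 2, 0, 1, 0] [1, 2, 1, 0, 0]) : SL β := h.sub i20

theorem sl2 (h : RR β [1, 2, 0, 1, 0] [1, 2, 0, 0, 1]) : SL β := (h.append (RR.refl [0])).symm

/-- the three words -/
def X3 (X : List ℕ) : Prop := X = [0, 1, 0] ∨ X = [1, 0, 0] ∨ X = [0, 0, 1]

theorem x3_d0 {X : List ℕ} (h : X3 X) : d0 X = [1] := by
  rcases h with rfl | rfl | rfl <;> decide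

/-- **Rigidity, kind A.** -/
theorem ka (hi : Iso3 β) (hs : ¬ SR β) {X P U Q V : List ℕ} (hX : X3 X)
    (h : RR β (X ++ [2, 1]) (P ++ 0 :: (U ++ 0 :: (Q ++ 2 :: V)))) (hP : 0 ∉ P) (hU : 0 ∉ U)
    (hQ : 0 ∉ Q) (hV : 0 ∉ V) : 1 ∈ U ↔ X = [0, 1, 0] := by
  obtain ⟨h1, h2⟩ := ka_pos hi (x3_d0 hX) h hP hU hQ hV
  subst h1
  rcases c1 h2 with ⟨rfl, rfl, rfl⟩ | ⟨rfl, rfl, rfl⟩ | ⟨rfl, rfl, rfl⟩
  · constructor
    · intro h3
      simp at h3
    · rintro rfl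
      exact absurd (sr1 h) hs
  · constructor
    · intro _
      rcases hX with h3 | h3 | h3
      · exact h3
      · subst h3
        exact absurd (sr1 h.symm) hs
      · subst h3
        exact absurd (sr2 h.symm) hs
    · intro _
      simp
  · constructor
    · intro h3
      simp at h3
    · rintro rfl
      exact absurd (sr2 h) hs

/-- **Rigidity, kind B.** -/
theorem kb (hi : Iso3 β) (hs : ¬ SL β) {X P U Q V : List ℕ} (hX : X3 X)
    (h : RR β ([1, 2] ++ X) (V ++ 2 :: (P ++ 0 :: (U ++ 0 :: Q)))) (hP : 0 ∉ P) (hU : 0 ∉ U)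
    (hQ : 0 ∉ Q) (hV : 0 ∉ V) : 1 ∈ U ↔ X = [0, 1, 0] := by
  obtain ⟨h1, h2⟩ := kb_pos hi (x3_d0 hX) h hP hU hQ hV
  subst h1
  rcases c1 h2 with ⟨rfl, rfl, rfl⟩ | ⟨rfl, rfl, rfl⟩ | ⟨rfl, rfl, rfl⟩
  · constructor
    · intro h3
      simp at h3
    · rintro rfl
      exact absurd (sl1 h) hs
  · constructor
    · intro _
      rcases hX with h3 | h3 | h3
      · exact h3
      · subst h3
        exact absurd (sl1 h.symm) hs
      · subst h3
        exact absurd (sl2 h.symm) hs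
    · intro _
      simp
  · constructor
    · intro h3
      simp at h3
    · rintro rfl
      exact absurd (sl2 h) hs

end Pool.Agent.Helper96_MWQ
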