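import Pool.Agent.Helper96_MWQ.Stmts
import Pool.Agent.Helper96_MWQ.Rig
import Pool.Agent.Helper96_MWQ.H10_PER

/-!
# Rigidity of the last light letter in words with blocks (MP_23468a_al)
-/

set_option autoImplicit false

namespace Pool.Agent.MWTQ

open Pool.Agent.Helper14_MV Pool.Agent.Helper2_MV Pool.Agent.MVD Pool.Agent.Helper96_MWQ

variable {n m : ℕ} {β : FIC} {R : List ℕ}

/-- `0` stays, `z` becomes `1`, `s` becomes `2` -/
def gg (z s : ℕ) (a : ℕ) : List ℕ :=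
  if a = 0 then [0] else if a = z then [1] else if a = s then [2] else []

theorem gg_n0 {z s : ℕ} {l : List ℕ} (h : 0 ∉ l) : 0 ∉ l.flatMap (gg z s) := by
  intro h1
  obtain ⟨a, ha, h2⟩ := List.mem_flatMap.1 h1
  unfold gg at h2
  split_ifs at h2 with h3
  · exact h (h3 ▸ ha)
  · simp at h2
  · simp at h2
  · simp at h2

theorem gg_1 {z s : ℕ} (hz : z ≠ 0) {l : List ℕ} : 1 ∈ l.flatMap (gg z s) ↔ z ∈ l := by
  constructor
  · intro h1
    obtain ⟨a, ha, h2⟩ := List.mem_flatMap.1 h1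
    unfold gg at h2
    split_ifs at h2 with h3 h4
    · simp at h2
    · exact h4 ▸ ha
    · simp at h2
    · simp at h2
  · intro h1
    refine List.mem_flatMap.2 ⟨z, h1, ?_⟩
    unfold gg
    rw [if_neg hz, if_pos rfl]
    simp

/-- words without separators -/
theorem gg_sf {z s : ℕ} (hs : s % 3 = 2) {l : List ℕ} (h : SFr l) :
    l.flatMap (gg z s) = l.flatMap (gg z 2) := by
  refine List.flatMap_congr (fun a ha => ?_)
  have h1 := h a ha
  unfold gg
  by_cases h2 : a = 0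
  · rw [if_pos h2, if_pos h2]
  · rw [if_neg h2, if_neg h2]
    by_cases h3 : a = z
    · rw [if_pos h3, if_pos h3]
    · rw [if_neg h3, if_neg h3, if_neg (by omega), if_neg (by omega)]

/-- the place of the last light letter in copy `k` -/
abbrev r0 (m k : ℕ) : ℕ := 7 * (m - 1) + k + 1

theorem plk_r0 {k : ℕ} {κ : ℕ → ℕ} (hm : 1 ≤ m) (hk : k < 7) (hκ : κ (3 * (m - 1) + 1) = k) :
    plk κ (r0 m k) = [3 * (m - 1) + 1] := by
  unfold plk r0
  have h1 : (7 * (m - 1) + k + 1 - 1) / 7 = m - 1 := by omega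
  have h2 : (7 * (m - 1) + k + 1 - 1) % 7 = k := by omega
  rw [h1, h2, if_pos hκ]

theorem plk_ne {k : ℕ} {κ : ℕ → ℕ} (hm : 1 ≤ m) (hκ : κ (3 * (m - 1) + 1) = k) {r : ℕ}
    (hr : r ≠ 0) (h : r ≠ r0 m k) (s : ℕ) (hs : s % 3 = 2) :
    (plk κ r).flatMap (gg (3 * (m - 1) + 1) s) = [] := by
  unfold plk
  split_ifs with h1
  · have h2 : 3 * ((r - 1) / 7) + 1 ≠ 3 * (m - 1) + 1 := by
      intro h3
      rw [h3, hκ] at h1
      apply h
      unfold r0
      omega
    rw [List.flatMap_cons, List.flatMap_nil, List.append_nil]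
    unfold gg
    rw [if_neg (by omega), if_neg h2, if_neg (by omega)]
  · rfl

/-- places without the last light letter -/
theorem im_no {k : ℕ} {κ : ℕ → ℕ} (hm : 1 ≤ m) (hκ : κ (3 * (m - 1) + 1) = k) (s : ℕ)
    (hs : s % 3 = 2) (L : List ℕ) : ∀ S : List ℕ, (∀ r ∈ S, r ≠ 0 ∧ r ≠ r0 m k ∧ 3 * r + 2 ≠ s) →
      (Bw S (fun r => if r = 0 then L else plk κ r)).flatMap (gg (3 * (m - 1) + 1) s) = [] := by
  intro S
  induction S with
  | nil => intro _; rfl
  | cons r S ih =>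
    intro h
    obtain ⟨h1, h2, h3⟩ := h r List.mem_cons_self
    have e : Bw (r :: S) (fun r => if r = 0 then L else plk κ r) =
        (plk κ r ++ [3 * r + 2]) ++ Bw S (fun r => if r = 0 then L else plk κ r) := by
      unfold Bw
      rw [List.flatMap_cons]
      simp only [if_neg h1]
    rw [e, List.flatMap_append, ih (fun a ha => h a (List.mem_cons_of_mem _ ha)),
      List.flatMap_append, plk_ne hm hκ h1 h2 s hs]
    have e2 : [3 * r + 2].flatMap (gg (3 * (m - 1) + 1) s) = [] := by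
      rw [List.flatMap_cons, List.flatMap_nil, List.append_nil]
      unfold gg
      rw [if_neg (by omega), if_neg (by omega), if_neg h3]
    rw [e2]
    rfl

theorem bw_app (S T : List ℕ) (B : ℕ → List ℕ) : Bw (S ++ T) B = Bw S B ++ Bw T B := by
  unfold Bw
  rw [List.flatMap_append]

theorem bw_cons (r : ℕ) (T : List ℕ) (B : ℕ → List ℕ) :
    Bw (r :: T) B = B r ++ (3 * r + 2) :: Bw T B := by
  unfold Bw
  rw [List.flatMap_cons]
  simp

theorem bw_n0 {S : List ℕ} {B : ℕ → List ℕ} (h : ∀ r ∈ S, 0 ∉ B r) : 0 ∉ Bw S B := by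
  intro h1
  unfold Bw at h1
  obtain ⟨r, hr, h2⟩ := List.mem_flatMap.1 h1
  rcases List.mem_append.1 h2 with h3 | h3
  · exact h r hr h3
  · rw [List.mem_singleton] at h3
    omega

/-- **Rigidity.** -/
theorem rigw (hi : Iso3 β) (hm : 1 ≤ m) (hnd : (R7 R).Nodup)
    (hrg : (¬ Helper96_MWV.SR β ∧ ∃ R1 R2, R = R1 ++ 0 :: R2 ∧ m ∈ R2) ∨
      (¬ Helper96_MWV.SL β ∧ ∃ R1 R2, R = R1 ++ 0 :: R2 ∧ m ∈ R1)) {k : ℕ} (hk : k < 7)
    {κ : ℕ → ℕ} (hκ : κ (3 * (m - 1) + 1) = k) {L X : List ℕ} (hL : SFr L) (hX : X3 X)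
    (hLX : L.flatMap (gg (3 * (m - 1) + 1) 2) = X) {B : ℕ → List ℕ} {e P U Q : List ℕ}
    (hB : ∀ r, SFr (B r)) (he : SFr e) (h : RR β (Bp (R7 R) (plk κ) L) (Bw (R7 R) B ++ e))
    (eB : B 0 = P ++ 0 :: (U ++ 0 :: Q)) (hP : 0 ∉ P) (hU : 0 ∉ U) (hQ : 0 ∉ Q)
    (hr : ∀ r ∈ R7 R, r ≠ 0 → 0 ∉ B r) (he0 : 0 ∉ e) : 3 * (m - 1) + 1 ∈ U ↔ X = [0, 1, 0] := by
  have hz : 3 * (m - 1) + 1 ≠ 0 := by omega
  have e0 : ∀ s : ℕ, s % 3 = 2 → (B 0).flatMap (gg (3 * (m - 1) + 1) s) =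
      P.flatMap (gg (3 * (m - 1) + 1) 2) ++ 0 :: (U.flatMap (gg (3 * (m - 1) + 1) 2) ++
        0 :: Q.flatMap (gg (3 * (m - 1) + 1) 2)) := by
    intro s hs
    rw [gg_sf hs (hB 0), eB, List.flatMap_append, List.flatMap_cons, List.flatMap_append,
      List.flatMap_cons]
    rfl
  have hR7 : ∀ R1 R2 : List ℕ, R = R1 ++ 0 :: R2 → R7 R = R7 R1 ++ 0 :: R7 R2 := by
    rintro R1 R2 rfl
    unfold R7
    rw [List.flatMap_append, List.flatMap_cons]
    rfl
  have hmem : ∀ S : List ℕ, m ∈ S → r0 m k ∈ R7 S := by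
    intro S hS
    unfold R7
    refine List.mem_flatMap.2 ⟨m, hS, ?_⟩
    rw [if_neg (by omega), List.mem_map]
    exact ⟨k, List.mem_range.2 hk, rfl⟩
  rw [← gg_1 (z := 3 * (m - 1) + 1) (s := 2) hz]
  rcases hrg with ⟨hs, R1, R2, eR, hmR⟩ | ⟨hs, R1, R2, eR, hmR⟩
  · -- kind A
    have e7 := hR7 R1 R2 eR
    have hin := hmem R2 hmR
    obtain ⟨S1, S2, eS⟩ := List.append_of_mem hin
    rw [e7, eS] at hnd h
    have hr' : ∀ r ∈ R7 R1 ++ 0 :: (S1 ++ r0 m k :: S2), r ≠ 0 → 0 ∉ B r := by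
      rw [← eS, ← e7]
      exact hr
    have hnd' := List.nodup_append.1 hnd
    have hnd2 := List.nodup_cons.1 hnd'.2.1
    have hnd3 := List.nodup_append.1 hnd2.2
    have hnd4 := List.nodup_cons.1 hnd3.2.1
    have z1 : 0 ∉ R7 R1 := fun h1 => hnd'.2.2 0 h1 0 List.mem_cons_self rfl
    have z2 : 0 ∉ S1 := fun h1 => hnd2.1 (List.mem_append_left _ h1)
    have z3 : 0 ∉ S2 := fun h1 => hnd2.1 (List.mem_append_right _ (List.mem_cons_of_mem _ h1))
    have q1 : r0 m k ∉ R7 R1 := fun h1 => hnd'.2.2 _ h1 (r0 m k) (by simp) rfl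
    have q2 : r0 m k ∉ S1 := fun h1 => hnd3.2.2 _ h1 (r0 m k) List.mem_cons_self rfl
    have q3 : r0 m k ∉ S2 := hnd4.1
    have h1 := h.sub (gg (3 * (m - 1) + 1) 2)
    have hI : ∀ S : List ℕ, 0 ∉ S → r0 m k ∉ S →
        (Bw S (fun r => if r = 0 then L else plk κ r)).flatMap (gg (3 * (m - 1) + 1) 2) = [] := by
      intro S s1 s2
      refine im_no hm hκ 2 rfl L S (fun r hr => ⟨fun h => s1 (h ▸ hr), fun h => s2 (h ▸ hr), ?_⟩)
      have : r ≠ 0 := fun h => s1 (h ▸ hr)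
      omega
    have hLHS : (Bp (R7 R1 ++ 0 :: (S1 ++ r0 m k :: S2)) (plk κ) L).flatMap
        (gg (3 * (m - 1) + 1) 2) = X ++ [2, 1] := by
      unfold Bp
      rw [bw_app, bw_cons, bw_app, bw_cons, if_pos rfl, if_neg (Nat.succ_ne_zero _ : r0 m k ≠ 0),
        List.flatMap_append, List.flatMap_append, List.flatMap_cons, List.flatMap_append,
        List.flatMap_append, List.flatMap_cons, hI _ z1 q1, hI _ z2 q2, hI _ z3 q3, hLX,
        plk_r0 hm hk hκ]
      have f1 : gg (3 * (m - 1) + 1) 2 (3 * 0 + 2) = [2] := by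
        unfold gg
        rw [if_neg (by omega), if_neg (by omega), if_pos rfl]
      have f2 : gg (3 * (m - 1) + 1) 2 (3 * r0 m k + 2) = [] := by
        unfold gg r0
        rw [if_neg (by omega), if_neg (by omega), if_neg (by omega)]
      have f3 : [3 * (m - 1) + 1].flatMap (gg (3 * (m - 1) + 1) 2) = [1] := by
        rw [List.flatMap_cons, List.flatMap_nil, List.append_nil]
        unfold gg
        rw [if_neg hz, if_pos rfl]
      rw [f1, f2, f3]
      rfl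
    have hRHS : (Bw (R7 R1 ++ 0 :: (S1 ++ r0 m k :: S2)) B ++ e).flatMap
        (gg (3 * (m - 1) + 1) 2) = ((Bw (R7 R1) B).flatMap (gg (3 * (m - 1) + 1) 2) ++
          P.flatMap (gg (3 * (m - 1) + 1) 2)) ++ 0 :: (U.flatMap (gg (3 * (m - 1) + 1) 2) ++
          0 :: (Q.flatMap (gg (3 * (m - 1) + 1) 2) ++
            2 :: (Bw (S1 ++ r0 m k :: S2) B ++ e).flatMap (gg (3 * (m - 1) + 1) 2))) := by
      rw [bw_app, bw_cons, List.flatMap_append, List.flatMap_append, List.flatMap_append,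
        List.flatMap_cons, e0 2 rfl, List.flatMap_append]
      have f1 : gg (3 * (m - 1) + 1) 2 (3 * 0 + 2) = [2] := by
        unfold gg
        rw [if_neg (by omega), if_neg (by omega), if_pos rfl]
      rw [f1]
      simp only [List.append_assoc, List.cons_append, List.nil_append]
    rw [hLHS, hRHS] at h1
    refine ka hi hs hX h1 ?_ (gg_n0 hU) (gg_n0 hQ) (gg_n0 ?_)
    · rw [List.mem_append, not_or]
      exact ⟨gg_n0 (bw_n0 (fun r hr1 => hr' r (List.mem_append_left _ hr1)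
        (fun h => z1 (h ▸ hr1)))), gg_n0 hP⟩
    · rw [List.mem_append, not_or]
      exact ⟨bw_n0 (fun r hr1 => hr' r (List.mem_append_right _ (List.mem_cons_of_mem _ hr1))
        (fun h => hnd2.1 (h ▸ hr1))), he0⟩
  · -- kind B
    have e7 := hR7 R1 R2 eR
    have hin := hmem R1 hmR
    obtain ⟨S1, S2, eS⟩ := List.append_of_mem hin
    rw [e7, eS] at hnd h
    have hr' : ∀ r ∈ (S1 ++ r0 m k :: S2) ++ 0 :: R7 R2, r ≠ 0 → 0 ∉ B r := by
      rw [← eS, ← e7]
      exact hr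
    have hnd' := List.nodup_append.1 hnd
    have hnd2 := List.nodup_cons.1 hnd'.2.1
    have hnd3 := List.nodup_append.1 hnd'.1
    have hnd4 := List.nodup_cons.1 hnd3.2.1
    have z1 : 0 ∉ R7 R2 := hnd2.1
    have z2 : 0 ∉ S1 := fun h1 => hnd'.2.2 0 (List.mem_append_left _ h1) 0 List.mem_cons_self rfl
    have z3 : 0 ∉ S2 := fun h1 => hnd'.2.2 0 (List.mem_append_right _
      (List.mem_cons_of_mem _ h1)) 0 List.mem_cons_self rfl
    have q1 : r0 m k ∉ R7 R2 := fun h1 => hnd'.2.2 (r0 m k) (by simp) _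
      (List.mem_cons_of_mem _ h1) rfl
    have q2 : r0 m k ∉ S1 := fun h1 => hnd3.2.2 _ h1 (r0 m k) List.mem_cons_self rfl
    have q3 : r0 m k ∉ S2 := hnd4.1
    have hs2 : (3 * r0 m k + 2) % 3 = 2 := by omega
    have h1 := h.sub (gg (3 * (m - 1) + 1) (3 * r0 m k + 2))
    have hI : ∀ S : List ℕ, 0 ∉ S → r0 m k ∉ S →
        (Bw S (fun r => if r = 0 then L else plk κ r)).flatMap
          (gg (3 * (m - 1) + 1) (3 * r0 m k + 2)) = [] := by
      intro S s1 s2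
      refine im_no hm hκ _ hs2 L S (fun r hr => ⟨fun h => s1 (h ▸ hr), fun h => s2 (h ▸ hr), ?_⟩)
      have : r ≠ r0 m k := fun h => s2 (h ▸ hr)
      omega
    have g0 : gg (3 * (m - 1) + 1) (3 * r0 m k + 2) (3 * 0 + 2) = [] := by
      unfold gg r0
      rw [if_neg (by omega), if_neg (by omega), if_neg (by omega)]
    have g1 : gg (3 * (m - 1) + 1) (3 * r0 m k + 2) (3 * r0 m k + 2) = [2] := by
      unfold gg
      rw [if_neg (by omega), if_neg (by omega), if_pos rfl]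
    have hLHS : (Bp ((S1 ++ r0 m k :: S2) ++ 0 :: R7 R2) (plk κ) L).flatMap
        (gg (3 * (m - 1) + 1) (3 * r0 m k + 2)) = [1, 2] ++ X := by
      unfold Bp
      rw [bw_app, bw_app, bw_cons, bw_cons, if_pos rfl, if_neg (Nat.succ_ne_zero _ : r0 m k ≠ 0),
        List.flatMap_append, List.flatMap_append, List.flatMap_append, List.flatMap_cons,
        List.flatMap_append, List.flatMap_cons, hI _ z1 q1, hI _ z2 q2, hI _ z3 q3,
        gg_sf hs2 hL, hLX, plk_r0 hm hk hκ, g0, g1]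
      have f3 : [3 * (m - 1) + 1].flatMap (gg (3 * (m - 1) + 1) (3 * r0 m k + 2)) = [1] := by
        rw [List.flatMap_cons, List.flatMap_nil, List.append_nil]
        unfold gg
        rw [if_neg hz, if_pos rfl]
      rw [f3]
      simp
    have hRHS : (Bw ((S1 ++ r0 m k :: S2) ++ 0 :: R7 R2) B ++ e).flatMap
        (gg (3 * (m - 1) + 1) (3 * r0 m k + 2)) =
        ((Bw S1 B).flatMap (gg (3 * (m - 1) + 1) (3 * r0 m k + 2)) ++
          (B (r0 m k)).flatMap (gg (3 * (m - 1) + 1) (3 * r0 m k + 2))) ++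
        2 :: (((Bw S2 B).flatMap (gg (3 * (m - 1) + 1) (3 * r0 m k + 2)) ++
          P.flatMap (gg (3 * (m - 1) + 1) 2)) ++ 0 :: (U.flatMap (gg (3 * (m - 1) + 1) 2) ++
          0 :: (Q.flatMap (gg (3 * (m - 1) + 1) 2) ++
            (Bw (R7 R2) B ++ e).flatMap (gg (3 * (m - 1) + 1) (3 * r0 m k + 2))))) := by
      rw [bw_app, bw_app, bw_cons, bw_cons]
      simp only [List.append_assoc, List.cons_append, List.flatMap_append, List.flatMap_cons,
        e0 _ hs2, g0, g1, List.nil_append]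
    rw [hLHS, hRHS] at h1
    have hi2 : ∀ S : List ℕ, (∀ r ∈ S, r ∈ (S1 ++ r0 m k :: S2) ++ 0 :: R7 R2) → 0 ∉ S →
        0 ∉ Bw S B := fun S hS h0 => bw_n0 (fun r hr1 => hr' r (hS r hr1) (fun h => h0 (h ▸ hr1)))
    refine kb hi hs hX h1 ?_ (gg_n0 hU) ?_ ?_
    · rw [List.mem_append, not_or]
      exact ⟨gg_n0 (hi2 S2 (fun r hr => by simp [hr]) z3), gg_n0 hP⟩
    · rw [List.mem_append, not_or]
      refine ⟨gg_n0 hQ, gg_n0 ?_⟩
      rw [List.mem_append, not_or]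
      exact ⟨hi2 (R7 R2) (fun r hr => by simp [hr]) z1, he0⟩
    · rw [List.mem_append, not_or]
      exact ⟨gg_n0 (hi2 S1 (fun r hr => by simp [hr]) z2),
        gg_n0 (hr' (r0 m k) (by simp) (Nat.succ_ne_zero _))⟩

end Pool.Agent.MWTQ
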