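import Pool.Agent.Helper96_MWQ.RigW
import Pool.Agent.Helper96_MWQ.H95_TG2

/-!
# Row TG3 with a rigid light letter: a thin letter never encloses another one (MP_23468a_al)
-/

set_option autoImplicit false

namespace Pool.Agent.MWTQ

open Pool.Agent.Helper14_MV Pool.Agent.Helper2_MV Pool.Agent.MVD Pool.Agent.Helper96_MWQ
  Pool.Agent.MWTQ.H95

/-- `gg` on words without `0` and separators -/
theorem gg_rep {z : ℕ} (hz : z ≠ 0) : ∀ {l : List ℕ}, 0 ∉ l → SFr l →
    l.flatMap (gg z 2) = List.replicate (l.count z) 1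
  | [], _, _ => rfl
  | a :: l, h0, hs => by
    rw [List.mem_cons, not_or] at h0
    have ih := gg_rep hz h0.2 (fun b hb => hs b (List.mem_cons_of_mem _ hb))
    have h2 := hs a List.mem_cons_self
    rw [List.flatMap_cons, ih, List.count_cons]
    by_cases h : a = z
    · have e : gg z 2 a = [1] := by
        unfold gg
        rw [if_neg (fun h' => h0.1 h'.symm), if_pos h]
      rw [e, if_pos (by rw [h]; simp), List.replicate_succ]
      rfl
    · have e : gg z 2 a = [] := by
        unfold gg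
        rw [if_neg (fun h' => h0.1 h'.symm), if_neg h, if_neg (by omega)]
      rw [e, if_neg (by simp [h])]
      rfl

theorem tg3n (hPJB : PjbStmt) (hPJL : PjlStmt) (hPER : PerStmt) : Tg3Stmt := by
  intro n β m R c B t e f S hB ht hlet he hf hef hK p p' U q' q hB0
  have hTG := tg2 hPJB hPJL hPER
  obtain ⟨ce, -, -, we⟩ := hTG n β m R c B t e S hB ht hlet he (fun a ha => hK a (Or.inl ha))
  obtain ⟨cf, rf, tf, -⟩ := hTG n β m R c B t f S hB ht hlet hf (fun a ha => hK a (Or.inr ha))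
  obtain ⟨hnd, h0R, -, -⟩ := hPER m R S.pR
  have hm := S.m1
  have hz : 3 * (m - 1) + 1 ≠ 0 := by omega
  -- the copy
  obtain ⟨k, hk7, hown, hnf, hk3⟩ : ∃ k < 7, own e k ∧ (k < po f ∨ po f + 4 ≤ k) ∧
      (k < 3 ∧ k < po f ∨ 3 < k ∧ po f + 4 ≤ k) := by
    rcases he with rfl | rfl | rfl <;> rcases hf with rfl | rfl | rfl
    · exact absurd rfl hef
    · exact ⟨0, by omega, by decide, by decide, by decide⟩
    · exact ⟨0, by omega, by decide, by decide, by decide⟩
    · exact ⟨4, by omega, by decide, by decide, by decide⟩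
    · exact absurd rfl hef
    · exact ⟨1, by omega, by decide, by decide, by decide⟩
    · exact ⟨4, by omega, by decide, by decide, by decide⟩
    · exact ⟨5, by omega, by decide, by decide, by decide⟩
    · exact absurd rfl hef
  have hzc : 3 * (m - 1) + 1 ∈ c := List.count_pos_iff.1 (by rw [S.cn.li _ (by omega)]; omega)
  -- the light letter is between the letters e
  have hbU : 3 * (7 * (m - 1) + k) + 1 ∈ U := by
    refine we (p ++ f :: p') U (q' ++ f :: q) (by rw [hB0]; simp) (7 * (m - 1) + k) (by omega) ?_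
    have : (7 * (m - 1) + k) % 7 = k := by omega
    rw [this]
    exact hown
  -- the projection
  obtain ⟨κ, hκ⟩ : ∃ κ : ℕ → ℕ, κ = fun a => if a ∈ c then k else 3 := ⟨_, rfl⟩
  have hκz : κ (3 * (m - 1) + 1) = k := by
    rw [hκ]
    exact if_pos hzc
  have h1 := hK f (Or.inr rfl) κ
  unfold Ww at h1
  rw [(hPJB f 1 κ).2.2, sh_append, sh_Bw, (hPJB f 1 κ).1] at h1
  have c0 : 0 ∉ c := by
    intro h
    rcases S.cn.lo 0 h with ⟨d, hd, h'⟩ | ⟨-, h'⟩
    · omega
    · omega
  have cs : SFr c := by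
    intro a ha
    rcases S.cn.lo a ha with ⟨d, hd, h'⟩ | ⟨h', -⟩
    · omega
    · omega
  have cg : c.flatMap (gg (3 * (m - 1) + 1) 2) = [1] := by
    rw [gg_rep hz c0 cs, S.cn.li _ (by omega)]
    rfl
  have g0 : gg (3 * (m - 1) + 1) 2 0 = [0] := rfl
  obtain ⟨L, X, hL, hX, hLX, hne, eL⟩ : ∃ L X : List ℕ, SFr L ∧ X3 X ∧
      L.flatMap (gg (3 * (m - 1) + 1) 2) = X ∧ X ≠ [0, 1, 0] ∧
      (Lw 1 1 c).flatMap (pj f 1 κ) = L := by
    rcases hk3 with ⟨hk, hk'⟩ | ⟨hk, hk'⟩
    · have h2 := (hPJL n m c f S.cn hf).2.1 c [] k (by rw [List.append_nil]) (by simp) hk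
      rw [← hκ, if_neg (by omega)] at h2
      refine ⟨c ++ 0 :: ([] ++ [0]), [1, 0, 0], ?_, Or.inr (Or.inl rfl), ?_, by decide, h2⟩
      · intro a ha
        rcases List.mem_append.1 ha with h3 | h3
        · exact cs a h3
        · simp at h3
          omega
      · rw [List.flatMap_append, cg, List.flatMap_cons, List.nil_append, List.flatMap_cons, g0]
        rfl
    · have h2 := (hPJL n m c f S.cn hf).2.2 [] c k rfl (by simp) hk hk7
      rw [← hκ, if_neg (by omega)] at h2
      refine ⟨0 :: ([] ++ 0 :: c), [0, 0, 1], ?_, Or.inr (Or.inr rfl), ?_, by decide, h2⟩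
      · intro a ha
        rcases List.mem_cons.1 ha with h3 | h3
        · omega
        · rcases List.mem_cons.1 h3 with h3 | h3
          · omega
          · exact cs a h3
      · rw [List.flatMap_cons, List.nil_append, List.flatMap_cons, cg, g0]
        rfl
  rw [eL] at h1
  -- block 0
  have hfe : ∀ l : List ℕ, (sh n (f :: l)).flatMap (pj f 1 κ) =
      0 :: (sh n l).flatMap (pj f 1 κ) := by
    intro l
    rw [sh_cons, if_neg (by omega), List.flatMap_append, List.flatMap_cons, List.flatMap_nil,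
      List.append_nil]
    have h1 : pj f 1 κ f = [0] := by
      unfold pj
      rw [if_pos (by omega), if_pos (by omega), if_pos rfl]
    rw [h1]
    rfl
  have hletB : ∀ r ∈ R7 R, ∀ a ∈ B r, a % 3 = 0 → a = 0 ∨ a = 3 ∨ a = 6 ∨ 42 ≤ a := by
    intro r hr a ha h3
    refine hlet a (List.mem_append_left _ ?_) h3
    unfold Bw
    exact List.mem_flatMap.2 ⟨r, hr, List.mem_append_left _ ha⟩
  have hlett : ∀ a ∈ t, a % 3 = 0 → a = 0 ∨ a = 3 ∨ a = 6 ∨ 42 ≤ a := fun a ha h3 =>
    hlet a (List.mem_append_right _ ha) h3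
  have hB0' : B 0 = p ++ f :: ((p' ++ e :: (U ++ e :: q')) ++ f :: q) := by
    rw [hB0]
    simp
  have hlets : ∀ a ∈ p ++ f :: ((p' ++ e :: (U ++ e :: q')) ++ f :: q),
      a % 3 = 0 → a = 0 ∨ a = 3 ∨ a = 6 ∨ 42 ≤ a := by
    rw [← hB0']
    exact hletB 0 h0R
  have n1 := cnt0 n hf κ p (fun a ha => hlets a (by simp [ha]))
  have n2 := cnt0 n hf κ (p' ++ e :: (U ++ e :: q')) (fun a ha =>
    hlets a (List.mem_append_right _ (List.mem_cons_of_mem _ (List.mem_append_left _ ha))))
  have n3 := cnt0 n hf κ q (fun a ha => hlets a (by simp [ha]))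
  rw [hB0', List.count_append, List.count_cons_self, List.count_append,
    List.count_cons_self] at cf
  have z1 : 0 ∉ (sh n p).flatMap (pj f 1 κ) := List.count_eq_zero.1 (by rw [n1]; omega)
  have z2 : 0 ∉ (sh n (p' ++ e :: (U ++ e :: q'))).flatMap (pj f 1 κ) :=
    List.count_eq_zero.1 (by rw [n2]; omega)
  have z3 : 0 ∉ (sh n q).flatMap (pj f 1 κ) := List.count_eq_zero.1 (by rw [n3]; omega)
  have eB : (sh n (B 0)).flatMap (pj f 1 κ) = (sh n p).flatMap (pj f 1 κ) ++
      0 :: ((sh n (p' ++ e :: (U ++ e :: q'))).flatMap (pj f 1 κ) ++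
        0 :: (sh n q).flatMap (pj f 1 κ)) := by
    rw [hB0', sh_append, List.flatMap_append, hfe, sh_append, List.flatMap_append, hfe]
  have key := rigw S.wo.i3 hm hnd S.rg hk7 hκz hL hX hLX
    (fun r => (hPJB f 1 κ).2.1 _ (sf_sh (hB r))) ((hPJB f 1 κ).2.1 _ (sf_sh ht)) h1 eB z1 z2 z3
    (fun r hr hr0 => by
      have h2 := cnt0 n hf κ (B r) (hletB r hr)
      rw [List.count_eq_zero_of_not_mem (rf r hr hr0)] at h2
      exact List.count_eq_zero.1 h2)
    (by
      have h2 := cnt0 n hf κ t hlett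
      rw [List.count_eq_zero_of_not_mem tf] at h2
      exact List.count_eq_zero.1 h2)
  apply hne
  rw [← key]
  refine List.mem_flatMap.2 ⟨3 * (7 * (m - 1) + k) + 1, ?_, ?_⟩
  · unfold sh
    refine List.mem_flatMap.2 ⟨3 * (7 * (m - 1) + k) + 1, ?_, ?_⟩
    · simp [hbU]
    · rw [if_neg (by omega)]
      simp
  · unfold pj
    rw [if_neg (by omega), if_pos (by omega)]
    have h3 : (3 * (7 * (m - 1) + k) + 1) / 21 = m - 1 := by omega
    have h4 : (3 * (7 * (m - 1) + k) + 1) / 3 % 7 = k := by omega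
    rw [h3, h4, if_pos hκz]
    simp

end Pool.Agent.MWTQ
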